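import Pool.Agent.MP_05b4bd_ag.cr.Bas2

/-! The top forms of the parabolic family satisfy the third condition. -/

namespace Pool.Agent.MP_05b4bd_ag.CR

open MvPolynomial HC
open PC3 (sub2)

namespace Al

variable {K : Type} [Field K] {a b : R2 K}

theorem coeff0 (ha : a.IsHomogeneous 1) (hb : b.IsHomogeneous 1) (w : R2 K) :
    coeff 0 (sub2 a b w) = coeff 0 w := by
  have h := hc_sub2 ha hb 0 w
  have e : ∀ z : R2 K, hc 0 z = C (coeff 0 z) := fun z => homogeneousComponent_zero z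
  rw [e, e, PC3.sub2_C] at h
  exact C_injective _ _ h

theorem sub2_GF (α : K) (k : ℕ) (p q : R2 K) :
    sub2 a b (GF α k p q) = GF α k (sub2 a b p) (sub2 a b q) := by
  simp only [GF, map_sum, map_mul, map_pow, PC3.sub2_C]

theorem sub2_PT (ha : a.IsHomogeneous 1) (hb : b.IsHomogeneous 1) (d n : ℕ) (c r : K)
    (u v : R2 K) : sub2 a b (PT d n c r u v) = PT d n c r (sub2 a b u) (sub2 a b v) := by
  have e : sub2 a b u ^ 2 + sub2 a b v = sub2 a b (u ^ 2 + v) := by rw [map_add, map_pow]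
  simp only [PT]
  rw [e, coeff0 ha hb, hc_sub2 ha hb, hc_sub2 ha hb, ← UM.map_E (sub2 a b), hc_sub2 ha hb, map_add,
    map_mul, map_mul, sub2_GF, map_mul, map_mul]
  simp only [PC3.sub2_C]

end Al

open Al in
theorem alS (h1 : PdeStmt) (h2 : SubStmt) : AlStmt := by
  intro K _ _ d n a r u v hn hu hv h0
  obtain ⟨u0, ξ, hξ, rfl⟩ : ∃ (u0 : K) (ξ : R2 K), ξ.IsHomogeneous 1 ∧ u = C u0 + ξ :=
    ⟨_, _, lf_hom _ _, PC3.DL2_eq hu⟩
  obtain ⟨v0, ζ, hζ, rfl⟩ : ∃ (v0 : K) (ζ : R2 K), ζ.IsHomogeneous 1 ∧ v = C v0 + ζ :=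
    ⟨_, _, lf_hom _ _, PC3.DL2_eq hv⟩
  have hη : (ζ + C (2 * u0) * ξ).IsHomogeneous 1 := hζ.add (by
    simpa using (isHomogeneous_C (Fin 2) (2 * u0)).mul hξ)
  have e1 : sub2 ξ (ζ + C (2 * u0) * ξ) (C u0 + X 0) = C u0 + ξ := by
    rw [map_add, PC3.sub2_C, PC3.sub2_X0]
  have e2 : sub2 ξ (ζ + C (2 * u0) * ξ) (C (u0 ^ 2 + v0 - u0 ^ 2) + X 1 - 2 * C u0 * X 0) =
      C v0 + ζ := by
    rw [add_sub_cancel_left]
    simp only [map_add, map_sub, map_mul, map_ofNat, PC3.sub2_C, PC3.sub2_X0, PC3.sub2_X1]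
    ring
  have hc0 : u0 ^ 2 + v0 ≠ 0 := by
    rw [← e1, ← e2, ← map_pow, ← map_add, coeff0 hξ hη, ← constantCoeff_eq] at h0
    simpa using h0
  obtain ⟨g1, g2⟩ := h1 K d n a r u0 (u0 ^ 2 + v0) _ hn hc0 rfl
  rw [← e1, ← e2, ← sub2_PT hξ hη]
  refine (h2 K d _ _ _ hξ hη g1).2.1 _ ⟨X 0, 1, 0, -(4 * (u0 ^ 2 + v0)), X_ne_zero 0,
    isHomogeneous_X _ _, by simp, ?_⟩
  have d0 : pderiv 0 (X 0 : R2 K) = 1 := pderiv_X_self 0
  have d1 : pderiv 1 (X 0 : R2 K) = 0 := pderiv_X_of_ne (by decide)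
  rw [d0, d1, map_neg C, map_mul C, map_one C, map_zero C, map_ofNat C]
  linear_combination g2

end Pool.Agent.MP_05b4bd_ag.CR
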