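import Pool.Agent.MP_05b4bd_ag.cr.Bas2

/-! The basic families of top forms. -/

namespace Pool.Agent.MP_05b4bd_ag.CR

open MvPolynomial HC
open ES.U (TM)
open PC3 (Fm fm d1 wg dv rr DF sub2 mapF H2 H3)
open UM (HP)

namespace Ba

theorem d1_one : d1 (1 : Poly) = 0 := by
  have := PC3.d1_C (1 : ℂ)
  rwa [map_one] at this

theorem dl_one {n : ℕ} (h : 1 ≤ n) : DL n (1 : Poly) := by
  have := (DL_C (1 : ℂ)).mono h
  rwa [map_one] at this

theorem dl_lin {a : Poly} (ha : a.IsHomogeneous 1) (ε : ℂ) : DL 2 (1 + C ε * a) :=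
  (dl_one one_le_two).add (DL.of_hom (ha.C_mul ε))

theorem sub2_GF (s t : Poly) (α : ℂ) (k : ℕ) (a q : Poly) :
    sub2 s t (GF α k a q) = GF α k (sub2 s t a) (sub2 s t q) := by
  simp only [GF, map_sum, map_mul, map_pow, PC3.sub2_C]

end Ba

open Ba in
theorem baS (h1 : TelStmt) (h2 : SjStmt) (h3 : SgStmt) (h4 : UniStmt) : BaStmt := by
  intro d hd
  obtain ⟨⟨u1, -⟩, ⟨u2, -⟩, u3⟩ := h4 d hd
  refine ⟨fun α β c a b ha hb => ?_, fun α c a q ha hq => ?_, fun n a r ξ η hξ hη => ?_⟩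
  · have := h1 d _ _ _ 0 _ _ _ c hd ((h2 ℂ α β).1 a b ha hb) fun ε b' g _ hg =>
      u1 _ ⟨1 + C ε * a, 1 + C ε * b, g, -α, -β, 1, dl_lin ha ε, dl_lin hb ε, hg, by
        simp only [map_zero, mul_zero, zero_add, PC3.fm_eq, PC3.d1_add, PC3.d1_C_mul, d1_one,
          map_neg, map_one]
        module⟩
    rwa [map_mul, PC3.sub2_C, ← zero_add (C c * _), ← map_zero (homogeneousComponent d)]
  · have := h1 d _ _ _ 0 _ _ _ c hd (h3 ℂ α a q ha hq).1 fun ε b' g _ hg =>
      u2 _ ⟨1 + C ε * a + C (ε ^ 2) * q, g, 1, -α,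
        ((dl_lin ha ε).mono (by norm_num)).add (DL.of_hom (hq.C_mul _)),
        by rwa [Nat.sub_add_cancel hd], by
        simp only [map_zero, mul_zero, zero_add, PC3.fm_eq, PC3.d1_add, PC3.d1_C_mul, d1_one,
          map_neg, map_one]
        simp only [map_pow]
        module⟩
    rwa [← zero_add (C c * _), ← map_zero (homogeneousComponent d)]
  · have hq : (ξ ^ 2).IsHomogeneous 2 := hξ.pow 2
    have e2 : (C (1 / 2 : ℂ) : Poly) * 2 = 1 := by
      rw [← map_ofNat (C : ℂ →+* Poly) 2, ← map_mul]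
      norm_num
    have := h1 d _ _ _ (C a * E ξ (1 + η) n) _ _ _ r hd (h3 ℂ ((n : ℂ) + 1 / 2) η _ hη hq).1
      fun ε b' g _ hg => (u3 n).1 _ ⟨b' * a * (1 / 2), C ε * ξ, 1 + C ε * η, C (1 / 2) * g,
        C (1 / 2) * (C b' * sub2 (C ε * X 0) (C ε * X 1) (C a * E ξ (1 + η) n) + g),
        DL.of_hom (hξ.C_mul ε), dl_lin hη ε, hg.C_mul _, by
          rw [map_mul (sub2 _ _), PC3.sub2_C, UM.map_E, map_add, map_one, sub2_scale ε hξ,
            sub2_scale ε hη, pow_one, map_mul, map_mul]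
          ring, by
          generalize C b' * sub2 (C ε * X 0) (C ε * X 1) (C a * E ξ (1 + η) n) + g = R
          rw [mul_pow, ← map_pow]
          simp only [zero_add, PC3.fm_eq, PC3.d1_add, PC3.d1_C_mul, d1_one]
          simp only [map_pow, map_add, map_natCast]
          generalize (C (1 / 2 : ℂ) : Poly) = z at e2 ⊢
          match_scalars
          · linear_combination (-(1 + C ε * η + C ε ^ 2 * ξ ^ 2)) * e2
          · linear_combination (n : Poly) * R * C ε * e2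
          · linear_combination (n : Poly) * R * C ε ^ 2 * e2⟩
    rw [map_add, map_mul, map_mul, PC3.sub2_C, PC3.sub2_C, ← hc_sub2 hξ hη, UM.map_E, map_add,
      map_one, sub2_GF, map_pow, PC3.sub2_X0, PC3.sub2_X1, ← hc_C_mul]
    exact this

end Pool.Agent.MP_05b4bd_ag.CR
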