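import Pool.Agent.MP_05b4bd_ag.cr.Spec

/-! Elementary lemmas on places, linear substitutions and limits. -/

namespace Pool.Agent.MP_05b4bd_ag.CR

open MvPolynomial HC
open PC3 (Fm fm d1 wg dv rr DF sub2 mapF)

section Place
variable {V K κ : Type} [CommRing V] [Field K] [Field κ] {ι : V →+* K} {ρ : V →+* κ}

/-- The scalar `x` is integral and reduces to `y`. -/
def Rs (ι : V →+* K) (ρ : V →+* κ) (x : K) (y : κ) : Prop := ∃ a, ι a = x ∧ ρ a = y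

namespace Rs
variable {x x' : K} {y y' : κ}

theorem zero : Rs ι ρ 0 0 := ⟨0, map_zero _, map_zero _⟩
theorem one : Rs ι ρ 1 1 := ⟨1, map_one _, map_one _⟩
theorem nat (n : ℕ) : Rs ι ρ n n := ⟨n, map_natCast _ _, map_natCast _ _⟩
theorem add (h : Rs ι ρ x y) (h' : Rs ι ρ x' y') : Rs ι ρ (x + x') (y + y') := by
  obtain ⟨a, rfl, rfl⟩ := h; obtain ⟨b, rfl, rfl⟩ := h'
  exact ⟨a + b, map_add _ _ _, map_add _ _ _⟩
theorem mul (h : Rs ι ρ x y) (h' : Rs ι ρ x' y') : Rs ι ρ (x * x') (y * y') := by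
  obtain ⟨a, rfl, rfl⟩ := h; obtain ⟨b, rfl, rfl⟩ := h'
  exact ⟨a * b, map_mul _ _ _, map_mul _ _ _⟩
theorem neg (h : Rs ι ρ x y) : Rs ι ρ (-x) (-y) := by
  obtain ⟨a, rfl, rfl⟩ := h; exact ⟨-a, map_neg _ _, map_neg _ _⟩
theorem sub (h : Rs ι ρ x y) (h' : Rs ι ρ x' y') : Rs ι ρ (x - x') (y - y') := by
  rw [sub_eq_add_neg, sub_eq_add_neg]; exact h.add h'.neg
theorem pow (h : Rs ι ρ x y) (n : ℕ) : Rs ι ρ (x ^ n) (y ^ n) := by
  obtain ⟨a, rfl, rfl⟩ := h; exact ⟨a ^ n, map_pow _ _ _, map_pow _ _ _⟩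
theorem uniq (P : Pl ι ρ) (h : Rs ι ρ x y) (h' : Rs ι ρ x y') : y = y' := by
  obtain ⟨a, rfl, rfl⟩ := h; obtain ⟨b, e, rfl⟩ := h'; rw [P.inj e]
theorem ne_zero (P : Pl ι ρ) (h : Rs ι ρ x y) (hy : y ≠ 0) : x ≠ 0 := by
  rintro rfl; exact hy (h.uniq P zero)
theorem inv (P : Pl ι ρ) (h : Rs ι ρ x y) (hy : y ≠ 0) : Rs ι ρ x⁻¹ y⁻¹ := by
  obtain ⟨a, rfl, rfl⟩ := h
  obtain ⟨b, hb⟩ := (P.unit a hy).exists_right_inv
  exact ⟨b, eq_inv_of_mul_eq_one_right (by rw [← map_mul, hb, map_one]),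
    eq_inv_of_mul_eq_one_right (by rw [← map_mul, hb, map_one])⟩
theorem toC (h : Rs ι ρ x y) : Rd ι ρ (C x) (C y) := by
  obtain ⟨a, rfl, rfl⟩ := h; exact ⟨C a, map_C _ _, map_C _ _⟩

end Rs

/-- A scalar is integral, or its inverse reduces to zero. -/
theorem Pl.tot' (P : Pl ι ρ) (x : K) : (∃ y, Rs ι ρ x y) ∨ x ≠ 0 ∧ Rs ι ρ x⁻¹ 0 := by
  rcases P.tot x with ⟨a, h⟩ | ⟨a, h0, h1⟩
  · exact .inl ⟨_, a, h, rfl⟩
  · exact .inr ⟨right_ne_zero_of_mul_eq_one h1, a, eq_inv_of_mul_eq_one_left h1, h0⟩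

namespace Rd
variable {u u' : R2 K} {v v' : R2 κ}

theorem zero : Rd ι ρ 0 0 := ⟨0, map_zero _, map_zero _⟩
theorem one : Rd ι ρ 1 1 := ⟨1, map_one _, map_one _⟩
theorem nat (n : ℕ) : Rd ι ρ n n := ⟨n, map_natCast _ _, map_natCast _ _⟩
theorem X (i : Fin 2) : Rd ι ρ (X i) (X i) := ⟨MvPolynomial.X i, map_X _ _, map_X _ _⟩
theorem add (h : Rd ι ρ u v) (h' : Rd ι ρ u' v') : Rd ι ρ (u + u') (v + v') := by
  obtain ⟨a, rfl, rfl⟩ := h; obtain ⟨b, rfl, rfl⟩ := h'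
  exact ⟨a + b, map_add _ _ _, map_add _ _ _⟩
theorem mul (h : Rd ι ρ u v) (h' : Rd ι ρ u' v') : Rd ι ρ (u * u') (v * v') := by
  obtain ⟨a, rfl, rfl⟩ := h; obtain ⟨b, rfl, rfl⟩ := h'
  exact ⟨a * b, map_mul _ _ _, map_mul _ _ _⟩
theorem neg (h : Rd ι ρ u v) : Rd ι ρ (-u) (-v) := by
  obtain ⟨a, rfl, rfl⟩ := h; exact ⟨-a, map_neg _ _, map_neg _ _⟩
theorem sub (h : Rd ι ρ u v) (h' : Rd ι ρ u' v') : Rd ι ρ (u - u') (v - v') := by
  rw [sub_eq_add_neg, sub_eq_add_neg]; exact h.add h'.neg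
theorem pow (h : Rd ι ρ u v) (n : ℕ) : Rd ι ρ (u ^ n) (v ^ n) := by
  obtain ⟨a, rfl, rfl⟩ := h; exact ⟨a ^ n, map_pow _ _ _, map_pow _ _ _⟩
theorem sum {I : Type} (s : Finset I) {p : I → R2 K} {q : I → R2 κ}
    (h : ∀ i ∈ s, Rd ι ρ (p i) (q i)) : Rd ι ρ (∑ i ∈ s, p i) (∑ i ∈ s, q i) := by
  classical
  induction s using Finset.induction_on with
  | empty => exact zero
  | insert i s hi ih =>
    rw [Finset.sum_insert hi, Finset.sum_insert hi]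
    exact (h i (by simp)).add (ih fun j hj => h j (by simp [hj]))
theorem pderiv (h : Rd ι ρ u v) (i : Fin 2) : Rd ι ρ (pderiv i u) (pderiv i v) := by
  obtain ⟨a, rfl, rfl⟩ := h; exact ⟨MvPolynomial.pderiv i a, pderiv_map.symm, pderiv_map.symm⟩
theorem hc (h : Rd ι ρ u v) (n : ℕ) : Rd ι ρ (hc n u) (hc n v) := by
  obtain ⟨a, rfl, rfl⟩ := h; exact ⟨HC.hc n a, (hc_map _ _ _).symm, (hc_map _ _ _).symm⟩
theorem sub2 {a b : R2 K} {a' b' : R2 κ} (ha : Rd ι ρ a a') (hb : Rd ι ρ b b') (h : Rd ι ρ u v) :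
    Rd ι ρ (sub2 a b u) (sub2 a' b' v) := by
  obtain ⟨a, rfl, rfl⟩ := ha; obtain ⟨b, rfl, rfl⟩ := hb; obtain ⟨c, rfl, rfl⟩ := h
  exact ⟨PC3.sub2 a b c, PC3.map_sub2 _ _, PC3.map_sub2 _ _⟩
theorem coeff (h : Rd ι ρ u v) (m : Fin 2 →₀ ℕ) : Rs ι ρ (coeff m u) (coeff m v) := by
  obtain ⟨a, rfl, rfl⟩ := h; exact ⟨_, (coeff_map _ _ _).symm, (coeff_map _ _ _).symm⟩
theorem co (h : Rd ι ρ u v) (i j : ℕ) : Rs ι ρ (HC.co i j u) (HC.co i j v) := h.coeff _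
theorem uniq (P : Pl ι ρ) (h : Rd ι ρ u v) (h' : Rd ι ρ u v') : v = v' := by
  obtain ⟨a, rfl, rfl⟩ := h; obtain ⟨b, e, rfl⟩ := h'; rw [map_injective _ P.inj e]
theorem ne_zero (P : Pl ι ρ) (h : Rd ι ρ u v) (hv : v ≠ 0) : u ≠ 0 := by
  rintro rfl; exact hv (h.uniq P zero)
theorem coeff_zero (P : Pl ι ρ) (h : Rd ι ρ u v) {m : Fin 2 →₀ ℕ}
    (hm : MvPolynomial.coeff m u = 0) : MvPolynomial.coeff m v = 0 :=
  (hm ▸ h.coeff m).uniq P Rs.zero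
theorem dl (P : Pl ι ρ) (h : Rd ι ρ u v) {n : ℕ} (hu : DL n u) : DL n v :=
  fun m hm => h.coeff_zero P (hu m hm)
theorem whom (P : Pl ι ρ) (h : Rd ι ρ u v) {w : Fin 2 → ℕ} {n : ℕ}
    (hu : u.IsWeightedHomogeneous w n) : v.IsWeightedHomogeneous w n :=
  fun _ hm => hu fun e => hm (h.coeff_zero P e)
theorem hom (P : Pl ι ρ) (h : Rd ι ρ u v) {n : ℕ} (hu : u.IsHomogeneous n) : v.IsHomogeneous n :=
  h.whom P hu

/-- Integral coefficients. -/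
theorem of_int (h : ∀ m, ∃ y, Rs ι ρ (MvPolynomial.coeff m u) y) : ∃ v, Rd ι ρ u v := by
  obtain ⟨a, ha⟩ : u ∈ Set.range (map ι) := by
    rw [mem_range_map_iff_coeffs_subset]
    intro z hz
    obtain ⟨m, -, rfl⟩ := mem_coeffs_iff.1 hz
    obtain ⟨_, a, h, -⟩ := h m
    exact ⟨a, h⟩
  exact ⟨_, a, ha, rfl⟩

theorem of_coeff (P : Pl ι ρ)
    (h : ∀ m, Rs ι ρ (MvPolynomial.coeff m u) (MvPolynomial.coeff m v)) : Rd ι ρ u v := by
  obtain ⟨w, hw⟩ := of_int fun m => ⟨_, h m⟩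
  rwa [show v = w from MvPolynomial.ext _ _ fun m => (h m).uniq P (hw.coeff m)]

end Rd

/-- A dominant member of a finite family. -/
theorem Pl.dom (P : Pl ι ρ) {I : Type} (c : I → K) {s : Finset I} (hs : s.Nonempty) :
    ∃ j ∈ s, ∀ i ∈ s, ∃ a, c i = ι a * c j := by
  induction hs using Finset.Nonempty.cons_induction with
  | singleton i => exact ⟨i, by simp, fun k hk => ⟨1, by simp [Finset.mem_singleton.1 hk]⟩⟩
  | cons i s hi _ ih =>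
    obtain ⟨j, hj, h⟩ := ih
    have : (∃ a, c i = ι a * c j) ∨ ∃ a, c j = ι a * c i := by
      by_cases h0 : c j = 0
      · exact .inr ⟨0, by simp [h0]⟩
      rcases P.tot (c i / c j) with ⟨a, ha⟩ | ⟨a, -, ha⟩
      · exact .inl ⟨a, by rw [ha, div_mul_cancel₀ _ h0]⟩
      · exact .inr ⟨a, by rw [← mul_div_assoc, div_eq_one_iff_eq h0] at ha; exact ha.symm⟩
    rcases this with e | ⟨a, e⟩
    · refine ⟨j, by simp [hj], fun k hk => ?_⟩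
      rcases Finset.mem_cons.1 hk with rfl | hk
      exacts [e, h k hk]
    · refine ⟨i, by simp, fun k hk => ?_⟩
      rcases Finset.mem_cons.1 hk with rfl | hk
      · exact ⟨1, by simp⟩
      · obtain ⟨b, hb⟩ := h k hk
        exact ⟨b * a, by rw [hb, e, map_mul, mul_assoc]⟩

/-- A primitive multiple of a family of scalars; one member becomes `1`. -/
theorem Pl.prim_fun (P : Pl ι ρ) {I : Type} [Fintype I] {c : I → K} (hc : c ≠ 0) :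
    ∃ (j : I) (z : I → κ), c j ≠ 0 ∧ z j = 1 ∧ ∀ i, Rs ι ρ ((c j)⁻¹ * c i) (z i) := by
  obtain ⟨i0, h0⟩ := Function.ne_iff.1 hc
  obtain ⟨j, -, h⟩ := P.dom c ⟨i0, Finset.mem_univ i0⟩
  choose a ha using fun i => h i (Finset.mem_univ i)
  have hj : c j ≠ 0 := fun e => h0 (by rw [ha i0, e, mul_zero]; rfl)
  have k : ∀ i, Rs ι ρ ((c j)⁻¹ * c i) (ρ (a i)) := fun i =>
    ⟨a i, by rw [ha i, mul_comm (ι _), inv_mul_cancel_left₀ hj], rfl⟩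
  exact ⟨j, _, hj, (k j).uniq P (by rw [inv_mul_cancel₀ hj]; exact Rs.one), k⟩

/-- A primitive multiple of a family of polynomials. -/
theorem Pl.prim_fam (P : Pl ι ρ) {I : Type} [Fintype I] {u : I → R2 K} (hu : u ≠ 0) :
    ∃ (r : K) (v : I → R2 κ), r ≠ 0 ∧ v ≠ 0 ∧ ∀ i, Rd ι ρ (C r * u i) (v i) := by
  classical
  obtain ⟨i0, h0⟩ := Function.ne_iff.1 hu
  obtain ⟨m0, hm0⟩ := ne_zero_iff.1 h0
  have mem : ∀ i m, coeff m (u i) ≠ 0 →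
      (i, m) ∈ Finset.univ ×ˢ Finset.univ.biUnion fun i => (u i).support := fun i m h =>
    Finset.mem_product.2 ⟨Finset.mem_univ _,
      Finset.mem_biUnion.2 ⟨i, Finset.mem_univ _, mem_support_iff.2 h⟩⟩
  obtain ⟨j, -, h⟩ := P.dom (fun z : I × (Fin 2 →₀ ℕ) => coeff z.2 (u z.1)) ⟨_, mem i0 m0 hm0⟩
  have hj : coeff j.2 (u j.1) ≠ 0 := fun e => hm0 (by
    obtain ⟨a, ha⟩ := h _ (mem i0 m0 hm0)
    rw [e, mul_zero] at ha; exact ha)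
  choose v hv using fun i => Rd.of_int (ι := ι) (ρ := ρ) (u := C (coeff j.2 (u j.1))⁻¹ * u i)
    fun m => by
      rw [coeff_C_mul]
      by_cases e : coeff m (u i) = 0
      · exact ⟨0, by rw [e, mul_zero]; exact Rs.zero⟩
      · obtain ⟨a, ha⟩ := h _ (mem i m e)
        exact ⟨_, a, by rw [show coeff m (u i) = _ from ha, mul_comm (ι _),
          inv_mul_cancel_left₀ hj], rfl⟩
  refine ⟨_, v, inv_ne_zero hj, fun e => ?_, hv⟩
  have := (hv j.1).coeff j.2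
  rw [coeff_C_mul, inv_mul_cancel₀ hj, e] at this
  exact zero_ne_one (this.uniq P Rs.one)

/-- A primitive multiple of a polynomial. -/
theorem Pl.prim (P : Pl ι ρ) {u : R2 K} (hu : u ≠ 0) :
    ∃ (r : K) (v : R2 κ), r ≠ 0 ∧ v ≠ 0 ∧ Rd ι ρ (C r * u) v := by
  obtain ⟨r, v, h1, h2, h3⟩ := P.prim_fam (u := fun _ : Unit => u) fun e => hu (congrFun e ())
  exact ⟨r, v (), h1, fun e => h2 (funext fun _ => e), h3 ()⟩

/-- Division by a primitive polynomial. -/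
theorem Rd.div (P : Pl ι ρ) {c h : R2 K} {c' g : R2 κ} (hc : Rd ι ρ c c') (h0 : c' ≠ 0)
    (hg : Rd ι ρ (c * h) g) : ∃ h', Rd ι ρ h h' ∧ g = c' * h' := by
  suffices k : ∃ h', Rd ι ρ h h' from k.imp fun h' k => ⟨k, hg.uniq P (hc.mul k)⟩
  by_cases e : h = 0
  · exact ⟨0, e ▸ Rd.zero⟩
  obtain ⟨r, v, hr, hv, k⟩ := P.prim e
  rcases P.tot' r⁻¹ with ⟨y, hy⟩ | ⟨-, hy⟩
  · have := hy.toC.mul k
    rw [← mul_assoc, ← map_mul, inv_mul_cancel₀ hr, map_one, one_mul] at this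
    exact ⟨_, this⟩
  · have h1 := hy.toC.mul hg
    rw [inv_inv, map_zero, zero_mul, mul_left_comm] at h1
    exact absurd ((hc.mul k).uniq P h1) (mul_ne_zero h0 hv)

namespace RdF
variable {u u' : Fm K} {v v' : Fm κ} {g h : R2 K} {g' h' : R2 κ}

theorem zero : RdF ι ρ 0 0 := ⟨Rd.zero, Rd.zero⟩
theorem add (a : RdF ι ρ u v) (b : RdF ι ρ u' v') : RdF ι ρ (u + u') (v + v') :=
  ⟨a.1.add b.1, a.2.add b.2⟩
theorem sub (a : RdF ι ρ u v) (b : RdF ι ρ u' v') : RdF ι ρ (u - u') (v - v') :=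
  ⟨a.1.sub b.1, a.2.sub b.2⟩
theorem smul (a : Rd ι ρ g g') (b : RdF ι ρ u v) : RdF ι ρ (g • u) (g' • v) :=
  ⟨a.mul b.1, a.mul b.2⟩
theorem d1 (a : Rd ι ρ g g') : RdF ι ρ (d1 g) (d1 g') := ⟨a.pderiv 1, (a.pderiv 0).neg⟩
theorem fm (a : Rd ι ρ g g') (b : Rd ι ρ h h') : RdF ι ρ (fm g h) (fm g' h') :=
  ⟨a.mul (b.pderiv 1), (a.mul (b.pderiv 0)).neg⟩
theorem wg (a : RdF ι ρ u v) (b : RdF ι ρ u' v') : Rd ι ρ (wg u u') (wg v v') :=
  (a.1.mul b.2).sub (a.2.mul b.1)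
theorem dv (a : RdF ι ρ u v) : Rd ι ρ (dv u) (dv v) := (a.1.pderiv 0).add (a.2.pderiv 1)
theorem rr (a : Rd ι ρ g g') (b : RdF ι ρ u v) : Rd ι ρ (rr g u) (rr g' v) :=
  (a.mul b.dv).sub ((d1 a).wg b)
theorem uniq (P : Pl ι ρ) (a : RdF ι ρ u v) (b : RdF ι ρ u v') : v = v' :=
  Prod.ext (a.1.uniq P b.1) (a.2.uniq P b.2)

end RdF

/-- A primitive multiple of a form. -/
theorem Pl.primF (P : Pl ι ρ) {u : Fm K} (hu : u ≠ 0) :
    ∃ (r : K) (v : Fm κ), r ≠ 0 ∧ v ≠ 0 ∧ RdF ι ρ ((C r : R2 K) • u) v := by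
  obtain ⟨r, v, h1, h2, h3⟩ := P.prim_fam (u := ![u.1, u.2]) fun e =>
    hu (Prod.ext (congrFun e 0) (congrFun e 1))
  refine ⟨r, (v 0, v 1), h1, fun e => h2 (funext fun i => ?_), h3 0, h3 1⟩
  fin_cases i
  exacts [congrArg Prod.fst e, congrArg Prod.snd e]

end Place

section Lin
variable {A : Type} [CommRing A] {a b u : R2 A} {n : ℕ}

theorem sub2_lin (ha : a.IsHomogeneous 1) (hb : b.IsHomogeneous 1) :
    ∃ p q r s, a = HC.lf p q ∧ b = HC.lf r s ∧ sub2 a b = lin p q r s :=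
  ⟨_, _, _, _, hom1_eq ha, hom1_eq hb, by rw [← PC3.sub2_lf, ← hom1_eq ha, ← hom1_eq hb]⟩

theorem sub2_hom (ha : a.IsHomogeneous 1) (hb : b.IsHomogeneous 1) (hu : u.IsHomogeneous n) :
    (sub2 a b u).IsHomogeneous n := by
  obtain ⟨p, q, r, s, -, -, e⟩ := sub2_lin ha hb
  rw [e]; exact lin_hom hu

theorem hc_sub2 (ha : a.IsHomogeneous 1) (hb : b.IsHomogeneous 1) (n : ℕ) (u : R2 A) :
    hc n (sub2 a b u) = sub2 a b (hc n u) := by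
  obtain ⟨p, q, r, s, -, -, e⟩ := sub2_lin ha hb
  rw [e]; exact hc_lin n u

/-- The derivatives of a linear form are constants. -/
theorem hom1_d (ha : a.IsHomogeneous 1) (i : Fin 2) : ∃ c, pderiv i a = C c := by
  rw [hom1_eq ha]; fin_cases i
  exacts [⟨_, lf_x _ _⟩, ⟨_, lf_y _ _⟩]

/-- Homotheties. -/
theorem sub2_scale (e : A) (hu : u.IsHomogeneous n) :
    sub2 (C e * X 0) (C e * X 1) u = C e ^ n * u := by
  conv_lhs => rw [hom_eq_sum hu]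
  conv_rhs => rw [hom_eq_sum hu]
  rw [map_sum, Finset.mul_sum]
  refine Finset.sum_congr rfl fun i hi => ?_
  obtain ⟨k, rfl⟩ := Nat.exists_eq_add_of_le (Nat.lt_succ_iff.1 (Finset.mem_range.1 hi))
  simp only [map_mul, map_pow, PC3.sub2_C, PC3.sub2_X0, PC3.sub2_X1, Nat.add_sub_cancel_left]
  ring

end Lin

section Lim
variable {d : ℕ} {W : Set Form} {γ : ℂ → Poly} {G : Poly}

theorem PC_sub2 {a b u : ℂ → Poly} (ha : PC a) (hb : PC b) (hu : PC u) :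
    PC fun τ => sub2 (a τ) (b τ) (u τ) := by
  obtain ⟨a', ha⟩ := ha; obtain ⟨b', hb⟩ := hb; obtain ⟨u', hu⟩ := hu
  exact ⟨sub2 a' b' u', fun τ => by rw [PC3.map_sub2, ← ha, ← hb, ← hu]⟩

theorem PC_hc (h : PC γ) (n : ℕ) : PC fun τ => hc n (γ τ) := by
  obtain ⟨a, ha⟩ := h
  exact ⟨hc n a, fun τ => by rw [← hc_map, ← ha]⟩

theorem Top.lim (h : PC γ) (hs : {τ | Top d W (γ τ)}.Infinite) (τ : ℂ) : Top d W (γ τ) :=
  fun g hg => (h.add (PC.const g)).dform.mem_zcl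
    (hs.mono fun t (k : Top d W (γ t)) => k g hg) τ

theorem Tp.lim (h : PC γ) (hs : {τ | Tp d W (γ τ)}.Infinite) (τ : ℂ) : Tp d W (γ τ) :=
  fun a b ha hb => Top.lim (PC_sub2 (PC.const a) (PC.const b) h)
    (hs.mono fun t (k : Tp d W (γ t)) => k a b ha hb) τ

theorem inf_of_fin {s t : Set ℂ} (hs : s.Finite) (h : ∀ τ ∉ s, τ ∈ t) : t.Infinite :=
  hs.infinite_compl.mono h

theorem Top.lim0 (h : PC γ) (hs : ∀ τ, τ ≠ 0 → Top d W (γ τ)) : Top d W (γ 0) :=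
  Top.lim h (inf_of_fin (Set.finite_singleton 0) hs) 0

theorem Tp.lim0 (h : PC γ) (hs : ∀ τ, τ ≠ 0 → Tp d W (γ τ)) : Tp d W (γ 0) :=
  Tp.lim h (inf_of_fin (Set.finite_singleton 0) hs) 0

theorem Tp.sub (h : Tp d W G) {a b : Poly} (ha : a.IsHomogeneous 1) (hb : b.IsHomogeneous 1) :
    Tp d W (sub2 a b G) := fun s t hs ht => by
  rw [PC3.sub2_sub2]; exact h _ _ (sub2_hom hs ht ha) (sub2_hom hs ht hb)

theorem Tp.top (h : Tp d W G) : Top d W G := by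
  have := h _ _ (isHomogeneous_X ℂ 0) (isHomogeneous_X ℂ 1)
  rwa [PC3.sub2_id] at this

/-- Multiples: a homothety multiplies a form of positive degree by any constant. -/
theorem Tp.C_mul (h : Tp d W G) (hd : 1 ≤ d) (hG : G.IsHomogeneous d) (c : ℂ) :
    Tp d W (C c * G) := by
  obtain ⟨e, rfl⟩ := IsAlgClosed.exists_pow_nat_eq c (show 0 < d from hd)
  rw [map_pow, ← sub2_scale e hG]
  exact h.sub ((isHomogeneous_X ℂ 0).C_mul e) ((isHomogeneous_X ℂ 1).C_mul e)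

end Lim

end Pool.Agent.MP_05b4bd_ag.CR
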