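import Pool.Agent.MP_05b4bd_ag.cr.Bas

/-! Coefficients of binary forms and the recurrences. -/

namespace Pool.Agent.MP_05b4bd_ag.CR

open MvPolynomial HC

variable {A : Type} [CommRing A]

/-- The form of degree `d` with coefficient `g i` at `x ^ i * y ^ (d - i)`. -/
noncomputable def hs (d : ℕ) (g : ℕ → A) : R2 A :=
  ∑ i ∈ Finset.range (d + 1), C (g i) * X 0 ^ i * X 1 ^ (d - i)

theorem co_sum {I : Type} (s : Finset I) (p : I → R2 A) (i j : ℕ) :
    HC.co i j (∑ k ∈ s, p k) = ∑ k ∈ s, HC.co i j (p k) := coeff_sum _ _ _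

theorem co_hs (d : ℕ) (g : ℕ → A) (i j : ℕ) :
    HC.co i j (hs d g) = if i + j = d then g i else 0 := by
  simp only [hs, co_sum, mul_assoc, co_C_mul, co_mon]
  split_ifs with h
  · rw [Finset.sum_eq_single i]
    · rw [if_pos ⟨rfl, by omega⟩, mul_one]
    · intro k _ hk; rw [if_neg (fun h => hk h.1), mul_zero]
    · intro hb; exact absurd (Finset.mem_range.2 (by omega)) hb
  · refine Finset.sum_eq_zero fun k hk => ?_
    have := Finset.mem_range.1 hk
    rw [if_neg (by omega), mul_zero]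

theorem hs_hom (d : ℕ) (g : ℕ → A) : (hs d g).IsHomogeneous d := by
  refine IsHomogeneous.sum _ _ _ fun j hj => ?_
  have := (isHomogeneous_X_pow (R := A) (0 : Fin 2) j).mul (isHomogeneous_X_pow (1 : Fin 2) (d - j))
  rw [show j + (d - j) = d by have := Finset.mem_range.1 hj; omega] at this
  rw [mul_assoc]; exact this.C_mul _

/-- Two forms of degree `d` with the same coefficients. -/
theorem hom_ext {d : ℕ} {u v : R2 A} (hu : u.IsHomogeneous d) (hv : v.IsHomogeneous d)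
    (h : ∀ i j, i + j = d → HC.co i j u = HC.co i j v) : u = v := co_ext fun i j => by
  by_cases e : i + j = d
  · exact h i j e
  · rw [co_hom hu e, co_hom hv e]

theorem eq_hs {d : ℕ} {u : R2 A} (hu : u.IsHomogeneous d) :
    u = hs d fun i => HC.co i (d - i) u :=
  hom_ext hu (hs_hom _ _) fun i j e => by rw [co_hs, if_pos e, ← e, Nat.add_sub_cancel_left]

theorem PC_hs (d : ℕ) {g : ℂ → ℕ → ℂ} (h : ∀ i ≤ d, PS fun τ => g τ i) :
    PC fun τ => hs d (g τ) :=
  PC.sum _ fun i hi => ((h i (Nat.lt_succ_iff.1 (Finset.mem_range.1 hi))).toC.mul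
    (PC.const _)).mul (PC.const _)

theorem JF_eq {K : Type} [Field K] (α β : K) (k : ℕ) : JF α β k =
    hs k fun i => ff α i / i.factorial * (ff β (k - i) / (k - i).factorial) := rfl

/-- Recurrence for the equations `T1` (`τ = 1`) and `T2` (`τ = 0`). -/
theorem rec1 (τ α β : A) (G : R2 A) :
    (X 0 - C τ * X 1) * pderiv 0 (pderiv 1 G) = C α * pderiv 1 G - C β * pderiv 0 G ↔
      ∀ i j : ℕ, ((j : A) + 1) * (i - α) * HC.co i (j + 1) G =
        ((i : A) + 1) * (τ * j - β) * HC.co (i + 1) j G := by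
  have e : ∀ i j : ℕ, HC.co i j ((X 0 - C τ * X 1) * pderiv 0 (pderiv 1 G) -
      (C α * pderiv 1 G - C β * pderiv 0 G)) = ((j : A) + 1) * (i - α) * HC.co i (j + 1) G -
        ((i : A) + 1) * (τ * j - β) * HC.co (i + 1) j G := fun i j => by
    rw [sub_mul, mul_assoc, co_sub, co_sub, co_sub, co_X0_x, co_C_mul, ← HC.pderiv_comm, co_X1_y,
      co_C_mul, co_C_mul, co_x, co_y]
    ring
  rw [← sub_eq_zero]
  exact ⟨fun h i j => sub_eq_zero.1 (by rw [← e, h, co_zero]),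
    fun h => co_ext fun i j => by rw [e, h, sub_self, co_zero]⟩

/-- Recurrence for the equations `T5` (`τ = 4`) and `T4` (`τ = 0`). -/
theorem rec5 (τ μ : A) (G : R2 A) :
    X 0 * (pderiv 0 (pderiv 0 G) - C τ * pderiv 1 (pderiv 1 G)) = C μ * pderiv 0 G ↔
      (∀ j, μ * HC.co 1 j G = 0) ∧ ∀ i j : ℕ, ((i : A) + 2) * (i + 1 - μ) * HC.co (i + 2) j G =
        τ * ((j : A) + 2) * (j + 1) * HC.co i (j + 2) G := by
  have e0 : ∀ j : ℕ, HC.co 0 j (X 0 * (pderiv 0 (pderiv 0 G) - C τ * pderiv 1 (pderiv 1 G)) -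
      C μ * pderiv 0 G) = -(μ * HC.co 1 j G) := fun j => by
    rw [co_sub, co_X0', co_C_mul, co_x]; simp
  have e : ∀ i j : ℕ, HC.co (i + 1) j (X 0 * (pderiv 0 (pderiv 0 G) -
      C τ * pderiv 1 (pderiv 1 G)) - C μ * pderiv 0 G) = ((i : A) + 2) * (i + 1 - μ) *
        HC.co (i + 2) j G - τ * ((j : A) + 2) * (j + 1) * HC.co i (j + 2) G := fun i j => by
    rw [co_sub, co_X0, co_sub, co_C_mul, co_C_mul, co_x, co_x, co_y, co_y]
    push_cast; ring
  rw [← sub_eq_zero]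
  refine ⟨fun h => ⟨fun j => neg_eq_zero.1 (by rw [← e0, h, co_zero]),
    fun i j => sub_eq_zero.1 (by rw [← e, h, co_zero])⟩, fun h => co_ext fun i j => ?_⟩
  rcases i with _ | i
  · rw [e0, h.1, neg_zero, co_zero]
  · rw [e, h.2, sub_self, co_zero]

/-- Recurrence for the equation `T3` (`τ = 0`) and its perturbation. -/
theorem rec3 (τ β : A) (G : R2 A) :
    X 0 * (pderiv 1 (pderiv 1 G) + C τ * pderiv 0 (pderiv 1 G)) + C β * pderiv 0 G = 0 ↔
      (∀ j, β * HC.co 1 j G = 0) ∧ ∀ i j : ℕ, ((j : A) + 2) * (j + 1) * HC.co i (j + 2) G +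
        τ * ((i : A) + 1) * (j + 1) * HC.co (i + 1) (j + 1) G +
        β * (i + 2) * HC.co (i + 2) j G = 0 := by
  have e0 : ∀ j : ℕ, HC.co 0 j (X 0 * (pderiv 1 (pderiv 1 G) + C τ * pderiv 0 (pderiv 1 G)) +
      C β * pderiv 0 G) = β * HC.co 1 j G := fun j => by
    rw [co_add, co_X0', co_C_mul, co_x]; simp
  have e : ∀ i j : ℕ, HC.co (i + 1) j (X 0 * (pderiv 1 (pderiv 1 G) +
      C τ * pderiv 0 (pderiv 1 G)) + C β * pderiv 0 G) =
      ((j : A) + 2) * (j + 1) * HC.co i (j + 2) G +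
        τ * ((i : A) + 1) * (j + 1) * HC.co (i + 1) (j + 1) G +
        β * (i + 2) * HC.co (i + 2) j G := fun i j => by
    rw [co_add, co_X0, co_add, co_C_mul, co_C_mul, co_x, co_x, co_y, co_y, co_y]
    push_cast; ring
  refine ⟨fun h => ⟨fun j => by rw [← e0, h, co_zero], fun i j => by rw [← e, h, co_zero]⟩,
    fun h => co_ext fun i j => ?_⟩
  rcases i with _ | i
  · rw [e0, h.1, co_zero]
  · rw [e, h.2, co_zero]

end Pool.Agent.MP_05b4bd_ag.CR
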