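import Pool.Agent.MP_05b4bd_ag.cr.Bas2

/-! The second condition on the top form passes to the reduction. -/

namespace Pool.Agent.MP_05b4bd_ag.CR

open MvPolynomial HC
open PC3 (sub2 sub2_X0 sub2_X1 sub2_C sub2_d sub2_sub2)

namespace Cg

/-- A weighted form killed by one of the operators. -/
def Ok {A : Type} [CommRing A] (d : ℕ) (H : R2 A) : Prop :=
  WH d H ∧ ∃ c1 c2 c3 c4 : A, (c1, c2, c3, c4) ≠ 0 ∧ op4 c1 c2 c3 c4 H = 0

section One
variable {K : Type} [Field K] {d : ℕ} {H a b q : R2 K}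

theorem shift (h : OpStmt) (l : K) (o : Ok d H) : Ok d (sub2 (X 0) (X 1 + C l * X 0 ^ 2) H) := by
  obtain ⟨w, c1, c2, c3, c4, hc, e⟩ := o
  obtain ⟨h1, -, h3, -⟩ := h K d H c1 c2 c3 c4 1 1 l
  refine ⟨(h3 w).1, _, _, _, _, fun z => hc ?_, by rw [h1, e, map_zero]⟩
  simp only [Prod.mk_eq_zero] at z ⊢
  obtain ⟨z1, z2, z3, z4⟩ := z
  exact ⟨z1, by linear_combination z2 + 2 * l * z1, by linear_combination z3 + 4 * l * z1,
    by linear_combination z4 + 2 * l * z3 + 4 * l ^ 2 * z1⟩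

theorem scale (h : OpStmt) {s t : K} (hs : s ≠ 0) (ht : t ≠ 0) (o : Ok d H) :
    Ok d (sub2 (C s * X 0) (C t * X 1) H) := by
  obtain ⟨w, c1, c2, c3, c4, hc, e⟩ := o
  obtain ⟨-, h2, h3, -⟩ := h K d H c1 c2 c3 c4 s t 0
  refine ⟨(h3 w).2, _, _, _, _, fun z => hc ?_, by rw [h2, e, map_zero, mul_zero]⟩
  simpa [hs, ht] using z

theorem kill0 (h : OpStmt) (w : WH d H) : Ok d (sub2 (C 0 * X 0) (C 1 * X 1) H) :=
  ⟨((h K d H 0 0 0 0 0 1 0).2.2.1 w).2, 1, 0, 0, 0, by simp, by simp [op4, sub2_d]⟩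

theorem kill1 (h : OpStmt) (w : WH d H) : Ok d (sub2 (C 1 * X 0) (C 0 * X 1) H) :=
  ⟨((h K d H 0 0 0 0 1 0 0).2.2.1 w).2, 0, 1, 0, 0, by simp, by simp [op4, sub2_d]⟩

theorem inj [CharZero K] (hb : br a q ≠ 0) (n : ℕ) :
    ∀ H : R2 K, DL n H → sub2 a q H = 0 → H = 0 := by
  induction n with
  | zero => exact fun H h _ => h.eq_zero
  | succ n ih =>
    intro H h e
    have e0 := sub2_d (s := a) (t := q) 0 H
    have e1 := sub2_d (s := a) (t := q) 1 H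
    rw [e, map_zero] at e0 e1
    have hx : pderiv 0 H = 0 := ih _ (h.pderiv 0) ((mul_eq_zero.1 (by
      rw [br]; linear_combination pderiv 0 q * e1 - pderiv 1 q * e0)).resolve_right hb)
    have hy : pderiv 1 H = 0 := ih _ (h.pderiv 1) ((mul_eq_zero.1 (by
      rw [br]; linear_combination pderiv 1 a * e0 - pderiv 0 a * e1)).resolve_right hb)
    rcases n with _ | n
    · rw [PC3.DL1_eq h, sub2_C] at e
      rw [PC3.DL1_eq h, e]
    · refine ih H (h.pred ?_) e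
      have k := euler (hc_hom (n + 1) H)
      rw [← hc_pderiv, ← hc_pderiv, hx, hy, hc, map_zero, mul_zero, mul_zero, add_zero] at k
      exact (mul_eq_zero.1 k.symm).resolve_left (Nat.cast_ne_zero.2 n.succ_ne_zero)

theorem br_ne [CharZero K] {y z : K} (hb : br a b ≠ 0) (hz : y ≠ 0 ∨ z ≠ 0) :
    br a (C y * (a * b) + C z * b ^ 2) ≠ 0 := by
  have e : br a (C y * (a * b) + C z * b ^ 2) = (C y * a + C (2 * z) * b) * br a b := by
    simp only [br, map_add, pderiv_mul, pderiv_C, pderiv_pow, map_mul, map_ofNat]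
    push_cast; ring
  rw [e]
  refine mul_ne_zero (fun k => ?_) hb
  have e1 : C (2 * z) * br a b = br a (C y * a + C (2 * z) * b) := by
    simp only [br, map_add, pderiv_mul, pderiv_C]; ring
  have e2 : C y * br a b = br (C y * a + C (2 * z) * b) b := by
    simp only [br, map_add, pderiv_mul, pderiv_C]; ring
  rw [k] at e1 e2
  simp only [br.eq_1 a 0, br.eq_1 0 b, map_zero, mul_zero, zero_mul, sub_zero] at e1 e2
  have k1 := C_eq_zero.1 ((mul_eq_zero.1 e1).resolve_right hb)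
  have k2 := C_eq_zero.1 ((mul_eq_zero.1 e2).resolve_right hb)
  exact hz.elim (fun t => t k2) fun t => mul_ne_zero two_ne_zero t k1

theorem quad {p r s t : K} (h0 : C p * a + C r * b = X 0) (h1 : C s * a + C t * b = X 1)
    (hq : q.IsHomogeneous 2) : ∃ x y z, q = C x * a ^ 2 + (C y * (a * b) + C z * b ^ 2) := by
  have k := hom2_eq (sub2_hom (lf_hom p r) (lf_hom s t) hq)
  have e := congrArg (sub2 a b) k
  rw [sub2_sub2] at e
  simp only [HC.lf, map_add, map_mul, map_pow, sub2_C, sub2_X0, sub2_X1, h0, h1,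
    PC3.sub2_id] at e
  exact ⟨_, _, _, e.trans (add_assoc _ _ _)⟩

end One

section Place
variable {V K κ : Type} [CommRing V] [Field K] [Field κ] [CharZero κ] {ι : V →+* K} {ρ : V →+* κ}
  {d : ℕ} {a b q H : R2 K} {a' b' q' G : R2 κ}

theorem core (P : Pl ι ρ) (ha : Rd ι ρ a a') (hq : Rd ι ρ q q') (h1 : a.IsHomogeneous 1)
    (h2 : q.IsHomogeneous 2) (hb : br a' q' ≠ 0) (o : Ok d H) (hG : Rd ι ρ (sub2 a q H) G) :
    G4 d G := by
  obtain ⟨H', hH⟩ : ∃ H', Rd ι ρ H H' := by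
    by_cases e : H = 0
    · exact ⟨0, e ▸ Rd.zero⟩
    obtain ⟨r, v, hr, hv, k⟩ := P.prim e
    rcases P.tot' r⁻¹ with ⟨y, hy⟩ | ⟨-, hy⟩
    · have := hy.toC.mul k
      rw [← mul_assoc, ← map_mul, inv_mul_cancel₀ hr, map_one, one_mul] at this
      exact ⟨_, this⟩
    · have k1 := hy.toC.mul hG
      have k2 := ha.sub2 hq k
      rw [inv_inv, map_zero, zero_mul] at k1
      rw [map_mul, sub2_C] at k2
      obtain ⟨n, hn⟩ := exists_DL v
      exact absurd (inj hb n v hn (k2.uniq P k1)) hv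
  obtain ⟨w, c1, c2, c3, c4, hc, e⟩ := o
  obtain ⟨j, z, -, hz, k⟩ := P.prim_fun (c := ![c1, c2, c3, c4]) fun t => hc
    (Prod.ext (congrFun t 0) (Prod.ext (congrFun t 1) (Prod.ext (congrFun t 2) (congrFun t 3))))
  refine ⟨a', q', H', z 0, z 1, z 2, z 3, ha.hom P h1, hq.hom P h2, hH.whom P w, fun t => ?_,
    hG.uniq P (ha.sub2 hq hH), ?_⟩
  · simp only [Prod.mk_eq_zero] at t
    obtain ⟨t0, t1, t2, t3⟩ := t
    fin_cases j <;> simp_all
  · generalize (![c1, c2, c3, c4] j)⁻¹ = s at k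
    have m : Rd ι ρ (op4 (s * c1) (s * c2) (s * c3) (s * c4) H) (op4 (z 0) (z 1) (z 2) (z 3) H') :=
      ((((k 0).toC.mul ((hH.pderiv 0).pderiv 0)).add ((k 1).toC.mul (hH.pderiv 1))).add
        (((k 2).toC.mul (Rd.X 0)).mul ((hH.pderiv 1).pderiv 0))).add
        (((k 3).toC.mul ((Rd.X 0).pow 2)).mul ((hH.pderiv 1).pderiv 1))
    have m' : op4 (s * c1) (s * c2) (s * c3) (s * c4) H = C s * op4 c1 c2 c3 c4 H := by
      simp only [op4, map_mul]; ring
    rw [m', e, mul_zero] at m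
    exact m.uniq P Rd.zero

theorem core1 (h : OpStmt) (P : Pl ι ρ) (ha : Rd ι ρ a a') (hb : Rd ι ρ b b')
    (h1 : a.IsHomogeneous 1) (h2 : b.IsHomogeneous 1) (hab : br a' b' ≠ 0) {y z : K}
    (hyz : ![y, z] ≠ 0) (o : Ok d H) (hG : Rd ι ρ (sub2 a (C y * (a * b) + C z * b ^ 2) H) G) :
    G4 d G := by
  obtain ⟨j, w, hj, hw, k⟩ := P.prim_fun hyz
  generalize ![y, z] j = t at hj k
  refine core P ha (((k 0).toC.mul (ha.mul hb)).add ((k 1).toC.mul (hb.pow 2))) h1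
    (((h1.mul h2).C_mul _).add ((h2.pow 2).C_mul _)) (br_ne hab ?_) (scale h one_ne_zero hj o) ?_
  · fin_cases j
    exacts [.inl (ne_of_eq_of_ne hw one_ne_zero), .inr (ne_of_eq_of_ne hw one_ne_zero)]
  · have e : (C t * C t⁻¹ : R2 K) = 1 := by rw [← map_mul, mul_inv_cancel₀ hj, map_one]
    rw [sub2_sub2]
    convert hG using 3
    · simp [sub2_X0]
    · simp only [map_mul, sub2_C, sub2_X1, Matrix.cons_val_zero, Matrix.cons_val_one]
      linear_combination (C y * (a * b) + C z * b ^ 2) * e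

theorem core2 (h : OpStmt) (P : Pl ι ρ) (ha : Rd ι ρ a a') (hb : Rd ι ρ b b')
    (h1 : a.IsHomogeneous 1) (h2 : b.IsHomogeneous 1) (hab : br a' b' ≠ 0) {p r s t : K}
    (e0 : C p * a + C r * b = X 0) (e1 : C s * a + C t * b = X 1) (hq : q.IsHomogeneous 2)
    (o : Ok d H) (hG : Rd ι ρ (sub2 a q H) G) : G4 d G := by
  obtain ⟨x, y, z, rfl⟩ := quad e0 e1 hq
  have o1 := shift h x o
  have k : Rd ι ρ (sub2 a (C y * (a * b) + C z * b ^ 2)
      (sub2 (X 0) (X 1 + C x * X 0 ^ 2) H)) G := by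
    rw [sub2_sub2]
    simp only [map_add, map_mul, map_pow, sub2_C, sub2_X0, sub2_X1]
    rwa [add_comm]
  by_cases hyz : ![y, z] = 0
  · refine core1 h P ha hb h1 h2 hab (y := 0) (z := 1)
      (fun t => one_ne_zero (congrFun t 1)) (kill1 h o1.1) ?_
    rw [show y = 0 from congrFun hyz 0, show z = 0 from congrFun hyz 1] at k
    rw [sub2_sub2]
    simpa [sub2_X0, sub2_C] using k
  · exact core1 h P ha hb h1 h2 hab hyz o1 k

theorem core3 (h : OpStmt) (P : Pl ι ρ) (h1 : a.IsHomogeneous 1) (ha : a ≠ 0)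
    (hq : q.IsHomogeneous 2) (o : Ok d H) (hG : Rd ι ρ (sub2 a q H) G) : G4 d G := by
  obtain ⟨p, r, rfl⟩ : ∃ p r, a = HC.lf p r := ⟨_, _, hom1_eq h1⟩
  obtain ⟨j, w, hj, hw, k⟩ := P.prim_fun (c := ![p, r]) fun t => ha (by
    rw [show p = 0 from congrFun t 0, show r = 0 from congrFun t 1]; simp [HC.lf])
  have hs : ![p, r] j = p ∧ w 0 = 1 ∨ ![p, r] j = r ∧ w 1 = 1 := by
    fin_cases j
    exacts [.inl ⟨rfl, hw⟩, .inr ⟨rfl, hw⟩]
  generalize ![p, r] j = s at hj k hs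
  have m : Rd ι ρ (HC.lf (s⁻¹ * p) (s⁻¹ * r)) (HC.lf (w 0) (w 1)) :=
    ((k 0).toC.mul (Rd.X 0)).add ((k 1).toC.mul (Rd.X 1))
  have o1 := scale h hj one_ne_zero o
  have hG1 : Rd ι ρ (sub2 (HC.lf (s⁻¹ * p) (s⁻¹ * r)) q
      (sub2 (C s * X 0) (C 1 * X 1) H)) G := by
    have e : (C s * C s⁻¹ : R2 K) = 1 := by rw [← map_mul, mul_inv_cancel₀ hj, map_one]
    rw [sub2_sub2]
    convert hG using 3
    · simp only [map_mul, sub2_C, sub2_X0, HC.lf]
      linear_combination (C p * X 0 + C r * X 1) * e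
    · simp [sub2_X1]
  rcases hs with ⟨rfl, e⟩ | ⟨rfl, e⟩
  · refine core2 h P m (Rd.X 1) (lf_hom _ _) (isHomogeneous_X K 1) (by simp [br, lf_x, e])
      (p := 1) (r := -(s⁻¹ * r)) (s := 0) (t := 1) ?_ (by simp) hq o1 hG1
    rw [inv_mul_cancel₀ hj]; simp [HC.lf]
  · refine core2 h P m (Rd.X 0) (lf_hom _ _) (isHomogeneous_X K 0) (by simp [br, lf_y, e])
      (p := 0) (r := 1) (s := 1) (t := -(s⁻¹ * p)) (by simp) ?_ hq o1 hG1
    rw [inv_mul_cancel₀ hj]; simp [HC.lf]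

end Place

end Cg

theorem cgS (h : OpStmt) : CgStmt := by
  intro V K κ _ _ _ _ _ ι ρ d F G P _ hG _ ⟨a, q, H, c1, c2, c3, c4, h1, h2, w, hc, e, e'⟩
  subst e
  by_cases ha : a = 0
  · refine Cg.core3 h P (isHomogeneous_X K 0) (X_ne_zero 0) h2 (Cg.kill0 h w) ?_
    rw [sub2_sub2]
    simpa [ha, sub2_X1, sub2_C] using hG
  · exact Cg.core3 h P h1 ha h2 ⟨w, c1, c2, c3, c4, hc, e'⟩ hG

end Pool.Agent.MP_05b4bd_ag.CR
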