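import Pool.Agent.MP_05b4bd_ag.cr.Bas2

/-! The first and the third condition on the top form pass to the reduction. -/

namespace Pool.Agent.MP_05b4bd_ag.CR

open MvPolynomial HC

theorem clS : ClStmt := by
  intro V K κ _ _ _ ι ρ F G P h
  have h0 := h.pderiv 0
  have h1 := h.pderiv 1
  have h00 := h0.pderiv 0
  have h01 := h1.pderiv 0
  have h11 := h1.pderiv 1
  constructor
  · rintro ⟨l, hl, hh, he⟩
    obtain ⟨r, v, -, hv, hr⟩ := P.prim_fam hl
    refine ⟨v, hv, fun i => (hr i).hom P ((hh i).C_mul r), ?_⟩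
    have h2 := (((hr 0).mul h00).add ((hr 1).mul h01)).add ((hr 2).mul h11)
    have h3 : C r * l 0 * pderiv 0 (pderiv 0 F) + C r * l 1 * pderiv 0 (pderiv 1 F) +
        C r * l 2 * pderiv 1 (pderiv 1 F) = 0 := by
      linear_combination C r * he
    rw [h3] at h2
    exact h2.uniq P Rd.zero
  · rintro m ⟨l, p, q, r, hl, hh, hn, he⟩
    obtain ⟨s, v, -, hv, hs⟩ := P.prim hl
    have hc : ![p, q, r] ≠ 0 := fun e =>
      hn (Prod.ext (congrFun e 0) (Prod.ext (congrFun e 1) (congrFun e 2)))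
    obtain ⟨j, z, -, hz, hr⟩ := P.prim_fun hc
    have a0 : Rd ι ρ (C ((![p, q, r] j)⁻¹ * p)) (C (z 0)) := (hr 0).toC
    have a1 : Rd ι ρ (C ((![p, q, r] j)⁻¹ * q)) (C (z 1)) := (hr 1).toC
    have a2 : Rd ι ρ (C ((![p, q, r] j)⁻¹ * r)) (C (z 2)) := (hr 2).toC
    have two : Rd ι ρ 2 2 := by simpa using Rd.nat (ι := ι) (ρ := ρ) 2
    refine ⟨v, z 0, z 1, z 2, hv, hs.hom P (hh.C_mul s), fun e => ?_, ?_⟩
    · have e0 : z 0 = 0 := congrArg Prod.fst e
      have e1 : z 1 = 0 := congrArg (fun x => x.2.1) e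
      have e2 : z 2 = 0 := congrArg (fun x => x.2.2) e
      have : z j = 0 := by fin_cases j <;> assumption
      exact one_ne_zero (hz.symm.trans this)
    · have b1 := hs.mul (((a0.mul h00).add ((two.mul a1).mul h01)).add (a2.mul h11))
      have b2 := (two.mul (Rd.nat m)).mul
        (((hs.pderiv 0).mul ((a0.mul h0).add (a1.mul h1))).add
          ((hs.pderiv 1).mul ((a1.mul h0).add (a2.mul h1))))
      refine b1.uniq P ?_
      refine Eq.mpr (congrArg (fun u => Rd ι ρ u _) ?_) b2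
      simp only [pderiv_C_mul, map_mul]
      linear_combination C s * C (![p, q, r] j)⁻¹ * he

end Pool.Agent.MP_05b4bd_ag.CR
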