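import Pool.Agent.MP_05b4bd_ag.ex.Defs

namespace Pool.Agent.MP_05b4bd_ag

open MvPolynomial

variable {k : Type} [CommRing k]

/-- The second derivatives of `F` satisfy a relation whose coefficients are linear forms. -/
def Syz (F : MvPolynomial (Fin 2) k) : Prop := ∃ l : Fin 3 → MvPolynomial (Fin 2) k, l ≠ 0 ∧
  (∀ i, (l i).IsHomogeneous 1) ∧
  l 0 * pderiv 0 (pderiv 0 F) + l 1 * pderiv 0 (pderiv 1 F) + l 2 * pderiv 1 (pderiv 1 F) = 0

/-- `F = ∑ h j a ^ (d - 2 j) q ^ j` with a linear form `a`, a quadratic form `q` and a two-term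
recurrence for the coefficients. -/
def Geg (d : ℕ) (F : MvPolynomial (Fin 2) k) : Prop :=
  ∃ (a q : MvPolynomial (Fin 2) k) (h : ℕ → k) (r s t : k), a.IsHomogeneous 1 ∧
    q.IsHomogeneous 2 ∧ (r, s, t) ≠ 0 ∧
    F = ∑ j ∈ Finset.range (d / 2 + 1), C (h j) * a ^ (d - 2 * j) * q ^ j ∧
    ∀ j < d / 2, r * ((d : k) - 2 * j) * ((d : k) - 2 * j - 1) * h j =
      ((j : k) + 1) * (s + t * j) * h (j + 1)

/-- An Euler-Poisson-Darboux equation `l Δ F = 2 m ⟨∇ l, ∇ F⟩` for a linear form `l` and a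
symmetric tensor `(p, q, r)`. -/
def Epd (m : ℕ) (F : MvPolynomial (Fin 2) k) : Prop :=
  ∃ (l : MvPolynomial (Fin 2) k) (p q r : k), l ≠ 0 ∧ l.IsHomogeneous 1 ∧ (p, q, r) ≠ 0 ∧
    l * (C p * pderiv 0 (pderiv 0 F) + 2 * C q * pderiv 0 (pderiv 1 F) +
      C r * pderiv 1 (pderiv 1 F)) =
    2 * (m : MvPolynomial (Fin 2) k) * (pderiv 0 l * (C p * pderiv 0 F + C q * pderiv 1 F) +
      pderiv 1 l * (C q * pderiv 0 F + C r * pderiv 1 F))

end Pool.Agent.MP_05b4bd_ag
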