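import Pool.Agent.MP_05b4bd_ag.cr.Bas2

/-! Row DOM: the residues do not dominate. -/

namespace Pool.Agent.MP_05b4bd_ag.CR

open MvPolynomial HC
open ES.U (TM)
open PC3 (Fm fm d1 wg dv rr DF sub2 mapF)

namespace Dom

variable {κ : Type} [Field κ]

/-- A polynomial does not divide a non-zero multiple of its derivative. -/
theorem eq_zero_of_mul {g u : R2 κ} {l : κ} {i : Fin 2} (hg : g ≠ 0)
    (h : g * u = C l * pderiv i g) : u = 0 := by
  by_contra hu
  have h1 : DL g.totalDegree (g * u) := h ▸ ((DL_iff.2 le_rfl).pderiv i).C_mul l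
  have h2 := totalDegree_mul_of_isDomain hg hu
  rcases hn : g.totalDegree with _ | n
  · exact mul_ne_zero hg hu (hn ▸ h1).eq_zero
  · rw [hn] at h1 h2
    have := DL_iff.1 h1
    omega

theorem d1_ne {d : ℕ} {f : R2 κ} (hd : 3 ≤ d) (hf : TM d f) : d1 f ≠ 0 := by
  obtain ⟨e, rfl⟩ : ∃ e, d = e + 2 := ⟨d - 2, by omega⟩
  intro h0
  have h1 : pderiv 0 f = 0 := neg_eq_zero.1 (congrArg Prod.snd h0)
  have h2 := hf.ci
  rw [← hc_pderiv, ← hc_pderiv] at h2
  exact h2.ne_zero (hc_hom _ _) (by rw [h1]; exact map_zero _)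

theorem key {d : ℕ} {f g : R2 κ} {η : Fm κ} {l c : κ} (hd : 3 ≤ d) (hf : TM d f) (hg : g ≠ 0)
    (hη : DF 2 η) (h0 : dv η = 0) (h : fm (C l) g - g • η = (C c : R2 κ) • d1 f) : η = 0 := by
  by_cases hc0 : c = 0
  · rw [hc0, map_zero, zero_smul, sub_eq_zero] at h
    have h1 : g * η.1 = C l * pderiv 1 g := (congrArg Prod.fst h).symm
    have h2 : g * η.2 = C (-l) * pderiv 0 g := by
      rw [map_neg, neg_mul]
      exact (congrArg Prod.snd h).symm
    exact Prod.ext (eq_zero_of_mul hg h1) (eq_zero_of_mul hg h2)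
  obtain ⟨e, rfl⟩ : ∃ e, d = e + 2 := ⟨d - 2, by omega⟩
  have h1 := congrArg dv h
  rw [PC3.fm_eq, PC3.dv_sub, PC3.dv_C_smul, PC3.dv_C_smul, PC3.dv_smul, PC3.dv_d1, PC3.dv_d1,
    h0] at h1
  have h2 := congrArg (fun w => wg w η) h
  simp only [PC3.fm_eq, PC3.wg_sub, PC3.wg_smul, PC3.wg_self] at h2
  have h3 : C c * wg (d1 f) η = 0 := by linear_combination -h2 - C l * h1
  have h4 := (mul_eq_zero.1 h3).resolve_left (by simpa using hc0)
  have h5 := hf.ci
  rw [← hc_pderiv, ← hc_pderiv] at h5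
  have h6 := kos_zero (hf.dl.pderiv 0) (hf.dl.pderiv 1) h5 (by omega : 2 ≤ e + 1) hη.1 hη.2
    (by simp only [wg, d1] at h4; linear_combination h4)
  exact Prod.ext h6.1 h6.2

end Dom

theorem domS : DomStmt := by
  intro V K κ _ _ _ _ ι ρ d η f q g l P hd hf hq hη hr hw
  have hf0 := Dom.d1_ne hd hf
  have hw0 : fm (C l * q) g - g • η ≠ 0 := fun e => hf0 ((e ▸ hw).uniq P RdF.zero)
  have hg : g ≠ 0 := by
    rintro rfl
    exact hw0 (by simp [fm])
  have hu : ![C l, η.1, η.2] ≠ 0 := fun e => by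
    have e0 : (C l : R2 K) = 0 := congrFun e 0
    have e1 : η = 0 := Prod.ext (congrFun e 1) (congrFun e 2)
    exact hw0 (by simp [fm, e0, e1])
  obtain ⟨r, v, hr0, hv, h⟩ := P.prim_fam hu
  obtain ⟨s, g', hs0, hg', k⟩ := P.prim hg
  have a0 : Rs ι ρ (r * l) (coeff 0 (v 0)) := by simpa using (h 0).coeff 0
  have a1 : v 0 = C (coeff 0 (v 0)) := (h 0).uniq P (by simpa using a0.toC)
  have a2 : RdF ι ρ ((C r : R2 K) • η) (v 1, v 2) := ⟨h 1, h 2⟩
  have a3 : RdF ι ρ ((C (r * s) : R2 K) • (fm (C l * q) g - g • η))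
      (fm (C (coeff 0 (v 0))) g' - g' • (v 1, v 2)) := by
    have b := (RdF.fm (a0.toC.mul hq) k).sub (RdF.smul k a2)
    rw [mul_one] at b
    convert b using 1
    refine Prod.ext ?_ ?_ <;> simp [fm] <;> ring
  have hrs : r * s ≠ 0 := mul_ne_zero hr0 hs0
  obtain ⟨c, hc⟩ : ∃ c, Rs ι ρ (r * s) c := by
    refine (P.tot' (r * s)).resolve_right fun b => hf0 ?_
    have b1 := RdF.smul b.2.toC a3
    rw [smul_smul, ← map_mul, inv_mul_cancel₀ hrs, map_one, one_smul, map_zero, zero_smul] at b1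
    exact hw.uniq P b1
  have a4 := a3.uniq P (RdF.smul hc.toC hw)
  have a5 : dv (v 1, v 2) = 0 := by
    have b := RdF.rr hq a2
    have b1 : rr q ((C r : R2 K) • η) = 0 := by
      rw [rr] at hr ⊢
      rw [PC3.dv_C_smul, PC3.wg_smul']
      linear_combination C r * hr
    rw [b1] at b
    have b2 := b.uniq P Rd.zero
    rwa [rr, one_mul, ← C_1, PC3.d1_C, PC3.wg_zero, sub_zero] at b2
  have a6 : DF 2 (v 1, v 2) := ⟨a2.1.dl P (hη.C_smul r).1, a2.2.dl P (hη.C_smul r).2⟩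
  have a7 := Dom.key hd hf hg' a6 a5 a4
  have a8 : coeff 0 (v 0) ≠ 0 := fun e => hv (funext fun i => by
    fin_cases i
    · exact a1.trans (by rw [e, map_zero]; rfl)
    · exact congrArg Prod.fst a7
    · exact congrArg Prod.snd a7)
  have a9 := a0.ne_zero P a8
  refine ⟨right_ne_zero_of_mul a9, ?_⟩
  have b := RdF.smul (a0.inv P a8).toC a2
  rwa [a7, smul_zero, smul_smul, ← map_mul, mul_inv_rev, inv_mul_cancel_right₀ hr0] at b

end Pool.Agent.MP_05b4bd_ag.CR
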