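import Pool.Agent.MP_05b4bd_ag.cr.Bas2
import Mathlib.RingTheory.Nullstellensatz

/-! Descent of the three conditions to the complex numbers. -/

namespace Pool.Agent.MP_05b4bd_ag.CR

open MvPolynomial HC

namespace Dsc

variable {K : Type} [Field K]

theorem nul0 {σ : Type} [Finite σ] (j : ℂ →+* K) (x : σ → K) : ∃ y : σ → ℂ,
    ∀ u : MvPolynomial σ ℂ, eval₂Hom j x u = 0 → eval y u = 0 := by
  obtain ⟨M, hM, hle⟩ := Ideal.exists_le_maximal (RingHom.ker (eval₂Hom j x)) (RingHom.ker_ne_top _)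
  obtain ⟨y, rfl⟩ := isMaximal_iff_eq_vanishingIdeal_singleton.1 hM
  exact ⟨y, fun u h => (mem_vanishingIdeal_singleton_iff y _).1 (hle h)⟩

theorem nul {σ : Type} [Finite σ] (j : ℂ →+* K) (x : σ → K) : ∃ y : σ → ℂ,
    (∀ s, y s = 0 → x s = 0) ∧
    (∀ u u' : MvPolynomial σ ℂ, eval₂Hom j x u = eval₂Hom j x u' → eval y u = eval y u') ∧
    ∀ G G' : R2 (MvPolynomial σ ℂ), map (eval₂Hom j x) G = map (eval₂Hom j x) G' →
      map (eval y) G = map (eval y) G' := by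
  obtain ⟨y, hy⟩ := nul0 j (Sum.elim x fun s => (x s)⁻¹)
  have h2 : ∀ u u' : MvPolynomial σ ℂ, eval₂Hom j x u = eval₂Hom j x u' →
      eval (y ∘ Sum.inl) u = eval (y ∘ Sum.inl) u' := fun u u' h => by
    have := hy (rename Sum.inl (u - u')) (by
      rw [coe_eval₂Hom, eval₂_rename, Sum.elim_comp_inl, ← coe_eval₂Hom, map_sub, h, sub_self])
    rwa [eval_rename, map_sub, sub_eq_zero] at this
  refine ⟨y ∘ Sum.inl, fun s hs => ?_, h2, fun G G' h => ?_⟩
  · by_contra hx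
    have := hy (X (Sum.inl s) * X (Sum.inr s) - 1) (by simp [hx])
    rw [Function.comp_apply] at hs
    simp [hs] at this
  · ext m
    have h1 := congrArg (coeff m) h
    rw [coeff_map, coeff_map] at h1
    rw [coeff_map, coeff_map]
    exact h2 _ _ h1

theorem mc1 {σ : Type} (j : ℂ →+* K) (x : σ → K) (f : Poly) :
    map (eval₂Hom j x) (map (C : ℂ →+* MvPolynomial σ ℂ) f) = map j f := by
  rw [map_map]
  congr 2
  ext z
  simp

theorem mc2 {σ : Type} (y : σ → ℂ) (f : Poly) :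
    map (eval y) (map (C : ℂ →+* MvPolynomial σ ℂ) f) = f := by
  rw [map_map]
  have : (eval y).comp (C : ℂ →+* MvPolynomial σ ℂ) = RingHom.id ℂ := by
    ext z
    simp
  rw [this, map_id]

theorem mlf {A B : Type} [CommRing A] [CommRing B] (φ : A →+* B) (a b : A) :
    map φ (HC.lf a b) = HC.lf (φ a) (φ b) := by simp [HC.lf]

theorem lf0 {A : Type} [CommRing A] {a b : A} (h : HC.lf a b = 0) : a = 0 ∧ b = 0 := by
  have h1 := lf_x a b
  have h2 := lf_y a b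
  rw [h, map_zero] at h1 h2
  exact ⟨C_eq_zero.1 h1.symm, C_eq_zero.1 h2.symm⟩

theorem syz (j : ℂ →+* K) (F : Poly) (h : Syz (map j F)) : Syz F := by
  obtain ⟨l, l0, lh, e⟩ := h
  obtain ⟨y, hy, -, h3⟩ := nul j
    (Sum.elim (fun i => HC.co 1 0 (l i)) (fun i => HC.co 0 1 (l i)) : Fin 3 ⊕ Fin 3 → K)
  refine ⟨fun i => HC.lf (y (Sum.inl i)) (y (Sum.inr i)), fun h0 => l0 ?_, fun i => lf_hom _ _, ?_⟩
  · funext i
    obtain ⟨a, b⟩ := lf0 (congrFun h0 i)
    have a' : HC.co 1 0 (l i) = 0 := hy _ a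
    have b' : HC.co 0 1 (l i) = 0 := hy _ b
    rw [hom1_eq (lh i), a', b']
    simp [HC.lf]
  · have := h3 (HC.lf (X (Sum.inl 0)) (X (Sum.inr 0)) * pderiv 0 (pderiv 0 (map C F)) +
      HC.lf (X (Sum.inl 1)) (X (Sum.inr 1)) * pderiv 0 (pderiv 1 (map C F)) +
      HC.lf (X (Sum.inl 2)) (X (Sum.inr 2)) * pderiv 1 (pderiv 1 (map C F))) 0 (by
        simp only [map_add, map_mul, ← pderiv_map, mc1, mlf, eval₂Hom_X', Sum.elim_inl,
          Sum.elim_inr, ← hom1_eq (lh _), map_zero]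
        exact e)
    simpa only [map_add, map_mul, ← pderiv_map, mc2, mlf, eval_X, map_zero] using this

theorem epd (j : ℂ →+* K) (F : Poly) (m : ℕ) (h : Epd m (map j F)) : Epd m F := by
  obtain ⟨l, p, q, r, l0, lh, h0, e⟩ := h
  obtain ⟨y, hy, -, h3⟩ := nul j (![HC.co 1 0 l, HC.co 0 1 l, p, q, r] : Fin 5 → K)
  refine ⟨HC.lf (y 0) (y 1), y 2, y 3, y 4, fun h1 => l0 ?_, lf_hom _ _, fun h1 => h0 ?_, ?_⟩
  · obtain ⟨a, b⟩ := lf0 h1
    have a' : HC.co 1 0 l = 0 := hy _ a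
    have b' : HC.co 0 1 l = 0 := hy _ b
    rw [hom1_eq lh, a', b']
    simp [HC.lf]
  · simp only [Prod.mk_eq_zero] at h1 ⊢
    exact ⟨hy _ h1.1, hy _ h1.2.1, hy _ h1.2.2⟩
  · have := h3 (HC.lf (X 0) (X 1) * (C (X 2) * pderiv 0 (pderiv 0 (map C F)) +
        2 * C (X 3) * pderiv 0 (pderiv 1 (map C F)) + C (X 4) * pderiv 1 (pderiv 1 (map C F))))
      (2 * (m : R2 (MvPolynomial (Fin 5) ℂ)) * (pderiv 0 (HC.lf (X 0) (X 1)) *
        (C (X 2) * pderiv 0 (map C F) + C (X 3) * pderiv 1 (map C F)) +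
        pderiv 1 (HC.lf (X 0) (X 1)) *
          (C (X 3) * pderiv 0 (map C F) + C (X 4) * pderiv 1 (map C F)))) (by
        have el : HC.lf (HC.co 1 0 l) (HC.co 0 1 l) = l := (hom1_eq lh).symm
        simp only [map_add, map_mul, ← pderiv_map, mc1, mlf, eval₂Hom_X', map_C, map_ofNat,
          map_natCast, Matrix.cons_val_zero, Matrix.cons_val_one, Matrix.cons_val, el]
        exact e)
    simpa only [map_add, map_mul, ← pderiv_map, mc2, mlf, eval_X, map_C, map_ofNat,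
      map_natCast] using this

theorem geg (j : ℂ →+* K) (F : Poly) (d : ℕ) (h : Geg d (map j F)) : Geg d F := by
  obtain ⟨a, q, h, r, s, t, ah, qh, h0, e, rec⟩ := h
  obtain ⟨y, hy, h2, h3⟩ := nul j (Sum.elim
    ![HC.co 1 0 a, HC.co 0 1 a, HC.co 2 0 q, HC.co 1 1 q, HC.co 0 2 q, r, s, t]
      (fun i => h i) : Fin 8 ⊕ Fin (d / 2 + 1) → K)
  let H : ℕ → MvPolynomial (Fin 8 ⊕ Fin (d / 2 + 1)) ℂ :=
    fun i => if hi : i < d / 2 + 1 then X (Sum.inr ⟨i, hi⟩) else 0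
  have hH : ∀ i < d / 2 + 1, eval₂Hom j (Sum.elim
      ![HC.co 1 0 a, HC.co 0 1 a, HC.co 2 0 q, HC.co 1 1 q, HC.co 0 2 q, r, s, t]
        (fun i => h i) : Fin 8 ⊕ Fin (d / 2 + 1) → K) (H i) = h i := fun i hi => by
    simp only [H, dif_pos hi, eval₂Hom_X', Sum.elim_inr]
  refine ⟨HC.lf (y (Sum.inl 0)) (y (Sum.inl 1)), C (y (Sum.inl 2)) * X 0 ^ 2 +
    C (y (Sum.inl 3)) * (X 0 * X 1) + C (y (Sum.inl 4)) * X 1 ^ 2, fun i => eval y (H i),
    y (Sum.inl 5), y (Sum.inl 6), y (Sum.inl 7), lf_hom _ _, ?_, fun h1 => h0 ?_, ?_,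
    fun i hi => ?_⟩
  · exact ((isHomogeneous_C_mul_X_pow _ _ _).add
      (((isHomogeneous_X _ 0).mul (isHomogeneous_X _ 1)).C_mul _)).add
      (isHomogeneous_C_mul_X_pow _ _ _)
  · simp only [Prod.mk_eq_zero] at h1 ⊢
    exact ⟨hy _ h1.1, hy _ h1.2.1, hy _ h1.2.2⟩
  · have := h3 (map C F) (∑ i ∈ Finset.range (d / 2 + 1), C (H i) *
      HC.lf (X (Sum.inl 0)) (X (Sum.inl 1)) ^ (d - 2 * i) * (C (X (Sum.inl 2)) * X 0 ^ 2 +
        C (X (Sum.inl 3)) * (X 0 * X 1) + C (X (Sum.inl 4)) * X 1 ^ 2) ^ i) (by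
        rw [mc1, e, map_sum]
        refine Finset.sum_congr rfl fun i hi => ?_
        have el : HC.lf (HC.co 1 0 a) (HC.co 0 1 a) = a := (hom1_eq ah).symm
        have eq := (hom2_eq qh).symm
        simp only [map_add, map_mul, map_pow, mlf, eval₂Hom_X', map_C, map_X,
          hH i (Finset.mem_range.1 hi), Sum.elim_inl,
          Matrix.cons_val_zero, Matrix.cons_val_one, Matrix.cons_val, el, eq])
    simpa only [map_sum, map_add, map_mul, map_pow, mc2, mlf, eval_X, map_C, map_X] using this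
  · have := h2 (X (Sum.inl 5) * (Nat.cast d - 2 * Nat.cast i) *
      (Nat.cast d - 2 * Nat.cast i - 1) * H i)
      ((Nat.cast i + 1) * (X (Sum.inl 6) + X (Sum.inl 7) * Nat.cast i) * H (i + 1)) (by
        simp only [map_add, map_mul, map_sub, map_natCast, map_ofNat, map_one, eval₂Hom_X',
          hH i (by omega), hH (i + 1) (by omega), Sum.elim_inl, Matrix.cons_val]
        exact rec i hi)
    simpa only [map_add, map_mul, map_sub, map_natCast, map_ofNat, map_one, eval_X] using this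

end Dsc

theorem dscS : DscStmt := fun _ _ j F => ⟨Dsc.syz j F, Dsc.geg j F, Dsc.epd j F⟩

end Pool.Agent.MP_05b4bd_ag.CR
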