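import Pool.Agent.MP_05b4bd_ag.cr.Bas2

/-! Row EQB: the recurrence form and the operator form of the second condition agree. -/

namespace Pool.Agent.MP_05b4bd_ag.CR

open MvPolynomial HC
open PC3 (sub2 sub2_X0 sub2_X1 sub2_C sub2_sub2)

namespace Eqb

variable {K : Type} [Field K]

theorem sub_sum (d : ℕ) (a q : R2 K) (h : ℕ → K) :
    sub2 a q (∑ j ∈ Finset.range (d / 2 + 1), C (h j) * X 0 ^ (d - 2 * j) * X 1 ^ j) =
      ∑ j ∈ Finset.range (d / 2 + 1), C (h j) * a ^ (d - 2 * j) * q ^ j := by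
  simp only [map_sum, map_mul, map_pow, sub2_X0, sub2_X1, sub2_C]

theorem co_H (d k : ℕ) (hk : k ≤ d / 2) (h : ℕ → K) : HC.co (d - 2 * k) k
    (∑ j ∈ Finset.range (d / 2 + 1), C (h j) * X 0 ^ (d - 2 * j) * X 1 ^ j : R2 K) = h k := by
  simp only [co_sum, mul_assoc, co_C_mul, co_mon]
  rw [Finset.sum_eq_single k]
  · rw [if_pos ⟨rfl, rfl⟩, mul_one]
  · intro j _ hj; rw [if_neg (fun h => hj h.2), mul_zero]
  · intro hb; exact absurd (Finset.mem_range.2 (by omega)) hb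

theorem kill {c e : K} (hc : c ≠ 0) {u : R2 K} (h : C c * u + C e * X 0 ^ 2 * pderiv 1 u = 0) :
    u = 0 := by
  have h1 : ∀ i j, HC.co i j u = 0 := by
    intro i
    induction i using Nat.strong_induction_on with
    | _ i ih =>
      intro j
      have h2 := congrArg (HC.co i j) h
      rw [co_add, co_C_mul, mul_assoc, co_C_mul, co_zero, pow_two, mul_assoc] at h2
      have h3 : HC.co i j (X 0 * (X 0 * pderiv 1 u)) = 0 := by
        rcases i with _ | _ | i
        · rw [co_X0']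
        · rw [co_X0, co_X0']
        · rw [co_X0, co_X0, co_y, ih i (by omega), zero_mul]
      rw [h3, mul_zero, add_zero] at h2
      exact (mul_eq_zero.1 h2).resolve_left hc
  exact co_ext fun i j => by rw [h1, co_zero]

theorem fin (hO : OpStmt) [CharZero K] {d : ℕ} {a q H : R2 K} {c1 c2 c3 : K}
    (ha : a.IsHomogeneous 1) (hq : q.IsHomogeneous 2) (hW : WH d H)
    (hc : c1 ≠ 0 ∨ c2 ≠ 0 ∨ c3 ≠ 0) (h0 : op4 c1 c2 c3 0 H = 0) : Geg d (sub2 a q H) := by
  obtain ⟨-, -, -, o4, o5⟩ := hO K d H c1 c2 c3 0 0 0 0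
  obtain ⟨h, hH⟩ := o4.1 hW
  refine ⟨a, q, h, c1, -c2 - c3 * (d - 2), 2 * c3, ha, hq, fun e => ?_, by rw [hH, sub_sum],
    fun j hj => ?_⟩
  · simp only [Prod.mk_eq_zero, mul_eq_zero, OfNat.ofNat_ne_zero, false_or] at e
    obtain ⟨e1, e2, e3⟩ := e
    rw [e3, zero_mul, sub_zero, neg_eq_zero] at e2
    exact hc.elim (· e1) fun k => k.elim (· e2) (· e3)
  · linear_combination (o5 h hH).1 h0 j hj

end Eqb

open Eqb in
theorem eqbS (h : OpStmt) : EqbStmt := by
  intro K _ _ d F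
  refine ⟨?_, fun hK _ _ => ?_⟩
  · rintro ⟨a, q, g, r, s, t, ha, hq, hne, hF, hr⟩
    obtain ⟨-, -, -, o4, o5⟩ := h K d
      (∑ j ∈ Finset.range (d / 2 + 1), C (g j) * X 0 ^ (d - 2 * j) * X 1 ^ j) r
      (-s - t * (d - 2) / 2) (t / 2) 0 0 0 0
    refine ⟨a, q, _, r, -s - t * (d - 2) / 2, t / 2, 0, ha, hq, o4.2 ⟨g, rfl⟩, fun e => hne ?_,
      by rw [hF, sub_sum], (o5 g rfl).2 fun j hj => ?_⟩
    · simp only [Prod.mk_eq_zero] at e ⊢
      obtain ⟨e1, e2, e3, -⟩ := e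
      exact ⟨e1, by linear_combination -e2 - (d - 2 : K) * e3, by linear_combination 2 * e3⟩
    · linear_combination hr j hj
  · rintro ⟨a, q, H, c1, c2, c3, c4, ha, hq, hW, hne, rfl, h0⟩
    by_cases hc : c1 = 0 ∧ c3 = 0
    · obtain ⟨rfl, rfl⟩ := hc
      simp only [op4, map_zero, zero_mul, zero_add, add_zero] at h0
      by_cases h2 : c2 = 0
      · subst h2
        have h4 : c4 ≠ 0 := fun e => hne (by rw [e]; rfl)
        rw [map_zero, zero_mul, zero_add, mul_eq_zero, mul_eq_zero, C_eq_zero] at h0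
        have h5 := h0.resolve_left fun e => e.elim h4 (pow_ne_zero _ (X_ne_zero _))
        obtain ⟨g, hH⟩ := (h K d H 0 0 0 0 0 0 0).2.2.2.1.1 hW
        refine ⟨a, q, g, 0, 0, 1, ha, hq, by simp, by rw [hH, sub_sum], fun j hj => ?_⟩
        rcases j with _ | j
        · simp
        · have h6 := congrArg (HC.co (d - 2 * (j + 1 + 1)) j) h5
          rw [co_y, co_y, co_zero, hH, co_H d (j + 1 + 1) hj] at h6
          push_cast at h6 ⊢
          linear_combination -h6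
      · refine fin h (c1 := 0) (c2 := 1) (c3 := 0) ha hq hW (by simp) ?_
        simp [op4, kill h2 h0]
    · obtain ⟨l, hl⟩ : ∃ l : K, c4 - 2 * l * c3 + 4 * l ^ 2 * c1 = 0 := by
        by_cases h1 : c1 = 0
        · have h3 : c3 ≠ 0 := fun e => hc ⟨h1, e⟩
          exact ⟨c4 / (2 * c3), by rw [h1]; field_simp; ring⟩
        · obtain ⟨z, hz⟩ := IsAlgClosed.exists_pow_nat_eq (c3 ^ 2 - 4 * c1 * c4) two_pos
          exact ⟨(c3 + z) / (4 * c1), by field_simp; linear_combination hz⟩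
      obtain ⟨o1, -, o3, -⟩ := h K d H c1 c2 c3 c4 0 0 l
      rw [hl, h0, map_zero] at o1
      have hq' : (q - C l * a ^ 2).IsHomogeneous 2 := hq.sub ((ha.pow 2).C_mul l)
      have := fin h ha hq' (o3 hW).1 (by
        by_cases h1 : c1 = 0
        · exact Or.inr (Or.inr (by rw [h1, mul_zero, sub_zero]; exact fun e => hc ⟨h1, e⟩))
        · exact Or.inl h1) o1
      rw [sub2_sub2] at this
      simpa only [map_add, map_mul, map_pow, sub2_X0, sub2_X1, sub2_C, sub_add_cancel] using this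

end Pool.Agent.MP_05b4bd_ag.CR
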