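import Pool.Agent.MP_05b4bd_ag.cr.Bas2

/-! Row INV: invariant lines and conics go to infinity. -/

namespace Pool.Agent.MP_05b4bd_ag.CR

open MvPolynomial HC
open ES.U (TM)
open PC3 (Fm fm d1 wg dv rr DF sub2 mapF)

namespace Inv

theorem split {A : Type} [CommRing A] {u : R2 A} (hu : DL 3 u) :
    u = C (coeff 0 u) + hc 1 u + hc 2 u := by
  have h0 := hu.sub_hc.sub_hc.sub_hc.eq_zero
  rw [hc_sub, hc_ne (hc_hom 2 u) (by decide), sub_zero, hc_sub, hc_sub,
    hc_ne (hc_hom 2 u) (by decide), hc_ne (hc_hom 1 u) (by decide), sub_zero, sub_zero,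
    show hc 0 u = C (coeff 0 u) from homogeneousComponent_zero u] at h0
  linear_combination h0

end Inv

theorem invS (h : UM.IcdStmt) : InvStmt := by
  intro V K κ _ _ _ _ _ ι ρ d w f c g P hd hf hw hc0 hdl he
  obtain ⟨r, c', hr, hc', k⟩ := P.prim hc0
  have a1 : Rd ι ρ (C r * c * g) (br c' f) := by
    have b := (RdF.d1 k).wg hw
    rwa [PC3.d1_C_mul, PC3.wg_smul, he, PC3.wg_d1_d1, mul_comm g, ← mul_assoc] at b
  obtain ⟨g', -, a2⟩ := k.div P hc' a1
  have a3 := PC3.DL1_eq (h κ d f c' g' hd hf hc' ((k.dl P (hdl.C_mul r)).mono hd)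
    (a2.trans (mul_comm _ _)))
  have a4 : coeff 0 c' ≠ 0 := fun e => hc' (by rw [a3, e, map_zero])
  have a5 : Rs ι ρ (r * coeff 0 c) (coeff 0 c') := by simpa using k.coeff 0
  have a6 : coeff 0 c ≠ 0 := right_ne_zero_of_mul (a5.ne_zero P a4)
  have a7 : ∀ i, i ≠ 0 → Rd ι ρ (C (coeff 0 c)⁻¹ * hc i c) 0 := fun i hi => by
    have b := (a5.inv P a4).toC.mul (k.hc i)
    rwa [show hc i c' = 0 from a3 ▸ hc_ne (isHomogeneous_C _ _) hi, mul_zero, hc_C_mul,
      ← mul_assoc, ← map_mul, mul_inv_rev, inv_mul_cancel_right₀ hr] at b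
  refine ⟨a6, a7 1 (by decide), a7 2 (by decide), ?_⟩
  rw [mul_add, mul_add, mul_one, ← mul_assoc, ← mul_assoc, ← map_mul, mul_inv_cancel₀ a6, map_one,
    one_mul, one_mul]
  exact Inv.split hdl

end Pool.Agent.MP_05b4bd_ag.CR
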