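import Pool.Agent.MP_05b4bd_ag.cr.Bas2

/-! Solutions of the first normal form are limits of the basic family. -/

namespace Pool.Agent.MP_05b4bd_ag.CR

open MvPolynomial HC

namespace Ka1

/-- The recurrence for the coefficients. -/
def Rec (d : ℕ) (α β : ℂ) (g : ℕ → ℂ) : Prop := ∀ i j : ℕ, i + j + 1 = d →
  ((j : ℂ) + 1) * (i - α) * g i = ((i : ℂ) + 1) * (j - β) * g (i + 1)

/-- The coefficients of the basic solution. -/
noncomputable def jc (α β : ℂ) (d i : ℕ) : ℂ :=
  ff α i / i.factorial * (ff β (d - i) / (d - i).factorial)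

theorem fac_ne (n : ℕ) : (n.factorial : ℂ) ≠ 0 := Nat.cast_ne_zero.2 n.factorial_ne_zero

theorem rec_jc (α β : ℂ) (d : ℕ) : Rec d α β (jc α β d) := by
  rintro i j rfl
  have h1 := fac_ne i
  have h2 := fac_ne j
  have h3 : (i : ℂ) + 1 ≠ 0 := Nat.cast_add_one_ne_zero i
  have h4 : (j : ℂ) + 1 ≠ 0 := Nat.cast_add_one_ne_zero j
  simp only [jc, show i + j + 1 - i = j + 1 by omega, show i + j + 1 - (i + 1) = j by omega, ff,
    Nat.factorial_succ, Nat.cast_mul, Nat.cast_add, Nat.cast_one]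
  field_simp
  ring

theorem rec_of {d : ℕ} {α β : ℂ} {G : Poly} (h : T1 α β G) :
    Rec d α β fun i => HC.co i (d - i) G := by
  rintro i j rfl
  have := (rec1 1 α β G).1 (by rw [map_one, one_mul]; exact h) i j
  rw [one_mul] at this
  simpa only [show i + j + 1 - i = j + 1 by omega, show i + j + 1 - (i + 1) = j by omega] using this

theorem up {d p q : ℕ} {α β : ℂ} {g g' : ℕ → ℂ} (h : Rec d α β g) (h' : Rec d α β g') (hq : q ≤ d)
    (hb : ∀ i j : ℕ, p ≤ i → i < q → i + j + 1 = d → (j : ℂ) ≠ β) (e : g p = g' p) :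
    ∀ i, p ≤ i → i ≤ q → g i = g' i := by
  intro i hi
  induction i, hi using Nat.le_induction with
  | base => exact fun _ => e
  | succ i hi ih =>
    intro hiq
    have k : i + (d - i - 1) + 1 = d := by omega
    refine mul_left_cancel₀ (mul_ne_zero (Nat.cast_add_one_ne_zero i)
      (sub_ne_zero.2 (hb i _ hi hiq k))) ?_
    rw [← h i _ k, ← h' i _ k, ih (by omega)]

theorem down {d p q : ℕ} {α β : ℂ} {g g' : ℕ → ℂ} (h : Rec d α β g) (h' : Rec d α β g')
    (hq : q ≤ d) (ha : ∀ i : ℕ, p ≤ i → i < q → (i : ℂ) ≠ α) (e : g q = g' q) :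
    ∀ i, i ≤ q → p ≤ i → g i = g' i := by
  intro i hi
  induction hi using Nat.decreasingInduction with
  | self => exact fun _ => e
  | of_succ i hi ih =>
    intro hp
    have k : i + (d - i - 1) + 1 = d := by omega
    refine mul_left_cancel₀ (mul_ne_zero (Nat.cast_add_one_ne_zero (d - i - 1))
      (sub_ne_zero.2 (ha i hp hi))) ?_
    rw [h i _ k, h' i _ k, ih (by omega)]

theorem ff_ne {α : ℂ} {k : ℕ} (h : ∀ i : ℕ, i < k → (i : ℂ) ≠ α) : ff α k ≠ 0 := by
  induction k with
  | zero => exact one_ne_zero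
  | succ k ih =>
    exact mul_ne_zero (ih fun i hi => h i (by omega)) (sub_ne_zero.2 (h k (by omega)).symm)

/-- The falling factorial near a natural number. -/
theorem ff_near (n k : ℕ) : ∃ h : ℂ → ℂ, (∀ s : ℂ, PS fun τ => h (s * τ)) ∧ h 0 ≠ 0 ∧
    ∀ x : ℂ, ff (n + x) k = (if n < k then x else 1) * h x := by
  induction k with
  | zero => exact ⟨fun _ => 1, fun _ => PS.const 1, one_ne_zero, fun x => by simp [ff]⟩
  | succ k ih =>
    obtain ⟨h, h1, h2, h3⟩ := ih
    by_cases e : n = k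
    · subst e
      exact ⟨h, h1, h2, fun x => by simp [ff, h3, mul_comm]⟩
    · refine ⟨fun x => h x * (n + x - k), fun s => (h1 s).mul
        (((PS.const _).add ((PS.const s).mul PS.id)).sub (PS.const _)),
        mul_ne_zero h2 (by rw [add_zero]; exact sub_ne_zero.2 (by exact_mod_cast e)), fun x => ?_⟩
      rw [ff, h3, mul_assoc, if_congr (show n < k + 1 ↔ n < k by omega) rfl rfl]

theorem hs_congr {d : ℕ} {g g' : ℕ → ℂ} (h : ∀ i ≤ d, g i = g' i) : hs d g = hs d g' :=
  Finset.sum_congr rfl fun i hi => by rw [h i (Nat.lt_succ_iff.1 (Finset.mem_range.1 hi))]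

theorem C_mul_JF (c α β : ℂ) (d : ℕ) : C c * JF α β d = hs d fun i => c * jc α β d i := by
  rw [JF_eq, hs, hs, Finset.mul_sum]
  exact Finset.sum_congr rfl fun i _ => by rw [jc, map_mul C c]; ring

end Ka1

open Ka1 in
theorem ka1S (h1 : BaStmt) (_h2 : SjStmt) : Ka1Stmt := by
  intro d α β G hd hG hT
  have hR := rec_of (d := d) hT
  have hB := (h1 d hd).1
  rw [eq_hs hG]
  generalize (fun i => HC.co i (d - i) G) = g at hR ⊢
  have hJ : ∀ c α β : ℂ, Rec d α β fun i => c * jc α β d i := fun c α β i j e => by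
    linear_combination c * rec_jc α β d i j e
  by_cases hp : ∃ p ≤ d, (∀ i : ℕ, i < p → (i : ℂ) ≠ α) ∧ ∀ j : ℕ, j < d - p → (j : ℂ) ≠ β
  · obtain ⟨p, hp, ha, hb⟩ := hp
    have hne : jc α β d p ≠ 0 :=
      mul_ne_zero (div_ne_zero (ff_ne ha) (fac_ne _)) (div_ne_zero (ff_ne hb) (fac_ne _))
    have e : g p = g p / jc α β d p * jc α β d p := (div_mul_cancel₀ _ hne).symm
    rw [hs_congr (g' := fun i => g p / jc α β d p * jc α β d i) fun i hi => by
      rcases le_total p i with k | k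
      · exact up hR (hJ _ _ _) le_rfl (fun i j _ _ _ => hb j (by omega)) e i k hi
      · exact down (p := 0) hR (hJ _ _ _) hp (fun i _ hi => ha i hi) e i k (Nat.zero_le _),
      ← C_mul_JF]
    exact hB _ _ _
  obtain ⟨m, n, hmn, rfl, rfl⟩ : ∃ m n : ℕ, m + n < d ∧ (m : ℂ) = α ∧ (n : ℂ) = β := by
    by_contra hc
    by_cases ha : ∃ m : ℕ, m < d ∧ (m : ℂ) = α
    · obtain ⟨m, hm, rfl⟩ := ha
      exact hp ⟨m, hm.le, fun i hi e => hi.ne (by exact_mod_cast e),
        fun j hj e => hc ⟨m, j, by omega, rfl, e⟩⟩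
    · exact hp ⟨d, le_rfl, fun i hi e => ha ⟨i, hi, e⟩, fun j hj => by omega⟩
  choose A hA1 hA2 hA3 using ff_near m
  choose B hB1 hB2 hB3 using ff_near n
  obtain ⟨s, hs1⟩ : ∃ s, g d = s * A d 0 / d.factorial * B 0 0 :=
    ⟨g d * d.factorial / (A d 0 * B 0 0), by
      have := hA2 d; have := hB2 0; have := fac_ne d; field_simp⟩
  obtain ⟨t, ht1⟩ : ∃ t, g 0 = A 0 0 * (t * B d 0 / d.factorial) :=
    ⟨g 0 * d.factorial / (A 0 0 * B d 0), by
      have := hA2 0; have := hB2 d; have := fac_ne d; field_simp⟩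
  let γ : ℂ → ℕ → ℂ := fun τ i => (if m < i ∧ n < d - i then τ else 1) *
    ((if m < i then s else 1) * A i (s * τ) * (i.factorial : ℂ)⁻¹ *
      ((if n < d - i then t else 1) * B (d - i) (t * τ) * ((d - i).factorial : ℂ)⁻¹))
  have hP : ∀ i, PS fun τ => γ τ i := fun i => by
    refine PS.mul ?_ ((((PS.const _).mul (hA1 i s)).mul (PS.const _)).mul
      (((PS.const _).mul (hB1 _ t)).mul (PS.const _)))
    split_ifs
    exacts [PS.id, PS.const 1]
  have hγ : ∀ τ, τ ≠ 0 → ∀ i, γ τ i = τ⁻¹ * jc (m + s * τ) (n + t * τ) d i := fun τ hτ i => by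
    simp only [γ, jc, hA3, hB3, div_eq_mul_inv]
    by_cases e1 : m < i <;> by_cases e2 : n < d - i
    · simp only [e1, e2, and_self, if_true]; field_simp
    · simp only [e1, e2, and_false, if_true, if_false]; field_simp
    · simp only [e1, e2, false_and, if_true, if_false]; field_simp
    · omega
  have h0 : Rec d m n (γ 0) := fun i j e => by
    have := PS.eq_zero (f := fun τ => ((j : ℂ) + 1) * (i - (m + s * τ)) * γ τ i -
        ((i : ℂ) + 1) * (j - (n + t * τ)) * γ τ (i + 1))
      ((((PS.const _).mul ((PS.const _).sub ((PS.const _).add ((PS.const _).mul PS.id)))).mul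
        (hP i)).sub (((PS.const _).mul ((PS.const _).sub ((PS.const _).add
          ((PS.const _).mul PS.id)))).mul (hP _)))
      (inf_of_fin (Set.finite_singleton 0) fun τ hτ => by
        rw [Set.mem_ofPred_eq, hγ τ hτ, hγ τ hτ]
        exact sub_eq_zero.2 (hJ _ _ _ i j e)) 0
    rw [mul_zero, mul_zero, add_zero, add_zero] at this
    exact sub_eq_zero.1 this
  rw [hs_congr (g' := γ 0) fun i hi => by
    rcases lt_or_ge (i + n) d with k | k
    · refine up (p := 0) (q := d - 1 - n) hR h0 (by omega)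
        (fun i j _ _ _ e => by have : j = n := by exact_mod_cast e
                               omega) ?_ i (Nat.zero_le _) (by omega)
      simp [γ, ht1, show n < d by omega, div_eq_mul_inv]
    · refine down (p := d - n) hR h0 le_rfl
        (fun i _ _ e => by have : i = m := by exact_mod_cast e
                           omega) ?_ i hi (by omega)
      simp [γ, hs1, show m < d by omega, div_eq_mul_inv]]
  refine Tp.lim0 (γ := fun τ => hs d (γ τ)) (PC_hs d fun i _ => hP i) fun τ hτ => ?_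
  rw [hs_congr fun i _ => hγ τ hτ i, ← C_mul_JF]
  exact hB _ _ _

end Pool.Agent.MP_05b4bd_ag.CR
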