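import Pool.Agent.MP_05b4bd_ag.cr.Bas2

/-! The second normal form is a limit of the first. -/

namespace Pool.Agent.MP_05b4bd_ag.CR

open MvPolynomial HC
open ES.U (TM)
open PC3 (Fm fm d1 wg dv rr DF sub2 mapF H2 H3)
open UM (HP)

namespace Ka2

/-- The perturbed recurrence gives a point of the closure. -/
theorem key (h : Ka1Stmt) {d : ℕ} (hd : 1 ≤ d) {τ : ℂ} (hτ : τ ≠ 0) (α β : ℂ) (g : ℕ → ℂ)
    (hg : ∀ i j : ℕ, i + (j + 1) = d →
      ((j : ℂ) + 1) * (i - α) * g i = ((i : ℂ) + 1) * (τ * j - β) * g (i + 1)) :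
    Tp d (L ![1, 1, d - 1]) (hs d g) := by
  have h1 : T1 α (β / τ) (hs d fun i => τ⁻¹ ^ (d - i) * g i) := by
    have := (rec1 (1 : ℂ) α (β / τ) (hs d fun i => τ⁻¹ ^ (d - i) * g i)).2 fun i j => by
      rw [co_hs, co_hs]
      by_cases e : i + (j + 1) = d
      · rw [if_pos e, if_pos (by omega), show d - i = j + 1 by omega,
          show d - (i + 1) = j by omega, pow_succ]
        have := hg i j e
        field_simp
        linear_combination this
      · rw [if_neg e, if_neg (by omega), mul_zero, mul_zero]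
    rwa [map_one, one_mul] at this
  have h2 := (h d α (β / τ) _ hd (hs_hom _ _) h1).sub (isHomogeneous_X ℂ 0)
    ((isHomogeneous_X ℂ 1).C_mul τ)
  have e : sub2 (X 0) (C τ * X 1) (hs d fun i => τ⁻¹ ^ (d - i) * g i) = hs d g := by
    rw [hs, hs, map_sum]
    refine Finset.sum_congr rfl fun i _ => ?_
    have k : (C (τ⁻¹ ^ (d - i)) * C τ ^ (d - i) : Poly) = 1 := by
      rw [← map_pow, ← map_mul, ← mul_pow, inv_mul_cancel₀ hτ, one_pow, map_one]
    simp only [map_mul, map_pow, PC3.sub2_C, PC3.sub2_X0, PC3.sub2_X1, mul_pow] at k ⊢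
    linear_combination (C (g i) * X 0 ^ i * X 1 ^ (d - i) : Poly) * k
  rwa [e] at h2

theorem ps_prod (β : ℂ) (n : ℕ) :
    PS fun τ => ∏ k ∈ Finset.range n, ((τ * k - β) * (-β)⁻¹) := by
  induction n with
  | zero => simpa using PS.const 1
  | succ n ih =>
    simpa only [Finset.prod_range_succ] using
      ih.mul (((PS.id.mul (PS.const _)).sub (PS.const _)).mul (PS.const _))

theorem ps_pow (n : ℕ) : PS fun τ => (-τ) ^ n := ⟨(-Polynomial.X) ^ n, by simp⟩

end Ka2

theorem ka2S (h : Ka1Stmt) : Ka2Stmt := by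
  intro d α β G hd hG hT
  have hr := (rec1 (0 : ℂ) α β G).1 (by rw [map_zero, zero_mul, sub_zero]; exact hT)
  set g : ℕ → ℂ := fun i => HC.co i (d - i) G with hgd
  have hg : ∀ i j : ℕ, i + (j + 1) = d →
      ((j : ℂ) + 1) * (i - α) * g i = ((i : ℂ) + 1) * (-β) * g (i + 1) := fun i j e => by
    have := hr i j
    simp only [hgd, show d - i = j + 1 by omega, show d - (i + 1) = j by omega]
    linear_combination this
  rw [eq_hs hG]
  change Tp d _ (hs d g)
  by_cases hβ : β = 0
  · obtain ⟨i0, hi0, hz⟩ : ∃ i0 < d, ∀ i < d, i ≠ i0 → g i = 0 := by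
      have k : ∀ i < d, (i : ℂ) ≠ α → g i = 0 := fun i hi hne => by
        have := hg i (d - 1 - i) (by omega)
        rw [hβ, neg_zero, mul_zero, zero_mul] at this
        exact (mul_eq_zero.1 this).resolve_left
          (mul_ne_zero (Nat.cast_add_one_ne_zero _) (sub_ne_zero.2 hne))
      by_cases e : ∃ i0 < d, (i0 : ℂ) = α
      · obtain ⟨i0, h1, h2⟩ := e
        exact ⟨i0, h1, fun i hi hne => k i hi fun e => hne (Nat.cast_injective (e.trans h2.symm))⟩
      · exact ⟨0, hd, fun i hi _ => k i hi fun e' => e ⟨i, hi, e'⟩⟩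
    obtain ⟨j0, hj0⟩ : ∃ j0, i0 + (j0 + 1) = d := ⟨d - 1 - i0, by omega⟩
    have hc : (d.choose i0 : ℂ) ≠ 0 := Nat.cast_ne_zero.2 (Nat.choose_pos hi0.le).ne'
    let γ : ℂ → ℕ → ℂ := fun τ i => if i ≤ i0 then g i0 / d.choose i0 * d.choose i * (-τ) ^ (i0 - i)
      else g d * d.choose i * (-τ) ^ (d - i)
    have h0 : hs d g = hs d (γ 0) := hom_ext (hs_hom _ _) (hs_hom _ _) fun i j e => by
      rw [co_hs, co_hs, if_pos e, if_pos e]
      simp only [γ, neg_zero]
      split_ifs with h1
      · rcases h1.eq_or_lt with rfl | h1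
        · rw [Nat.sub_self, pow_zero, mul_one, div_mul_cancel₀ _ hc]
        · rw [zero_pow (by omega), mul_zero, hz i (by omega) h1.ne]
      · rcases (show i ≤ d by omega).eq_or_lt with rfl | h2
        · simp
        · rw [zero_pow (by omega), mul_zero, hz i h2 (by omega)]
    rw [h0]
    refine Tp.lim0 (γ := fun τ => hs d (γ τ)) (PC_hs d fun i _ => ?_) fun τ hτ =>
      Ka2.key h hd hτ i0 (τ * j0) _ fun i j e => ?_
    · by_cases h1 : i ≤ i0 <;> simp only [γ, h1, if_true, if_false] <;>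
        exact (PS.const _).mul (Ka2.ps_pow _)
    · have hj : (j : ℂ) - j0 = i0 - i := by
        have : ((i + (j + 1) : ℕ) : ℂ) = (i0 + (j0 + 1) : ℕ) := by rw [e, hj0]
        push_cast at this
        linear_combination this
      have hch : (d.choose (i + 1) : ℂ) * (i + 1) = d.choose i * (j + 1) := by
        have := Nat.choose_succ_right_eq d i
        rw [show d - i = j + 1 by omega] at this
        exact_mod_cast this
      rw [← mul_sub, hj]
      rcases lt_trichotomy i i0 with h1 | rfl | h1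
      · simp only [γ, if_pos h1.le, if_pos (show i + 1 ≤ i0 from h1)]
        rw [show i0 - i = i0 - (i + 1) + 1 by omega, pow_succ]
        linear_combination (-(g i0 / d.choose i0 * (-τ) ^ (i0 - (i + 1)) * τ * (i0 - i))) * hch
      · simp
      · simp only [γ, if_neg h1.not_ge, if_neg (show ¬ i + 1 ≤ i0 by omega)]
        rw [show d - i = d - (i + 1) + 1 by omega, pow_succ]
        linear_combination (-(g d * (-τ) ^ (d - (i + 1)) * τ * (i0 - i))) * hch
  · have hb : (-β) * (-β)⁻¹ = 1 := mul_inv_cancel₀ (neg_ne_zero.2 hβ)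
    let γ : ℂ → ℕ → ℂ := fun τ i => g i * ∏ k ∈ Finset.range (d - i), ((τ * k - β) * (-β)⁻¹)
    have h0 : g = γ 0 := funext fun i => by
      simp only [γ, zero_mul, zero_sub, hb, Finset.prod_const_one, mul_one]
    rw [h0]
    refine Tp.lim0 (γ := fun τ => hs d (γ τ))
      (PC_hs d fun i _ => (PS.const _).mul (Ka2.ps_prod β _)) fun τ hτ =>
      Ka2.key h hd hτ α β _ fun i j e => ?_
    simp only [γ]
    rw [show d - i = j + 1 by omega, show d - (i + 1) = j by omega, Finset.prod_range_succ]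
    set P := ∏ k ∈ Finset.range j, ((τ * k - β) * (-β)⁻¹)
    linear_combination (P * (τ * j - β) * (-β)⁻¹) * hg i j e +
      (((i : ℂ) + 1) * g (i + 1) * P * (τ * j - β)) * hb

end Pool.Agent.MP_05b4bd_ag.CR
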