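import Pool.Agent.MP_05b4bd_ag.cr.Bas2

/-! The third normal form as a limit of the second. -/

namespace Pool.Agent.MP_05b4bd_ag.CR

open MvPolynomial HC
open ES.U (TM)
open PC3 (Fm fm d1 wg dv rr DF sub2 mapF H2 H3)
open UM (HP)

namespace Ka3

/-- The coefficients of the deformation. -/
noncomputable def g (d : ℕ) (β c τ : ℂ) : ℕ → ℂ
  | 0 => c
  | 1 => 0
  | i + 2 => (((d : ℂ) - i) * ((d : ℂ) - i - 1) * g d β c τ i +
      τ * (((i : ℂ) + 1) * ((d : ℂ) - i - 1)) * g d β c τ (i + 1)) * (-(β * ((i : ℂ) + 2))⁻¹)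

theorem g_PS (d : ℕ) (β c : ℂ) (i : ℕ) : PS fun τ => g d β c τ i := by
  induction i using Nat.twoStepInduction with
  | zero => exact PS.const c
  | one => exact PS.const 0
  | more i h0 h1 =>
    exact (((PS.const _).mul h0).add ((PS.id.mul (PS.const _)).mul h1)).mul (PS.const _)

theorem g_eq (d : ℕ) {β : ℂ} (hβ : β ≠ 0) (c τ : ℂ) :
    X 0 * (pderiv 1 (pderiv 1 (hs d (g d β c τ))) + C τ * pderiv 0 (pderiv 1 (hs d (g d β c τ)))) +
      C β * pderiv 0 (hs d (g d β c τ)) = 0 := by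
  refine (rec3 τ β _).2 ⟨fun j => ?_, fun i j => ?_⟩
  · rw [co_hs]
    simp [g]
  · rw [co_hs, co_hs, co_hs]
    by_cases h : i + j + 2 = d
    · rw [if_pos (by omega), if_pos (by omega), if_pos (by omega), g]
      have h1 : (d : ℂ) = i + j + 2 := by rw [← h]; push_cast; ring
      have h2 : (i : ℂ) + 2 ≠ 0 := by exact_mod_cast (show i + 2 ≠ 0 by omega)
      rw [h1]
      field_simp
      ring
    · rw [if_neg (by omega), if_neg (by omega), if_neg (by omega)]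
      simp

theorem g_zero {d : ℕ} {β : ℂ} (hβ : β ≠ 0) {G : Poly} (hG : G.IsHomogeneous d) (h : T3 β G) :
    hs d (g d β (HC.co 0 d G) 0) = G := by
  have h1 := (rec3 0 β G).1 (by simpa [T3] using h)
  have h2 : ∀ i j, i + j = d → g d β (HC.co 0 d G) 0 i = HC.co i j G := by
    intro i
    induction i using Nat.twoStepInduction with
    | zero => intro j hj; rw [g, ← hj, zero_add]
    | one => intro j _; rw [g]; exact ((mul_eq_zero.1 (h1.1 j)).resolve_left hβ).symm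
    | more i h0 _ =>
      intro j hj
      have h3 := h1.2 i j
      have h4 : (d : ℂ) = i + j + 2 := by rw [← hj]; push_cast; ring
      have h5 : (i : ℂ) + 2 ≠ 0 := by exact_mod_cast (show i + 2 ≠ 0 by omega)
      rw [g, h0 (j + 2) (by omega), h4]
      field_simp
      linear_combination -h3
  exact hom_ext (hs_hom _ _) hG fun i j e => by rw [co_hs, if_pos e, h2 i j e]

theorem shear {τ β : ℂ} (hτ : τ ≠ 0) {G : Poly}
    (h : X 0 * (pderiv 1 (pderiv 1 G) + C τ * pderiv 0 (pderiv 1 G)) + C β * pderiv 0 G = 0) :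
    T2 (β * τ⁻¹ ^ 2) (β * τ⁻¹) (sub2 (X 0) (X 1 + C τ⁻¹ * X 0) G) := by
  have h1 := congrArg (sub2 (X 0) (X 1 + C τ⁻¹ * X 0)) h
  have h2 : (C τ⁻¹ * C τ : Poly) = 1 := by rw [← map_mul, inv_mul_cancel₀ hτ, map_one]
  have h3 : ∀ u : Poly, pderiv 1 (sub2 (X 0) (X 1 + C τ⁻¹ * X 0) u) =
      sub2 (X 0) (X 1 + C τ⁻¹ * X 0) (pderiv 1 u) := fun u => by
    rw [PC3.sub2_d]; simp
  have h4 : ∀ u : Poly, pderiv 0 (sub2 (X 0) (X 1 + C τ⁻¹ * X 0) u) =
      sub2 (X 0) (X 1 + C τ⁻¹ * X 0) (pderiv 0 u) +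
        C τ⁻¹ * sub2 (X 0) (X 1 + C τ⁻¹ * X 0) (pderiv 1 u) := fun u => by
    rw [PC3.sub2_d]; simp [mul_comm]
  simp only [map_add, map_mul, PC3.sub2_X0, PC3.sub2_C, map_zero] at h1
  rw [T2, h3, h4, h4, map_mul, map_mul, map_pow]
  linear_combination C τ⁻¹ * h1 -
    X 0 * sub2 (X 0) (X 1 + C τ⁻¹ * X 0) (pderiv 0 (pderiv 1 G)) * h2

end Ka3

open Ka3 in
theorem ka3S (h : Ka2Stmt) : Ka3Stmt := by
  intro d β G hd hG hβ hT
  rw [← g_zero hβ hG hT]
  refine Tp.lim0 (γ := fun τ => hs d (g d β (HC.co 0 d G) τ)) (PC_hs d fun i _ => g_PS d β _ i)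
    fun τ hτ => ?_
  have hx := isHomogeneous_X ℂ (0 : Fin 2)
  have hy := isHomogeneous_X ℂ (1 : Fin 2)
  have h1 := (h d _ _ _ hd (sub2_hom hx (hy.add (hx.C_mul τ⁻¹)) (hs_hom d _))
    (shear hτ (g_eq d hβ (HC.co 0 d G) τ))).sub hx (hy.sub (hx.C_mul τ⁻¹))
  rw [PC3.sub2_sub2] at h1
  simpa only [map_add, map_mul, PC3.sub2_X0, PC3.sub2_X1, PC3.sub2_C, sub_add_cancel,
    PC3.sub2_id] using h1

end Pool.Agent.MP_05b4bd_ag.CR
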