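import Pool.Agent.MP_05b4bd_ag.cr.Bas2

/-! The two-term recurrence with vanishing leading constant is a limit of general ones. -/

namespace Pool.Agent.MP_05b4bd_ag.CR

open MvPolynomial HC

namespace Kb

theorem ps_prod {I : Type} (s : Finset I) {f : I → ℂ → ℂ} (hf : ∀ i, PS (f i)) :
    PS fun τ => ∏ i ∈ s, f i τ := by
  classical
  induction s using Finset.induction_on with
  | empty => simpa using PS.const 1
  | insert i s hi ih => simpa only [Finset.prod_insert hi] using (hf i).mul ih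

theorem ps_pow (n : ℕ) : PS fun τ => τ ^ n := ⟨Polynomial.X ^ n, by simp⟩

theorem not_sq_dvd {a F : Poly} (ha : a.IsHomogeneous 1) (hF : Sq F) : ¬ a ^ 2 ∣ F := by
  rintro ⟨G, rfl⟩
  have h : ∀ i : Fin 2, a ∣ pderiv i (a ^ 2 * G) := fun i =>
    ⟨2 * pderiv i a * G + a * pderiv i G, by
      rw [pow_two, Derivation.leibniz, Derivation.leibniz]
      simp only [smul_eq_mul]
      ring⟩
  have hu : IsUnit a := CI.relPrime hF (h 0) (h 1)
  have h0 : coeff 0 a = 0 := ha.coeff_eq_zero (by simp)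
  have := hu.map (constantCoeff (σ := Fin 2) (R := ℂ))
  rw [constantCoeff_eq, h0] at this
  exact not_isUnit_zero this

/-- The leading factor of the recurrence. -/
noncomputable def D (d j : ℕ) : ℂ := ((d : ℂ) - 2 * j) * ((d : ℂ) - 2 * j - 1)

theorem D_ne {d j : ℕ} (h : j < d / 2) : D d j ≠ 0 := by
  refine mul_ne_zero ?_ ?_
  · rw [sub_ne_zero]
    exact_mod_cast (by omega : d ≠ 2 * j)
  · rw [sub_sub, sub_ne_zero]
    exact_mod_cast (by omega : d ≠ 2 * j + 1)

/-- The ratio of consecutive coefficients. -/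
noncomputable def w (d n : ℕ) (κ τ : ℂ) (k : ℕ) : ℂ :=
  ((k : ℂ) + 1) * (k - n + κ * τ ^ (n + 1)) / D d k

/-- The coefficients of the family. -/
noncomputable def H (d n : ℕ) (κ c τ : ℂ) (j : ℕ) : ℂ :=
  if j ≤ n then τ ^ j * (κ * (((n : ℂ) + 1) * c / D d n) * ∏ k ∈ Finset.Ico j n, w d n κ τ k)
  else c

theorem ps_H (d n : ℕ) (κ c : ℂ) (j : ℕ) : PS fun τ => H d n κ c τ j := by
  unfold H
  split_ifs
  · refine (ps_pow j).mul ((PS.const _).mul (ps_prod _ fun k => ?_))
    simp only [w, div_eq_mul_inv]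
    exact ((PS.const _).mul ((PS.const _).add ((PS.const _).mul (ps_pow _)))).mul (PS.const _)
  · exact PS.const c

theorem H_rec {d n : ℕ} (hn : d / 2 = n + 1) (κ c : ℂ) {τ : ℂ} (hτ : τ ≠ 0) {j : ℕ}
    (hj : j < d / 2) : D d j * H d n κ c τ j =
      ((j : ℂ) + 1) * ((κ * τ ^ (n + 1) - n) / τ + τ⁻¹ * j) * H d n κ c τ (j + 1) := by
  have hD := D_ne hj
  rcases (by omega : j < n ∨ j = n) with h | rfl
  · rw [H, H, if_pos h.le, if_pos (Nat.succ_le_of_lt h), Finset.prod_eq_prod_Ico_succ_bot h, w]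
    field_simp
    ring
  · rw [H, H, if_pos le_rfl, if_neg (by omega), Finset.Ico_self, Finset.prod_empty]
    field_simp
    ring

end Kb

open Kb in
theorem kbS (h : Kb1Stmt) : KbStmt := by
  rintro d F hd hF ⟨a, q, g, r, s, t, ha, hq, hne, rfl, hrec⟩
  by_cases hr : r = 0
  swap
  · refine h d a q g (s / r) (t / r) (by omega) ha hq fun j hj => ?_
    have := hrec j hj
    field_simp
    linear_combination this
  subst hr
  obtain ⟨n, hn⟩ : ∃ n, d / 2 = n + 1 := ⟨d / 2 - 1, by omega⟩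
  have h1 : ∀ j ≤ n, (s + t * j) * g (j + 1) = 0 := fun j hj => by
    have h2 := hrec j (by omega)
    rw [zero_mul, zero_mul, zero_mul, mul_assoc] at h2
    exact (mul_eq_zero.1 h2.symm).resolve_left (Nat.cast_add_one_ne_zero j)
  have hc : g (n + 1) ≠ 0 := fun h0 => by
    refine not_sq_dvd ha hF (Finset.dvd_sum fun j hj => ?_)
    rcases (by have := Finset.mem_range.1 hj; omega : j ≤ n ∨ j = n + 1) with h2 | rfl
    · exact ((pow_dvd_pow a (by omega)).mul_left _).mul_right _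
    · simp [h0]
  have hs : s + t * n = 0 := (mul_eq_zero.1 (h1 n le_rfl)).resolve_right hc
  have ht : t ≠ 0 := by
    rintro rfl
    rw [zero_mul, add_zero] at hs
    exact hne (by rw [hs]; rfl)
  have h0 : ∀ j < n, g (j + 1) = 0 := fun j hj => by
    refine (mul_eq_zero.1 (h1 j hj.le)).resolve_left fun h2 => ?_
    have h3 : t * ((n : ℂ) - j) = 0 := by linear_combination hs - h2
    have h4 : (n : ℂ) = j := sub_eq_zero.1 ((mul_eq_zero.1 h3).resolve_left ht)
    exact absurd (Nat.cast_injective h4) hj.ne'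
  have hDn : D d n ≠ 0 := D_ne (by omega)
  have hw : ∀ κ k, w d n κ 0 k = w d n 0 0 k := fun κ k => by simp [w]
  have hP : ∏ k ∈ Finset.Ico 0 n, w d n 0 0 k ≠ 0 := Finset.prod_ne_zero_iff.2 fun k hk => by
    have hk' := (Finset.mem_Ico.1 hk).2
    refine div_ne_zero (mul_ne_zero (Nat.cast_add_one_ne_zero k) ?_) (D_ne (by omega))
    rw [zero_mul, add_zero, sub_ne_zero]
    exact_mod_cast hk'.ne
  have hn1 : (n : ℂ) + 1 ≠ 0 := Nat.cast_add_one_ne_zero n
  obtain ⟨κ, hκ⟩ : ∃ κ : ℂ, κ * (((n : ℂ) + 1) * g (n + 1) / D d n) *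
      ∏ k ∈ Finset.Ico 0 n, w d n 0 0 k = g 0 :=
    ⟨g 0 / (((n : ℂ) + 1) * g (n + 1) / D d n * ∏ k ∈ Finset.Ico 0 n, w d n 0 0 k), by
      field_simp⟩
  have hpc : PC fun τ => ∑ j ∈ Finset.range (d / 2 + 1),
      C (H d n κ (g (n + 1)) τ j) * a ^ (d - 2 * j) * q ^ j :=
    PC.sum (f := fun j τ => C (H d n κ (g (n + 1)) τ j) * a ^ (d - 2 * j) * q ^ j) _ fun j _ =>
      ((ps_H d n κ _ j).toC.mul (PC.const _)).mul (PC.const _)
  have hlim := Top.lim0 (d := d) (W := L ![2, d - 1]) hpc fun τ hτ =>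
    h d a q (H d n κ (g (n + 1)) τ) ((κ * τ ^ (n + 1) - n) / τ) τ⁻¹ (by omega) ha hq
      fun j hj => H_rec hn κ _ hτ hj
  have e : ∀ j ∈ Finset.range (d / 2 + 1), C (H d n κ (g (n + 1)) 0 j) * a ^ (d - 2 * j) * q ^ j =
      C (g j) * a ^ (d - 2 * j) * q ^ j := fun j hj => by
    have hj' := Finset.mem_range.1 hj
    have : H d n κ (g (n + 1)) 0 j = g j := by
      unfold H
      split_ifs with h2
      · rcases j with _ | j
        · simp only [hw κ]
          rw [pow_zero, one_mul, hκ]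
        · rw [h0 j (by omega), zero_pow (by omega), zero_mul]
      · rw [show j = n + 1 by omega]
    rw [this]
  rwa [Finset.sum_congr rfl e] at hlim

end Pool.Agent.MP_05b4bd_ag.CR
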