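import Pool.Agent.MP_05b4bd_ag.cr.Bas2

/-! Solutions of the two parameter recurrence are limits of the forms of the second family. -/

namespace Pool.Agent.MP_05b4bd_ag.CR

open MvPolynomial HC
open ES.U (TM)
open PC3 (Fm fm d1 wg dv rr DF sub2 mapF H2 H3)
open UM (HP)

namespace Kb1

/-- The ratio of two consecutive coefficients. -/
noncomputable def rt (d : ℕ) (s t : ℂ) (k : ℕ) : ℂ :=
  ((k : ℂ) + 1) * (s + t * k) * (((d : ℂ) - 2 * k) * ((d : ℂ) - 2 * k - 1))⁻¹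

/-- The form with last coefficient `x`. -/
noncomputable def S (d : ℕ) (a q : Poly) (x s t : ℂ) : Poly :=
  ∑ j ∈ Finset.range (d / 2 + 1),
    C (x * ∏ k ∈ Finset.Ico j (d / 2), rt d s t k) * a ^ (d - 2 * j) * q ^ j

theorem den_ne {d j : ℕ} (hj : j < d / 2) :
    ((d : ℂ) - 2 * j) * ((d : ℂ) - 2 * j - 1) ≠ 0 := by
  obtain ⟨e, rfl⟩ : ∃ e, d = 2 * j + 2 + e := ⟨d - (2 * j + 2), by omega⟩
  have h : (((2 * j + 2 + e : ℕ) : ℂ) - 2 * j) * (((2 * j + 2 + e : ℕ) : ℂ) - 2 * j - 1) =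
      (((e + 2) * (e + 1) : ℕ) : ℂ) := by push_cast; ring
  rw [h]
  exact Nat.cast_ne_zero.2 (by positivity)

theorem sol {d : ℕ} {h : ℕ → ℂ} {s t : ℂ}
    (hr : ∀ j < d / 2, ((d : ℂ) - 2 * j) * ((d : ℂ) - 2 * j - 1) * h j =
      ((j : ℂ) + 1) * (s + t * j) * h (j + 1)) (j : ℕ) (hj : j ≤ d / 2) :
    h j = h (d / 2) * ∏ k ∈ Finset.Ico j (d / 2), rt d s t k := by
  induction hj using Nat.decreasingInduction with
  | self => simp
  | of_succ j hj ih =>
    rw [Finset.prod_eq_prod_Ico_succ_bot hj, mul_left_comm, ← ih, rt, mul_right_comm, ← hr j hj,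
      mul_right_comm, mul_inv_cancel₀ (den_ne hj), one_mul]

theorem ps_prod (I : Finset ℕ) {f : ℕ → ℂ → ℂ} (hf : ∀ k, PS (f k)) :
    PS fun τ => ∏ k ∈ I, f k τ := by
  induction I using Finset.induction_on with
  | empty => simpa using PS.const 1
  | insert i I hi ih => simpa only [Finset.prod_insert hi] using (hf i).mul ih

theorem pc_S (d : ℕ) (a q : Poly) (x : ℂ) {s t : ℂ → ℂ} (hs : PS s) (ht : PS t) :
    PC fun τ => S d a q x (s τ) (t τ) :=
  PC.sum _ fun _ _ => (((PS.const x).mul (ps_prod _ fun k =>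
    ((PS.const _).mul (hs.add (ht.mul (PS.const _)))).mul (PS.const _))).toC.mul
      (PC.const _)).mul (PC.const _)

theorem ff_ne (N k : ℕ) (hk : k ≤ N) : ff (N : ℂ) k ≠ 0 := by
  induction k with
  | zero => exact one_ne_zero
  | succ k ih =>
    exact mul_ne_zero (ih (by omega)) (sub_ne_zero.2 (Nat.cast_injective.ne (by omega)))

theorem gf_rec (d : ℕ) (s : ℂ) {t : ℂ} (ht : t ≠ 0) (j : ℕ) (hj : j < d / 2) :
    ((d : ℂ) - 2 * j) * ((d : ℂ) - 2 * j - 1) *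
      (ff (s / t + d - 1) (d - j) / (j.factorial * (d - 2 * j).factorial) * t⁻¹ ^ j) =
    ((j : ℂ) + 1) * (s + t * j) * (ff (s / t + d - 1) (d - (j + 1)) /
      ((j + 1).factorial * (d - 2 * (j + 1)).factorial) * t⁻¹ ^ (j + 1)) := by
  obtain ⟨e, rfl⟩ : ∃ e, d = 2 * j + 2 + e := ⟨d - (2 * j + 2), by omega⟩
  rw [show 2 * j + 2 + e - j = j + 1 + e + 1 by omega,
    show 2 * j + 2 + e - (j + 1) = j + 1 + e by omega,
    show 2 * j + 2 + e - 2 * j = e + 1 + 1 by omega,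
    show 2 * j + 2 + e - 2 * (j + 1) = e by omega, ff]
  have h1 : (j.factorial : ℂ) ≠ 0 := Nat.cast_ne_zero.2 j.factorial_ne_zero
  have h2 : (e.factorial : ℂ) ≠ 0 := Nat.cast_ne_zero.2 e.factorial_ne_zero
  have h3 : (j : ℂ) + 1 ≠ 0 := Nat.cast_add_one_ne_zero j
  have h4 : (e : ℂ) + 1 ≠ 0 := Nat.cast_add_one_ne_zero e
  have h5 : (e : ℂ) + 1 + 1 ≠ 0 := by exact_mod_cast Nat.cast_add_one_ne_zero (R := ℂ) (e + 1)
  generalize ff (K := ℂ) _ (j + 1 + e) = F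
  simp only [Nat.factorial_succ, pow_succ]
  generalize t⁻¹ ^ j = T
  push_cast
  field_simp
  ring

theorem gen (h1 : BaStmt) {d : ℕ} (hd : 1 ≤ d) {a q : Poly} (ha : a.IsHomogeneous 1)
    (hq : q.IsHomogeneous 2) (x s : ℂ) {t : ℂ} (ht : t ≠ 0)
    (hf : ff (s / t + d - 1) (d - d / 2) ≠ 0) : Top d (L ![2, d - 1]) (S d a q x s t) := by
  have k := sol (h := fun j => ff (s / t + d - 1) (d - j) /
    (j.factorial * (d - 2 * j).factorial) * t⁻¹ ^ j) (gf_rec d s ht)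
  have h0 : ff (s / t + d - 1) (d - d / 2) /
      ((d / 2).factorial * (d - 2 * (d / 2)).factorial) * t⁻¹ ^ (d / 2) ≠ 0 :=
    mul_ne_zero (div_ne_zero hf (mul_ne_zero (Nat.cast_ne_zero.2 (Nat.factorial_ne_zero _))
      (Nat.cast_ne_zero.2 (Nat.factorial_ne_zero _)))) (pow_ne_zero _ (inv_ne_zero ht))
  generalize ff (s / t + d - 1) (d - d / 2) /
      ((d / 2).factorial * (d - 2 * (d / 2)).factorial) * t⁻¹ ^ (d / 2) = y at k h0
  have := (h1 d hd).2.1 (s / t + d - 1) (x / y) a (C t⁻¹ * q) ha (hq.C_mul _)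
  convert this using 1
  rw [S, GF, Finset.mul_sum]
  refine Finset.sum_congr rfl fun j hj => ?_
  have e : x * ∏ k ∈ Finset.Ico j (d / 2), rt d s t k = x / y * (ff (s / t + d - 1) (d - j) /
      (j.factorial * (d - 2 * j).factorial) * t⁻¹ ^ j) := by
    rw [k j (Nat.lt_succ_iff.1 (Finset.mem_range.1 hj)), ← mul_assoc, div_mul_cancel₀ _ h0]
  rw [e, map_mul, map_mul, map_pow, mul_pow]
  ring

end Kb1

open Kb1 in
theorem kb1S (h1 : BaStmt) : Kb1Stmt := by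
  intro d a q h s t hd ha hq hr
  have e : ∑ j ∈ Finset.range (d / 2 + 1), C (h j) * a ^ (d - 2 * j) * q ^ j =
      S d a q (h (d / 2)) s t := Finset.sum_congr rfl fun j hj => by
    rw [← sol hr j (Nat.lt_succ_iff.1 (Finset.mem_range.1 hj))]
  rw [e]
  refine Top.lim (pc_S d a q _ (PS.const s) PS.id)
    (inf_of_fin (Set.finite_singleton 0) fun t (ht : t ≠ 0) => ?_) t
  refine Top.lim (pc_S d a q _ PS.id (PS.const t))
    (Set.infinite_of_injective_forall_mem (f := fun n : ℕ => ((n : ℂ) + 1) * t)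
      (fun m n hmn => ?_) fun n => gen h1 hd ha hq _ _ ht ?_) s
  · exact Nat.cast_injective (R := ℂ) (add_right_cancel (mul_right_cancel₀ ht hmn))
  · rw [mul_div_cancel_right₀ _ ht, show (n : ℂ) + 1 + d - 1 = ((n + d : ℕ) : ℂ) by
      push_cast; ring]
    exact ff_ne _ _ (by omega)

end Pool.Agent.MP_05b4bd_ag.CR
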