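import Pool.Agent.MP_05b4bd_ag.cr.Bas2

/-! Row KC1: the solutions of the equation `T5` are top forms of the parabolic family. -/

namespace Pool.Agent.MP_05b4bd_ag.CR

open MvPolynomial HC

namespace Kc1

theorem uniq {d m : ℕ} {U : Poly} (hU : U.IsHomogeneous d) (h : T5 m U) (h0 : HC.co 0 d U = 0)
    (h1 : HC.co (2 * m + 1) (d - (2 * m + 1)) U = 0) : U = 0 := by
  obtain ⟨r1, r2⟩ := (rec5 (4 : ℂ) (2 * m) U).1 (by
    rw [map_mul, map_natCast, map_ofNat, map_ofNat]; exact h)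
  have key : ∀ i j, i + j = d → HC.co i j U = 0 := by
    intro i
    induction i using Nat.twoStepInduction with
    | zero => intro j e; rw [show j = d by omega]; exact h0
    | one =>
      intro j e
      rcases Nat.eq_zero_or_pos m with rfl | hm
      · rw [show j = d - (2 * 0 + 1) by omega]; exact h1
      · exact (mul_eq_zero.1 (r1 j)).resolve_left
          (mul_ne_zero two_ne_zero (Nat.cast_ne_zero.2 hm.ne'))
    | more i ih _ =>
      intro j e
      by_cases hi : i + 2 = 2 * m + 1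
      · rw [hi, show j = d - (2 * m + 1) by omega]; exact h1
      · have h2 := r2 i j
        rw [ih (j + 2) (by omega), mul_zero] at h2
        refine (mul_eq_zero.1 h2).resolve_left
          (mul_ne_zero (by exact_mod_cast (by omega : i + 2 ≠ 0)) ?_)
        rw [sub_ne_zero]
        exact_mod_cast (by omega)
  exact hom_ext hU (isHomogeneous_zero _ _ _) fun i j e => by rw [key i j e, co_zero]

/-- All coefficients are natural numbers. -/
def Nt (u : Poly) : Prop := ∀ i j, ∃ k : ℕ, HC.co i j u = k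

theorem Nt.add {u v : Poly} (hu : Nt u) (hv : Nt v) : Nt (u + v) := fun i j => by
  obtain ⟨a, ha⟩ := hu i j
  obtain ⟨b, hb⟩ := hv i j
  exact ⟨a + b, by rw [co_add, ha, hb, Nat.cast_add]⟩

theorem Nt.x {u : Poly} (hu : Nt u) : Nt (X 0 * u) := fun i j => by
  rcases i with _ | i
  · exact ⟨0, by rw [co_X0', Nat.cast_zero]⟩
  · rw [co_X0]; exact hu i j

theorem Nt.y {u : Poly} (hu : Nt u) : Nt (X 1 * u) := fun i j => by
  rcases j with _ | j
  · exact ⟨0, by rw [co_X1', Nat.cast_zero]⟩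
  · rw [co_X1]; exact hu i j

theorem Nt.one : Nt 1 := fun i j => by
  have := co_mon (A := ℂ) i j 0 0
  rw [pow_zero, pow_zero, mul_one] at this
  rw [this]
  split_ifs
  exacts [⟨1, Nat.cast_one.symm⟩, ⟨0, Nat.cast_zero.symm⟩]

theorem Nt.pw (n : ℕ) : Nt ((1 + X 1) ^ n) := by
  induction n with
  | zero => rw [pow_zero]; exact Nt.one
  | succ n ih => rw [pow_succ', add_mul, one_mul]; exact ih.add ih.y

theorem co_E (n i j : ℕ) : HC.co i j (E (X 0) (1 + X 1) (n + 1) : Poly) =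
    ((2 * n + 2 : ℕ) : ℂ) * (HC.co i j (X 0 * (X 0 * E (X 0) (1 + X 1) n) : Poly) +
      HC.co i j (E (X 0) (1 + X 1) n : Poly) + HC.co i j (X 1 * E (X 0) (1 + X 1) n : Poly)) +
    ((2 * n + 1).doubleFactorial : ℂ) * HC.co i j (X 0 * (1 + X 1) ^ (n + 1) : Poly) := by
  rw [← co_add, ← co_add, ← co_C_mul, ← co_C_mul, ← co_add, map_natCast, map_natCast, E]
  congr 1
  push_cast
  ring

theorem nt_E (n : ℕ) : Nt (E (X 0) (1 + X 1) n) := by
  induction n with
  | zero => simpa [E] using Nt.one.x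
  | succ n ih =>
    intro i j
    obtain ⟨a, ha⟩ := ih.x.x i j
    obtain ⟨b, hb⟩ := ih i j
    obtain ⟨c, hc⟩ := ih.y i j
    obtain ⟨e, he⟩ := (Nt.pw (n + 1)).x i j
    rw [co_E, ha, hb, hc, he]
    exact ⟨_, by norm_cast⟩

theorem ne_E (n : ℕ) : ∀ j ≤ n, HC.co (2 * j + 1) (n - j) (E (X 0) (1 + X 1) n : Poly) ≠ 0 := by
  induction n with
  | zero =>
    intro j hj
    obtain rfl : j = 0 := by omega
    have := co_mon (A := ℂ) 1 0 1 0
    rw [pow_zero, mul_one, pow_one, if_pos ⟨rfl, rfl⟩] at this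
    exact this.trans_ne one_ne_zero
  | succ n ih =>
    intro j hj
    obtain ⟨a, ha⟩ := (nt_E n).x.x (2 * j + 1) (n + 1 - j)
    obtain ⟨b, hb⟩ := nt_E n (2 * j + 1) (n + 1 - j)
    obtain ⟨c, hc⟩ := (nt_E n).y (2 * j + 1) (n + 1 - j)
    obtain ⟨e, he⟩ := (Nt.pw (n + 1)).x (2 * j + 1) (n + 1 - j)
    have h : a ≠ 0 ∨ c ≠ 0 := by
      rcases j with _ | j
      · right
        rw [Nat.sub_zero, co_X1] at hc
        exact Nat.cast_ne_zero.1 (hc ▸ ih 0 (Nat.zero_le n))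
      · left
        rw [show 2 * (j + 1) + 1 = 2 * j + 1 + 1 + 1 by ring, co_X0, co_X0, Nat.add_sub_add_right]
          at ha
        exact Nat.cast_ne_zero.1 (ha ▸ ih j (by omega))
    rw [co_E, ha, hb, hc, he]
    have : 0 < (2 * n + 2) * (a + b + c) := Nat.mul_pos (by omega) (by omega)
    exact_mod_cast (by omega)

theorem zero_E (n j : ℕ) : HC.co 0 j (E (X 0) (1 + X 1) n : Poly) = 0 := by
  induction n generalizing j with
  | zero => simpa [E] using co_X0' (j := j) (u := (1 : Poly))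
  | succ n ih => rw [co_E, co_X0', co_X0', ih, co_X1_if, ih]; simp

theorem ff_ne (n k : ℕ) : ff ((n : ℂ) + 1 / 2) k ≠ 0 := by
  induction k with
  | zero => exact one_ne_zero
  | succ k ih =>
    refine mul_ne_zero ih fun h => ?_
    have : ((2 * n + 1 : ℕ) : ℂ) = (2 * k : ℕ) := by push_cast; linear_combination 2 * h
    have := Nat.cast_injective this
    omega

theorem co_GF (α : ℂ) (d : ℕ) : HC.co 0 d (GF α d (X 1) (X 0 ^ 2)) = ff α d / d.factorial := by
  have e : ∀ (c : ℂ) (a b : ℕ), (C c * X 1 ^ a * (X 0 ^ 2) ^ b : Poly) =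
      C c * (X 0 ^ (2 * b) * X 1 ^ a) := fun c a b => by ring
  simp only [GF, co_sum, e, co_C_mul, co_mon]
  rw [Finset.sum_eq_single 0]
  · simp
  · intro b _ hb
    rw [if_neg (by omega), mul_zero]
  · simp

theorem pt (d n : ℕ) (a r : ℂ) :
    PT d n a r (C 0 + X 0) (C (1 - 0 ^ 2) + X 1 - 2 * C 0 * X 0) =
      C a * hc d (E (X 0) (1 + X 1) n) + C r * GF ((n : ℂ) + 1 / 2) d (X 1) (X 0 ^ 2) := by
  have e1 : (C 0 + X 0 : Poly) = X 0 := by simp
  have e2 : (C (1 - 0 ^ 2) + X 1 - 2 * C 0 * X 0 : Poly) = 1 + X 1 := by simp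
  have a0 : (1 : Poly).IsHomogeneous 0 := isHomogeneous_one _ _
  have a1 : (X 1 : Poly).IsHomogeneous 1 := isHomogeneous_X _ _
  have a2 : (X 0 ^ 2 : Poly).IsHomogeneous 2 := isHomogeneous_X_pow _ _
  have c0 : coeff 0 (X 0 ^ 2 + (1 + X 1) : Poly) = 1 := by
    rw [← constantCoeff_eq]; simp
  have c1 : hc 1 (X 0 ^ 2 + (1 + X 1) : Poly) = X 1 := by
    rw [hc_add, hc_add, hc_ne a2 (by omega), hc_ne a0 (by omega), hc_self a1, zero_add, zero_add]
  have c2 : hc 2 (X 0 ^ 2 + (1 + X 1) : Poly) = X 0 ^ 2 := by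
    rw [hc_add, hc_add, hc_self a2, hc_ne a0 (by omega), hc_ne a1 (by omega), add_zero, add_zero]
  rw [PT, e1, e2, c0, c1, c2, inv_one, C_1, one_mul, one_mul]

end Kc1

theorem kc1S (h1 : BaStmt) (h2 : PdeStmt) : Kc1Stmt := by
  intro d n G hd hn hG hT
  obtain ⟨m, rfl⟩ : ∃ m, d = n + 1 + m := ⟨d - 1 - n, by omega⟩
  have hm : n + 1 + m - 1 - n = m := by omega
  have q0 : HC.co 0 (n + 1 + m) (GF ((n : ℂ) + 1 / 2) (n + 1 + m) (X 1) (X 0 ^ 2)) ≠ 0 := by
    rw [Kc1.co_GF]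
    exact div_ne_zero (Kc1.ff_ne _ _) (Nat.cast_ne_zero.2 (Nat.factorial_ne_zero _))
  have p0 : HC.co 0 (n + 1 + m) (hc (n + 1 + m) (E (X 0) (1 + X 1) n : Poly)) = 0 := by
    have := co_hc 0 (n + 1 + m) (E (X 0) (1 + X 1) n : Poly)
    rw [zero_add] at this
    rw [this, Kc1.zero_E]
  have p1 : HC.co (2 * m + 1) (n + 1 + m - (2 * m + 1))
      (hc (n + 1 + m) (E (X 0) (1 + X 1) n : Poly)) ≠ 0 := by
    have := co_hc (2 * m + 1) (n - m) (E (X 0) (1 + X 1) n : Poly)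
    rw [show 2 * m + 1 + (n - m) = n + 1 + m by omega] at this
    rw [show n + 1 + m - (2 * m + 1) = n - m by omega, this]
    exact Kc1.ne_E n m (by omega)
  obtain ⟨r, hr⟩ : ∃ r, r * _ = HC.co 0 (n + 1 + m) G := ⟨_, div_mul_cancel₀ _ q0⟩
  obtain ⟨a, ha⟩ : ∃ a, a * _ = HC.co (2 * m + 1) (n + 1 + m - (2 * m + 1)) G -
      r * HC.co (2 * m + 1) (n + 1 + m - (2 * m + 1))
        (GF ((n : ℂ) + 1 / 2) (n + 1 + m) (X 1) (X 0 ^ 2)) := ⟨_, div_mul_cancel₀ _ p1⟩
  obtain ⟨b1, b2⟩ := h2 ℂ (n + 1 + m) n a r 0 1 _ hn one_ne_zero (Kc1.pt _ n a r).symm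
  have key := Kc1.uniq (m := m) (hG.sub b1) (by
      rw [hm] at hT b2
      rw [C_1, mul_one] at b2
      unfold T5 at hT ⊢
      simp only [map_sub]
      linear_combination hT - b2)
    (by rw [co_sub, co_add, co_C_mul, co_C_mul, p0, hr]; ring)
    (by rw [co_sub, co_add, co_C_mul, co_C_mul, ha]; ring)
  rw [sub_eq_zero.1 key]
  exact (h1 _ (by omega)).2.2 n a r

end Pool.Agent.MP_05b4bd_ag.CR
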