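import Pool.Agent.MP_05b4bd_ag.cr.Bas2

/-! The equation `T4` as a limit of the equation `T5`. -/

namespace Pool.Agent.MP_05b4bd_ag.CR

open MvPolynomial HC
open PC3 (sub2)

namespace Kc2

/-- The coefficients of the deformation. -/
noncomputable def F (d m : ℕ) (f : ℕ → ℂ) (τ : ℂ) : ℕ → ℂ
  | 0 => f 0
  | 1 => f 1
  | k + 2 => if k + 1 = 2 * m then f (k + 2) else
      τ * τ * F d m f τ k * (4 * (((d - (k + 2) : ℕ) : ℂ) + 2) * (((d - (k + 2) : ℕ) : ℂ) + 1) /
        (((k : ℂ) + 2) * (k + 1 - 2 * m)))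

variable {d m : ℕ} {f : ℕ → ℂ}

theorem F_ps : ∀ k, PS fun τ => F d m f τ k
  | 0 => PS.const _
  | 1 => PS.const _
  | k + 2 => by
    by_cases h : k + 1 = 2 * m
    · simp only [F, if_pos h]; exact PS.const _
    · simp only [F, if_neg h]; exact ((PS.id.mul PS.id).mul (F_ps k)).mul (PS.const _)

theorem F_odd (h1 : f 1 = 0) (τ : ℂ) : ∀ l, l < m → F d m f τ (2 * l + 1) = 0
  | 0, _ => h1
  | l + 1, h => by
    rw [show 2 * (l + 1) + 1 = 2 * l + 1 + 2 by ring, F, if_neg (by omega),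
      F_odd h1 τ l (by omega), mul_zero, zero_mul]

theorem ne (k : ℕ) (h : k + 1 ≠ 2 * m) : ((k : ℂ) + 2) * (k + 1 - 2 * m) ≠ 0 := by
  refine mul_ne_zero ?_ (sub_ne_zero.2 ?_)
  · exact_mod_cast Nat.succ_ne_zero (k + 1)
  · exact_mod_cast h

theorem sub2_hs (b : ℂ) (g : ℕ → ℂ) :
    sub2 (X 0) (C b * X 1) (hs d g) = hs d fun i => b ^ (d - i) * g i := by
  simp only [hs, map_sum, map_mul, map_pow, PC3.sub2_C, PC3.sub2_X0, PC3.sub2_X1]
  exact Finset.sum_congr rfl fun i _ => by ring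

theorem t4 {G : Poly} : T4 m G ↔
    X 0 * (pderiv 0 (pderiv 0 G) - C (0 : ℂ) * pderiv 1 (pderiv 1 G)) =
      C (2 * (m : ℂ)) * pderiv 0 G := by
  rw [T4, map_zero, zero_mul, sub_zero, map_mul, map_natCast, map_ofNat]

theorem t5 {G : Poly} : T5 m G ↔
    X 0 * (pderiv 0 (pderiv 0 G) - C (4 : ℂ) * pderiv 1 (pderiv 1 G)) =
      C (2 * (m : ℂ)) * pderiv 0 G := by
  rw [T5, map_mul, map_natCast, map_ofNat, map_ofNat]

theorem sol (h1 : 1 ≤ d → 2 * (m : ℂ) * f 1 = 0) (τ : ℂ) :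
    T5 m (hs d fun i => τ ^ (d - i) * F d m f τ i) := by
  rw [t5, rec5]
  refine ⟨fun j => ?_, fun i j => ?_⟩
  · rw [co_hs]
    split_ifs with e
    · rw [F, mul_left_comm, h1 (by omega), mul_zero]
    · rw [mul_zero]
  · rw [co_hs, co_hs]
    by_cases e : i + 2 + j = d
    · rw [if_pos e, if_pos (by omega), show d - (i + 2) = j by omega,
        show d - i = j + 2 by omega, F]
      split_ifs with k
      · have hm : (m : ℂ) ≠ 0 := Nat.cast_ne_zero.2 (by omega)
        have f1 : f 1 = 0 :=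
          (mul_eq_zero.1 (h1 (by omega))).resolve_left (mul_ne_zero two_ne_zero hm)
        have z := F_odd (d := d) (m := m) f1 τ (m - 1) (by omega)
        rw [show 2 * (m - 1) + 1 = i by omega] at z
        have k' : (i : ℂ) + 1 = 2 * m := by exact_mod_cast k
        rw [z, k']; ring
      · have := ne i k
        rw [show d - (i + 2) = j by omega, ← mul_div_assoc, ← mul_div_assoc, mul_div_assoc',
          div_eq_iff this]
        ring
    · rw [if_neg e, if_neg (by omega), mul_zero, mul_zero]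

end Kc2

open Kc2 in
theorem kc2S (h : Kc1Stmt) : Kc2Stmt := fun d n G h1 h2 hG h4 => by
  obtain ⟨r1, r2⟩ := (rec5 _ _ _).1 (t4.1 h4)
  set m := d - 1 - n
  have e : G = hs d (F d m (fun i => HC.co i (d - i) G) 0) := by
    refine hom_ext hG (hs_hom _ _) fun i j e => ?_
    rw [co_hs, if_pos e]
    obtain rfl : j = d - i := by omega
    rcases i with _ | _ | i
    · rfl
    · rfl
    · rw [F]
      split_ifs with k
      · rfl
      · have := r2 i (d - (i + 2))
        rw [zero_mul, zero_mul, zero_mul] at this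
        rw [(mul_eq_zero.1 this).resolve_left (ne i k), zero_mul, zero_mul, zero_mul]
  rw [e]
  refine Tp.lim0 (γ := fun τ => hs d (F d m (fun i => HC.co i (d - i) G) τ))
    (PC_hs d fun i _ => F_ps i) fun τ hτ => ?_
  have k := (h d n _ h1 h2 (hs_hom _ _)
    (sol (f := fun i => HC.co i (d - i) G) (fun _ => r1 _) τ)).sub
    (isHomogeneous_X ℂ 0) ((isHomogeneous_X ℂ 1).C_mul τ⁻¹)
  rw [sub2_hs] at k
  simpa only [← mul_assoc, ← mul_pow, inv_mul_cancel₀ hτ, one_pow, one_mul] using k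

end Pool.Agent.MP_05b4bd_ag.CR
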