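import Pool.Agent.MP_05b4bd_ag.cr.Bas2

/-! Row KC3: the normal form `T2 m 0` is a limit of forms of type `T5 m`. -/

namespace Pool.Agent.MP_05b4bd_ag.CR

open MvPolynomial HC
open PC3 (sub2 sub2_d sub2_X0 sub2_X1 sub2_C sub2_sub2 sub2_id)

namespace Kc3

/-- A linear change of coordinates turns the deformed equation into `T5`. -/
theorem toT5 (m : ℕ) (τ : ℂ) (G : Poly)
    (h : (X 0 - C τ * X 1) * pderiv 0 (pderiv 1 G) =
      C (m : ℂ) * pderiv 1 G - C (τ * m) * pderiv 0 G) :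
    T5 m (sub2 (HC.lf (2 * τ) τ) (HC.lf (-2) 1) G) := by
  have e := congrArg (sub2 (HC.lf (2 * τ) τ) (HC.lf (-2) 1)) h
  simp only [map_mul, map_sub, sub2_X0, sub2_X1, sub2_C, map_natCast] at e
  simp only [T5, sub2_d, lf_x, lf_y, map_add, pderiv_mul, pderiv_C, mul_zero, add_zero,
    HC.pderiv_comm]
  generalize sub2 (HC.lf (2 * τ) τ) (HC.lf (-2) 1) (pderiv 0 (pderiv 1 G)) = u at *
  generalize sub2 (HC.lf (2 * τ) τ) (HC.lf (-2) 1) (pderiv 0 (pderiv 0 G)) = u0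
  generalize sub2 (HC.lf (2 * τ) τ) (HC.lf (-2) 1) (pderiv 1 (pderiv 1 G)) = u1
  generalize sub2 (HC.lf (2 * τ) τ) (HC.lf (-2) 1) (pderiv 0 G) = v0 at *
  generalize sub2 (HC.lf (2 * τ) τ) (HC.lf (-2) 1) (pderiv 1 G) = v1 at *
  simp only [HC.lf, map_mul, map_neg, map_ofNat, map_one] at e ⊢
  linear_combination (-4) * e

theorem back {τ : ℂ} (hτ : τ ≠ 0) (G : Poly) :
    sub2 (HC.lf (τ⁻¹ / 4) (-1 / 4)) (HC.lf (τ⁻¹ / 2) (1 / 2))
      (sub2 (HC.lf (2 * τ) τ) (HC.lf (-2) 1) G) = G := by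
  have l : ∀ a b c e p q : ℂ, sub2 (HC.lf a b) (HC.lf c e) (HC.lf p q) =
      HC.lf (p * a + q * c) (p * b + q * e) := fun a b c e p q => by
    rw [HC.lf.eq_1 p q, map_add, map_mul, map_mul, sub2_C, sub2_C, sub2_X0, sub2_X1]
    simp only [HC.lf, map_add, map_mul]
    ring
  rw [sub2_sub2, l, l, show 2 * τ * (τ⁻¹ / 4) + τ * (τ⁻¹ / 2) = 1 by field_simp; norm_num,
    show 2 * τ * (-1 / 4) + τ * (1 / 2) = 0 by ring,
    show -2 * (τ⁻¹ / 4) + 1 * (τ⁻¹ / 2) = 0 by ring,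
    show (-2 * (-1 / 4) + 1 * (1 / 2) : ℂ) = 1 by norm_num]
  simp [HC.lf, sub2_id]

/-- The coefficients of the deformation, counted from `x ^ d` downwards. -/
noncomputable def u (d m : ℕ) (a b τ : ℂ) : ℕ → ℂ
  | 0 => b
  | j + 1 => if d - (j + 1) = m then a else
      ((d - (j + 1) : ℕ) + 1) * (τ * j - τ * m) * u d m a b τ j *
        ((j + 1) * ((d - (j + 1) : ℕ) - m) : ℂ)⁻¹

theorem u_PS (d m : ℕ) (a b : ℂ) : ∀ j, PS fun τ => u d m a b τ j
  | 0 => PS.const b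
  | j + 1 => by
    simp only [u]
    split_ifs
    · exact PS.const a
    · exact (((PS.const _).mul ((PS.id.mul (PS.const _)).sub (PS.id.mul (PS.const _)))).mul
        (u_PS d m a b j)).mul (PS.const _)

theorem u_zero {n m : ℕ} (a b τ : ℂ) : ∀ j, m < j → j ≤ n → u (n + 1 + m) m a b τ j = 0
  | 0, h, _ => absurd h (Nat.not_lt_zero m)
  | j + 1, h, h' => by
    rw [u, if_neg (by omega)]
    rcases Nat.lt_succ_iff_lt_or_eq.1 h with k | rfl
    · rw [u_zero a b τ j k (by omega), mul_zero, zero_mul]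
    · rw [sub_self, mul_zero, zero_mul, zero_mul]

theorem u_rec {n m : ℕ} (hm : m ≤ n) (a b τ : ℂ) (i j : ℕ) (e : i + (j + 1) = n + 1 + m) :
    ((j : ℂ) + 1) * (i - m) * u (n + 1 + m) m a b τ (j + 1) =
      ((i : ℂ) + 1) * (τ * j - τ * m) * u (n + 1 + m) m a b τ j := by
  have e' : n + 1 + m - (j + 1) = i := by omega
  rw [u, e']
  split_ifs with h
  · subst h
    rcases hm.lt_or_eq with k | k
    · rw [u_zero a b τ j (by omega) (by omega), sub_self, mul_zero, zero_mul, mul_zero]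
    · rw [show j = i by omega, sub_self, sub_self, mul_zero, zero_mul, zero_mul]
  · have h1 : ((j : ℂ) + 1) ≠ 0 := Nat.cast_add_one_ne_zero j
    have h2 : ((i : ℂ) - m) ≠ 0 := sub_ne_zero.2 (Nat.cast_injective.ne h)
    field_simp

end Kc3

open Kc3 in
theorem kc3S (h : Kc1Stmt) : Kc3Stmt := by
  intro d n G h1 h2 hG hT
  obtain ⟨m, rfl⟩ : ∃ m, d = n + 1 + m := ⟨d - 1 - n, by omega⟩
  have em : n + 1 + m - 1 - n = m := by omega
  rw [em] at hT
  have r0 := (rec1 0 (m : ℂ) 0 G).1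
    (by simpa only [T2, map_zero, zero_mul, sub_zero] using hT)
  let γ : ℂ → Poly := fun τ => hs (n + 1 + m) fun i =>
    u (n + 1 + m) m (HC.co m (n + 1) G) (HC.co (n + 1 + m) 0 G) τ (n + 1 + m - i)
  have g0 : γ 0 = G := hom_ext (hs_hom _ _) hG fun i j e => by
    rw [co_hs, if_pos e, show n + 1 + m - i = j by omega]
    rcases j with _ | j
    · rw [u, show i = n + 1 + m from e]
    · rw [u, show n + 1 + m - (j + 1) = i by omega]
      split_ifs with k
      · rw [k, show j = n by omega]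
      · have := r0 i j
        rw [zero_mul, sub_zero, mul_zero, zero_mul] at this
        rw [(mul_eq_zero.1 this).resolve_left (mul_ne_zero (Nat.cast_add_one_ne_zero j)
          (sub_ne_zero.2 (Nat.cast_injective.ne k)))]
        simp
  rw [← g0]
  refine Tp.lim0 (PC_hs _ fun i _ => u_PS _ _ _ _ _) fun τ hτ => ?_
  have r : (X 0 - C τ * X 1) * pderiv 0 (pderiv 1 (γ τ)) =
      C (m : ℂ) * pderiv 1 (γ τ) - C (τ * m) * pderiv 0 (γ τ) := by
    refine (rec1 τ m (τ * m) _).2 fun i j => ?_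
    rw [co_hs, co_hs]
    by_cases e : i + (j + 1) = n + 1 + m
    · rw [if_pos e, if_pos (by omega), show n + 1 + m - i = j + 1 by omega,
        show n + 1 + m - (i + 1) = j by omega]
      exact u_rec (by omega) _ _ τ i j e
    · rw [if_neg e, if_neg (by omega), mul_zero, mul_zero]
  have t := h _ n _ h1 h2 (sub2_hom (lf_hom _ _) (lf_hom _ _) (hs_hom _ _))
    (em.symm ▸ toT5 m τ (γ τ) r)
  have := t.sub (lf_hom (τ⁻¹ / 4) (-1 / 4)) (lf_hom (τ⁻¹ / 2) (1 / 2))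
  rwa [back hτ] at this

end Pool.Agent.MP_05b4bd_ag.CR
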