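import Pool.Agent.MP_05b4bd_ag.cr.Bas2

/-! The three criteria, from the block statements. -/

namespace Pool.Agent.MP_05b4bd_ag.CR

open MvPolynomial HC
open ES.U (TM)
open PC3 (Fm fm d1 wg dv rr DF sub2 mapF H2 H3)
open UM (HP)

variable {d : ℕ} {f : Poly}

theorem Top.mem {W : Set Form} (hf : DL (d + 1) f) (h : Top d W (hc d f)) : dform f ∈ zcl W := by
  have := h _ hf.sub_hc
  rwa [add_sub_cancel] at this

theorem T1.C_mul {A : Type} [CommRing A] {α β : A} {G : R2 A} (h : T1 α β G) (c : A) :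
    T1 α β (C c * G) := by
  rw [T1] at h ⊢
  rw [pderiv_C_mul, pderiv_C_mul, pderiv_C_mul]
  linear_combination C c * h

theorem crit1 (uni : UniStmt) (val : ValStmt) (na : NaStmt) (sj : SjStmt) (sb : SubStmt)
    (cl : ClStmt) (ds : DscStmt) (nf : NfaStmt) (k1 : Ka1Stmt) (k2 : Ka2Stmt) (k3 : Ka3Stmt)
    (hd : 3 ≤ d) (t : TM d f) : dform f ∈ zcl (L ![1, 1, d - 1]) ↔ Syz (hc d f) := by
  constructor
  · intro h
    obtain ⟨-, σ, U, h1, h2⟩ := (uni d (by omega)).1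
    obtain ⟨V, K, κ, _, _, _, _, _, _, ι, ρ, φ, j, P, r⟩ := val σ U _ _ h1 h
    obtain ⟨a, b, α, β, c, ha, hb, e⟩ := na V K κ ι ρ d _ (map j f) P hd (t.map j)
      (by rw [← PC3.mapF_d1]; exact r) (h2 K φ)
    have hJ : (JF α β d).IsHomogeneous d := hs_hom _ _
    obtain ⟨s1, -, s3, -⟩ := sb K d a b _ ha hb (hJ.C_mul c)
    have := (cl V K κ ι ρ _ _ P e).1 (s1 (s3 α β (((sj K α β).2 d).C_mul c)))
    rw [hc_map] at this
    exact (ds κ j _).1 this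
  · intro h
    obtain ⟨a, b, G, ha, hb, hG, e, α, β, k⟩ := nf d _ hd (hc_hom d f) t.ci h
    refine Top.mem t.dl ?_
    rw [e]
    rcases k with k | k | ⟨k0, k⟩
    exacts [k1 d α β G (by omega) hG k a b ha hb, k2 d α β G (by omega) hG k a b ha hb,
      k3 d β G (by omega) hG k0 k a b ha hb]

theorem crit2 (uni : UniStmt) (val : ValStmt) (nb : NbStmt) (sg : SgStmt) (eq : EqbStmt)
    (cg : CgStmt) (ds : DscStmt) (kb : KbStmt) (hd : 3 ≤ d) (t : TM d f) :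
    dform f ∈ zcl (L ![2, d - 1]) ↔ Geg d (hc d f) := by
  refine ⟨fun h => ?_, fun h => Top.mem t.dl (kb d _ hd t.ci h)⟩
  obtain ⟨-, σ, U, h1, h2⟩ := (uni d (by omega)).2.1
  obtain ⟨V, K, κ, _, _, _, _, _, _, ι, ρ, φ, j, P, r⟩ := val σ U _ _ h1 h
  obtain ⟨a, q, α, c, ha, hq, e⟩ := (nb V K κ ι ρ d _ (map j f) P hd (t.map j)
    (by rw [← PC3.mapF_d1]; exact r)).1 (h2 K φ)
  have := (eq κ d _).2 inferInstance hd (t.map j).ci (cg V K κ ι ρ d _ _ P hd e (t.map j).ci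
    ((eq K d _).1 ((sg K α a q ha hq).2 d c)))
  rw [hc_map] at this
  exact (ds κ j _).2.1 d this

theorem crit3 (uni : UniStmt) (val : ValStmt) (nb : NbStmt) (al : AlStmt) (cl : ClStmt)
    (ds : DscStmt) (nf : NfcStmt) (k1 : Kc1Stmt) (k2 : Kc2Stmt) (k3 : Kc3Stmt) (hd : 3 ≤ d)
    (t : TM d f) {n : ℕ} (n1 : d ≤ 2 * n + 1) (n2 : n < d) :
    dform f ∈ zcl (PN d n) ↔ Epd (d - 1 - n) (hc d f) := by
  constructor
  · intro h
    obtain ⟨-, σ, U, h1, h2⟩ := (uni d (by omega)).2.2 n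
    obtain ⟨V, K, κ, _, _, _, _, _, _, ι, ρ, φ, j, P, r⟩ := val σ U _ _ h1 h
    obtain ⟨a, s, u, v, hu, hv, h0, e⟩ := (nb V K κ ι ρ d _ (map j f) P hd (t.map j)
      (by rw [← PC3.mapF_d1]; exact r)).2 n (h2 K φ)
    have := (cl V K κ ι ρ _ _ P e).2 _ (al K d n a s u v n2 hu hv h0)
    rw [hc_map] at this
    exact (ds κ j _).2.2 _ this
  · intro h
    obtain ⟨a, b, G, ha, hb, hG, e, k⟩ := nf d _ _ hd (hc_hom d f) t.ci h
    refine Top.mem t.dl ?_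
    rw [e]
    rcases k with k | k | k
    exacts [k1 d n G n1 n2 hG k a b ha hb, k2 d n G n1 n2 hG k a b ha hb,
      k3 d n G n1 n2 hG k a b ha hb]

end Pool.Agent.MP_05b4bd_ag.CR
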