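import Pool.Agent.MP_05b4bd_ag.cr.Bas2

/-! The top form of a limit of the family with two lines. -/

namespace Pool.Agent.MP_05b4bd_ag.CR

open MvPolynomial HC
open ES.U (TM)
open PC3 (Fm fm d1 wg dv rr DF sub2 mapF H2 H3)
open UM (HP)

namespace Na

variable {V K κ : Type} [CommRing V] [Field K] [Field κ] {ι : V →+* K} {ρ : V →+* κ}

theorem d1_ne {d : ℕ} {f : R2 κ} (hd : 3 ≤ d) (hf : TM d f) : d1 f ≠ 0 := by
  obtain ⟨e, rfl⟩ : ∃ e, d = e + 1 + 1 := ⟨d - 2, by omega⟩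
  intro h
  have h0 : pderiv 0 f = 0 := neg_eq_zero.1 (congrArg Prod.snd h)
  have h1 := hf.ci
  rw [← hc_pderiv, ← hc_pderiv] at h1
  exact h1.ne_zero (hc_hom _ _) (by rw [h0]; exact map_zero _)

theorem split {u v : R2 K} (h : Rd ι ρ (u + v) 0) (hu : u.IsHomogeneous 0)
    (hv : v.IsHomogeneous 1) : Rd ι ρ u 0 ∧ Rd ι ρ v 0 := by
  have h0 := h.hc 0
  have h1 := h.hc 1
  rw [hc_add, hc_self hu, hc_ne hv (by decide), add_zero, (DL.zero 0).hc_eq le_rfl] at h0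
  rw [hc_add, hc_self hv, hc_ne hu (by decide), zero_add, (DL.zero 1).hc_eq le_rfl] at h1
  exact ⟨h0, h1⟩

theorem line [CharZero κ] [IsAlgClosed κ] (h1 : InvStmt) {d : ℕ} {w : Fm K} {f : R2 κ}
    (P : Pl ι ρ) (hd : 3 ≤ d) (hf : TM d f) (hw : RdF ι ρ w (d1 f)) {s h : R2 K} (h0 : s ≠ 0)
    (hs : DL 2 s) (e : wg (d1 s) w = h * s) :
    ∃ (s0 : K) (a : R2 K), a.IsHomogeneous 1 ∧ Rd ι ρ a 0 ∧ s = C s0 * (1 + a) := by
  obtain ⟨-, r1, -, e1⟩ := h1 V K κ ι ρ d w f s h P hd hf hw h0 (hs.mono (by omega)) e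
  rw [hs.hc_eq le_rfl, mul_zero, add_zero] at e1
  exact ⟨_, _, (hc_hom 1 s).C_mul _, r1, e1⟩

end Na

open Na in
theorem naS (h1 : InvStmt) (h2 : DomStmt) (h3 : RecStmt) (h4 : SjStmt) : NaStmt := by
  intro V K κ _ _ _ _ _ _ ι ρ d w f P hd hf hw hH
  obtain ⟨s, t, G, l1, l2, l3, hs, ht, hG, ew⟩ := hH
  have w0 : w ≠ 0 := fun e => d1_ne hd hf ((e ▸ hw).uniq P RdF.zero)
  have s0 : s ≠ 0 := fun e => w0 (by rw [ew, e]; simp [fm])
  have t0 : t ≠ 0 := fun e => w0 (by rw [ew, e]; simp [fm])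
  obtain ⟨σ, a, ha, ra, rfl⟩ := line h1 P hd hf hw s0 hs
    (h := C l2 * G * br s t + C l3 * t * br s G)
    (by simp only [ew, wg, d1, fm, br, Prod.fst_add, Prod.snd_add]; ring)
  obtain ⟨τ, b, hb, rb, rfl⟩ := line h1 P hd hf hw t0 ht
    (h := C l1 * G * br t (C σ * (1 + a)) + C l3 * (C σ * (1 + a)) * br t G)
    (by simp only [ew, wg, d1, fm, br, Prod.fst_add, Prod.snd_add]; ring)
  have da : DL 2 a := DL.of_hom ha
  have db : DL 2 b := DL.of_hom hb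
  have d1a : DL 2 (1 + a) := ((DL_C 1).mono (by omega)).add da
  have d1b : DL 2 (1 + b) := ((DL_C 1).mono (by omega)).add db
  obtain ⟨η, hη⟩ : ∃ η, η = fm (C (-(σ * τ * l1)) * (1 + b)) a + fm (C (-(σ * τ * l2)) * (1 + a)) b :=
    ⟨_, rfl⟩
  have e1 : w = fm (C (σ * τ * l3) * ((1 + a) * (1 + b))) G - G • η := by
    rw [ew, hη]
    exact Prod.ext (by simp [fm]; ring) (by simp [fm]; ring)
  obtain ⟨l0, r0⟩ := h2 V K κ ι ρ d η f ((1 + a) * (1 + b)) G (σ * τ * l3) P hd hf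
    (by simpa using (Rd.one.add ra).mul (Rd.one.add rb))
    (hη ▸ (PC3.DF.fm (a := 1) (n := 1) (d1b.C_mul _) da).add
      (PC3.DF.fm (a := 1) (n := 1) (d1a.C_mul _) db))
    (by
      rw [rr, hη, PC3.dv_add, PC3.dv_fm, PC3.dv_fm]
      simp [br, wg, d1, fm]
      ring)
    (e1 ▸ hw)
  generalize σ * τ * l3 = l at l0 r0 e1
  have S := (h4 K (l⁻¹ * -(σ * τ * l1)) (l⁻¹ * -(σ * τ * l2))).1 a b ha hb
  have e2 : (C l⁻¹ : R2 K) • η =
      (fm (C (l⁻¹ * -(σ * τ * l1))) a + fm (C (l⁻¹ * -(σ * τ * l2))) b) +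
      (fm (C (l⁻¹ * -(σ * τ * l1)) * b) a + fm (C (l⁻¹ * -(σ * τ * l2)) * a) b) := by
    rw [hη]
    exact Prod.ext (by simp [fm]; ring) (by simp [fm]; ring)
  have e3 : w = (1 + (a + b) + a * b) • d1 (C l * G) - (C l * G) • (C l⁻¹ : R2 K) • η := by
    rw [e1, smul_smul, mul_right_comm, ← map_mul, mul_inv_cancel₀ l0, map_one, one_mul,
      PC3.d1_C_mul, PC3.fm_eq, smul_smul]
    congr 2
    ring
  rw [e2] at r0 e3
  have p1 := split r0.1 S.g0.1 S.g1.1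
  have p2 := split r0.2 S.g0.2 S.g1.2
  have h5 := h3 V K κ ι ρ _ _ (C l * G) _ _ _ f P S (by simpa using ra.add rb)
    (by simpa using ra.mul rb) ⟨p1.1, p2.1⟩ ⟨p1.2, p2.2⟩ (e3 ▸ hw) d (by omega)
  refine ⟨a, b, l⁻¹ * -(σ * τ * l1), l⁻¹ * -(σ * τ * l2), -coeff 0 (C l * G), ha, hb, ?_⟩
  rw [(hG.C_mul l).hc_eq le_rfl, zero_sub] at h5
  rwa [map_mul, PC3.sub2_C, map_neg, neg_mul]

end Pool.Agent.MP_05b4bd_ag.CR
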