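import Pool.Agent.MP_05b4bd_ag.cr.Bas2

/-! The top form of a reduction of a member of the conic and of the parabolic family. -/

namespace Pool.Agent.MP_05b4bd_ag.CR

open MvPolynomial HC
open ES.U (TM)
open PC3 (Fm fm d1 wg dv rr DF sub2 mapF H2 H3)
open UM (HP)

namespace Nb
variable {V K κ : Type} [CommRing V] [Field K] [Field κ] {ι : V →+* K} {ρ : V →+* κ}

theorem w_ne (P : Pl ι ρ) {d : ℕ} (hd : 3 ≤ d) {f : R2 κ} (hf : TM d f) {w : Fm K}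
    (hw : RdF ι ρ w (d1 f)) : w ≠ 0 := by
  rintro rfl
  obtain ⟨e, rfl⟩ : ∃ e, d = e + 2 := ⟨d - 2, by omega⟩
  have h0 : -pderiv 0 f = 0 := congrArg Prod.snd (hw.uniq P RdF.zero)
  refine hf.ci.ne_zero (hom_pderiv 1 (hc_hom (e + 2) f)) ?_
  rw [← hc_pderiv, neg_eq_zero.1 h0]
  exact map_zero _

theorem split {u v : R2 K} (hu : u.IsHomogeneous 0) (hv : v.IsHomogeneous 1)
    (h : Rd ι ρ (u + v) 0) : Rd ι ρ u 0 ∧ Rd ι ρ v 0 := by
  have h0 := h.hc 0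
  have h1 := h.hc 1
  rw [hc_add, hc_self hu, hc_ne hv (by omega), add_zero, show hc 0 (0 : R2 κ) = 0 from map_zero _]
    at h0
  rw [hc_add, hc_self hv, hc_ne hu (by omega), zero_add, show hc 1 (0 : R2 κ) = 0 from map_zero _]
    at h1
  exact ⟨h0, h1⟩

theorem d1_Q (a q : R2 K) : d1 (1 + a + q) = d1 a + d1 q := by
  rw [PC3.d1_add, PC3.d1_add, ← C_1, PC3.d1_C, zero_add]

theorem fm0 {A : Type} [CommRing A] (g : R2 A) : fm g 0 = 0 := by simp [fm]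

end Nb

open Nb in
theorem nbS (h1 : InvStmt) (h2 : DomStmt) (h3 : RecStmt) (h4 : SgStmt) : NbStmt := by
  intro V K κ _ _ _ _ _ _ ι ρ d w f P hd hf hw
  have w0 := w_ne P hd hf hw
  refine ⟨?_, ?_⟩
  · rintro ⟨F, G, β, α, hF, hG, e⟩
    rw [show d - 1 + 1 = d by omega] at hG
    have F0 : F ≠ 0 := by
      rintro rfl
      exact w0 (by rw [e, fm0, mul_zero, PC3.fm_eq, zero_smul, add_zero])
    obtain ⟨c0, ha, hq, eF⟩ := h1 V K κ ι ρ d w f F (C β * wg (d1 F) (d1 G)) P hd hf hw F0 hF (by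
      rw [e, PC3.fm_eq, PC3.fm_eq, PC3.wg_add', PC3.wg_smul', PC3.wg_smul', PC3.wg_self]; ring)
    have a1 : (C (coeff 0 F)⁻¹ * hc 1 F).IsHomogeneous 1 := (hc_hom 1 F).C_mul _
    have q2 : (C (coeff 0 F)⁻¹ * hc 2 F).IsHomogeneous 2 := (hc_hom 2 F).C_mul _
    generalize C (coeff 0 F)⁻¹ * hc 1 F = a at ha eF a1
    generalize C (coeff 0 F)⁻¹ * hc 2 F = q at hq eF q2
    generalize coeff 0 F = c at c0 eF
    have hQ : DL 3 (1 + a + q) := by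
      have := hF
      rw [eF] at this
      exact this.of_C_mul c0
    have e1 : w = fm (C (β * c) * (1 + a + q)) G - G • (C (-(α * c)) : R2 K) • d1 (1 + a + q) := by
      rw [e, eF, PC3.fm_eq, PC3.fm_eq, PC3.fm_eq, PC3.d1_C_mul, map_neg, map_mul, map_mul]
      module
    obtain ⟨l0, hη⟩ := h2 V K κ ι ρ d _ f (1 + a + q) G (β * c) P hd hf
      (by simpa using (Rd.one.add ha).add hq) ((PC3.DF.d1 hQ).C_smul (-(α * c)))
      (by rw [rr, PC3.dv_C_smul, PC3.dv_d1, PC3.wg_smul', PC3.wg_self]; ring) (e1 ▸ hw)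
    have S := (h4 K ((β * c)⁻¹ * -(α * c)) a q a1 q2).1
    have e2 : (C (β * c)⁻¹ : R2 K) • (C (-(α * c)) : R2 K) • d1 (1 + a + q) =
        fm (C ((β * c)⁻¹ * -(α * c))) a + fm (C ((β * c)⁻¹ * -(α * c))) q := by
      rw [PC3.fm_eq, PC3.fm_eq, d1_Q, map_mul]
      module
    rw [e2] at hη
    have k1 := split S.g0.1 S.g1.1 hη.1
    have k2 := split S.g0.2 S.g1.2 hη.2
    have k := h3 V K κ ι ρ a q (C (β * c) * G) _ _ _ f P S ha hq ⟨k1.1, k2.1⟩ ⟨k1.2, k2.2⟩ (by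
      rw [← e2, PC3.d1_C_mul, smul_smul (C (β * c) * G), mul_right_comm, ← map_mul,
        mul_inv_cancel₀ l0, map_one, one_mul, smul_smul, mul_comm, ← PC3.fm_eq, ← e1]
      exact hw) d (by omega)
    refine ⟨a, q, (β * c)⁻¹ * -(α * c), -coeff 0 (C (β * c) * G), a1, q2, ?_⟩
    rwa [hc_C_mul, hG.hc_eq le_rfl, mul_zero, zero_sub, ← neg_mul, ← map_neg] at k
  · rintro n ⟨a0, u, v, g, R, hu, hv, hg, eR, e⟩
    have hF : DL 3 (u ^ 2 + v) := (hu.pow 2).add (hv.mono (by omega))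
    have F0 : u ^ 2 + v ≠ 0 := fun h =>
      w0 (by rw [e, h, fm0, mul_zero, PC3.fm_eq, zero_smul, sub_zero])
    obtain ⟨c0, ha, hq, eF⟩ := h1 V K κ ι ρ d w f _ (2 * wg (d1 (u ^ 2 + v)) (d1 R)) P hd hf hw F0
      hF (by
        rw [e, PC3.fm_eq, PC3.fm_eq, PC3.wg_sub', PC3.wg_smul', PC3.wg_smul', PC3.wg_self]; ring)
    refine ⟨2 * coeff 0 (u ^ 2 + v) * a0, -coeff 0 (C (2 * coeff 0 (u ^ 2 + v)) * R), u, v, hu, hv,
      c0, ?_⟩
    unfold PT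
    have a1 : (C (coeff 0 (u ^ 2 + v))⁻¹ * hc 1 (u ^ 2 + v)).IsHomogeneous 1 := (hc_hom 1 _).C_mul _
    have q2 : (C (coeff 0 (u ^ 2 + v))⁻¹ * hc 2 (u ^ 2 + v)).IsHomogeneous 2 := (hc_hom 2 _).C_mul _
    generalize C (coeff 0 (u ^ 2 + v))⁻¹ * hc 1 (u ^ 2 + v) = a at ha eF a1 ⊢
    generalize C (coeff 0 (u ^ 2 + v))⁻¹ * hc 2 (u ^ 2 + v) = q at hq eF q2 ⊢
    generalize coeff 0 (u ^ 2 + v) = c at c0 eF ⊢
    have hα : Rs ι ρ ((n : K) + 1 / 2) ((n : κ) + 1 / 2) := by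
      have := (Rs.nat (ι := ι) (ρ := ρ) 2).inv P (by norm_num)
      rw [one_div, one_div]
      exact (Rs.nat n).add (by simpa using this)
    have S := (h4 K ((n : K) + 1 / 2) a q a1 q2).1
    have e2 : (C (2 * c) : R2 K) * C ((n : K) + 1 / 2) = (2 * (n : R2 K) + 1) * C c := by
      rw [← map_mul, show 2 * c * ((n : K) + 1 / 2) = (2 * n + 1) * c by ring]
      simp [map_ofNat]
    have k := h3 V K κ ι ρ a q (C (2 * c) * R) _ _ _ f P S ha hq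
      (fm0 (C ((n : κ) + 1 / 2)) ▸ RdF.fm hα.toC ha) (fm0 (C ((n : κ) + 1 / 2)) ▸ RdF.fm hα.toC hq)
      (by
        have e3 : (1 + a + q) • d1 (C (2 * c) * R) - (C (2 * c) * R) •
            (fm (C ((n : K) + 1 / 2)) a + fm (C ((n : K) + 1 / 2)) q) = w := by
          rw [e, eF, PC3.fm_eq, PC3.fm_eq, PC3.fm_eq, PC3.fm_eq, PC3.d1_C_mul, PC3.d1_C_mul, d1_Q,
            ← smul_add, smul_smul (C (2 * c) * R), mul_right_comm, e2, map_mul, map_ofNat]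
          module
        rw [e3]; exact hw) d (by omega)
    rw [hc_C_mul] at k
    nth_rw 1 [eR] at k
    rwa [hc_add, hg.hc_eq le_rfl, add_zero, hc_C_mul, ← mul_assoc, ← map_mul, sub_eq_add_neg,
      ← neg_mul, ← map_neg] at k

end Pool.Agent.MP_05b4bd_ag.CR
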