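import Pool.Agent.MP_05b4bd_ag.cr.Bas2
import Mathlib.Analysis.Complex.Polynomial.Basic

/-! Normal forms of a linear relation between the second derivatives of a binary form. -/

namespace Pool.Agent.MP_05b4bd_ag.CR

open MvPolynomial HC
open PC3 (sub2 sub2_d sub2_X0 sub2_X1 sub2_C sub2_sub2 sub2_id)

namespace Nfa

/-- The relation, reduced with the identities of Euler. -/
def Eq6 (c0 c1 c2 c3 u v : ℂ) (G : Poly) : Prop :=
  C c0 * (X 1 * pderiv 0 (pderiv 0 G)) + C c1 * (X 1 * pderiv 0 (pderiv 1 G)) +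
    C c2 * (X 0 * pderiv 0 (pderiv 1 G)) + C c3 * (X 0 * pderiv 1 (pderiv 1 G)) +
    C u * pderiv 0 G + C v * pderiv 1 G = 0

def Ok (d : ℕ) (G : Poly) : Prop := G.IsHomogeneous d ∧ Sq G

def Nf (d : ℕ) (F : Poly) : Prop :=
  ∃ a b G : Poly, a.IsHomogeneous 1 ∧ b.IsHomogeneous 1 ∧ G.IsHomogeneous d ∧ F = sub2 a b G ∧
    ∃ α β, T1 α β G ∨ T2 α β G ∨ β ≠ 0 ∧ T3 β G

variable {n d : ℕ} {F : Poly} {c c0 c1 c2 c3 u v : ℂ}

theorem hx (i : Fin 2) : (X i : Poly).IsHomogeneous 1 := isHomogeneous_X ℂ i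

theorem Nf.of {α β : ℂ} (hF : Ok d F) (h : T1 α β F ∨ T2 α β F ∨ β ≠ 0 ∧ T3 β F) : Nf d F :=
  ⟨X 0, X 1, F, hx 0, hx 1, hF.1, (sub2_id F).symm, α, β, h⟩

theorem step (h : SubStmt) (hd : 2 ≤ d) (hF : Ok d F) {a b a' b' : Poly} (ha : a.IsHomogeneous 1)
    (hb : b.IsHomogeneous 1) (ha' : a'.IsHomogeneous 1) (hb' : b'.IsHomogeneous 1)
    (e0 : sub2 a b a' = X 0) (e1 : sub2 a b b' = X 1)
    (k : Ok d (sub2 a' b' F) → Nf d (sub2 a' b' F)) : Nf d F := by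
  have e : sub2 a b (sub2 a' b' F) = F := by rw [sub2_sub2, e0, e1, sub2_id]
  have hG := sub2_hom ha' hb' hF.1
  obtain ⟨s, t, G, hs, ht, h1, h2, h3⟩ :=
    k ⟨hG, ((h ℂ d a b _ ha hb hG).2.2.2 hd (e.symm ▸ hF.2)).2⟩
  exact ⟨_, _, G, sub2_hom ha hb hs, sub2_hom ha hb ht, h1, by rw [← e, h2, sub2_sub2], h3⟩

theorem eul (hF : F.IsHomogeneous (n + 1)) :
    X 0 * pderiv 0 (pderiv 0 F) + X 1 * pderiv 0 (pderiv 1 F) = (n : Poly) * pderiv 0 F ∧
    X 0 * pderiv 0 (pderiv 1 F) + X 1 * pderiv 1 (pderiv 1 F) = (n : Poly) * pderiv 1 F := by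
  have := euler (hom_pderiv 0 hF)
  rw [pderiv_comm] at this
  exact ⟨this, euler (hom_pderiv 1 hF)⟩

theorem swap (h : SubStmt) (hd : 2 ≤ d) (hF : Ok d F) (E : Eq6 c0 c1 c2 c3 u v F)
    (k : ∀ G, Ok d G → Eq6 c3 c2 c1 c0 v u G → Nf d G) : Nf d F := by
  refine step h hd hF (hx 1) (hx 0) (hx 1) (hx 0) sub2_X1 sub2_X0 fun o => k _ o ?_
  have d0 : ∀ w : Poly, pderiv 0 (sub2 (X 1) (X 0) w) = sub2 (X 1) (X 0) (pderiv 1 w) :=
    fun w => by simp [sub2_d]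
  have d1 : ∀ w : Poly, pderiv 1 (sub2 (X 1) (X 0) w) = sub2 (X 1) (X 0) (pderiv 0 w) :=
    fun w => by simp [sub2_d]
  have := congrArg (sub2 (X 1) (X 0)) E
  simp only [map_add, map_mul, sub2_C, sub2_X0, sub2_X1, map_zero] at this
  simp only [Eq6, d0, d1, pderiv_comm]
  linear_combination this

theorem shear (h : SubStmt) (hd : 1 ≤ n) (hF : Ok (n + 1) F) (E : Eq6 c0 c1 c2 c3 u v F) (l : ℂ)
    (k : ∀ G, Ok (n + 1) G → Eq6 c0 (c1 - 3 * l * c0) (c2 + 2 * l * c1 - 3 * l ^ 2 * c0)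
      (c0 * l ^ 3 - c1 * l ^ 2 - c2 * l + c3) (u + c0 * l * n)
      (v - l * u + (c0 * l ^ 2 - c1 * l) * n) G → Nf (n + 1) G) : Nf (n + 1) F := by
  refine step h (by omega) hF (hx 0) ((hx 1).add (isHomogeneous_C_mul_X (-l) 0)) (hx 0)
    ((hx 1).add (isHomogeneous_C_mul_X l 0)) sub2_X0 ?_ fun o => k _ o ?_
  · simp only [map_add, map_mul, sub2_C, sub2_X0, sub2_X1, map_neg]
    ring
  have d0 : ∀ w : Poly, pderiv 0 (sub2 (X 0) (X 1 + C l * X 0) w) =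
      sub2 (X 0) (X 1 + C l * X 0) (pderiv 0 w) + C l * sub2 (X 0) (X 1 + C l * X 0) (pderiv 1 w) :=
    fun w => by simp [sub2_d, mul_comm]
  have d1 : ∀ w : Poly, pderiv 1 (sub2 (X 0) (X 1 + C l * X 0) w) =
      sub2 (X 0) (X 1 + C l * X 0) (pderiv 1 w) := fun w => by simp [sub2_d]
  have e := congrArg (sub2 (X 0) (X 1 + C l * X 0)) E
  have e1 := congrArg (sub2 (X 0) (X 1 + C l * X 0)) (eul hF.1).1
  have e2 := congrArg (sub2 (X 0) (X 1 + C l * X 0)) (eul hF.1).2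
  simp only [map_add, map_mul, sub2_C, sub2_X0, sub2_X1, map_zero, map_natCast] at e e1 e2
  simp only [Eq6, d0, d1, map_add, pderiv_C_mul, pderiv_comm, map_sub, map_mul, map_pow,
    map_natCast, map_ofNat]
  linear_combination e - C c0 * C l * (e1 + C l * e2) - (C c0 * C l ^ 2 - C c1 * C l) * e2

theorem scale (h : SubStmt) (hd : 2 ≤ d) (hF : Ok d F) (E : Eq6 0 c1 c2 0 u v F) {t : ℂ}
    (ht : t ≠ 0) (k : ∀ G, Ok d G → Eq6 0 (c1 * t) c2 0 (u * t) v G → Nf d G) : Nf d F := by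
  refine step h hd hF (hx 0) (isHomogeneous_C_mul_X t⁻¹ 1) (hx 0) (isHomogeneous_C_mul_X t 1)
    sub2_X0 ?_ fun o => k _ o ?_
  · rw [map_mul, sub2_C, sub2_X1, ← mul_assoc, ← map_mul, mul_inv_cancel₀ ht, map_one, one_mul]
  have d0 : ∀ w : Poly, pderiv 0 (sub2 (X 0) (C t * X 1) w) = sub2 (X 0) (C t * X 1) (pderiv 0 w) :=
    fun w => by simp [sub2_d]
  have d1 : ∀ w : Poly, pderiv 1 (sub2 (X 0) (C t * X 1) w) =
      C t * sub2 (X 0) (C t * X 1) (pderiv 1 w) := fun w => by simp [sub2_d, mul_comm]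
  have e := congrArg (sub2 (X 0) (C t * X 1)) E
  simp only [map_add, map_mul, sub2_C, sub2_X0, sub2_X1, map_zero] at e
  simp only [Eq6, d0, d1, pderiv_C_mul, map_mul, map_zero]
  linear_combination C t * e

theorem cinv (hc : c ≠ 0) : (C c * C c⁻¹ : Poly) = 1 := by
  rw [← map_mul, mul_inv_cancel₀ hc, map_one]

theorem nf1 (hF : Ok d F) (hc : c ≠ 0) (E : Eq6 0 (-c) c 0 u v F) : Nf d F := by
  refine Nf.of (α := -v * c⁻¹) (β := u * c⁻¹) hF (.inl ?_)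
  simp only [Eq6, T1, map_mul, map_neg, map_zero] at E ⊢
  linear_combination C c⁻¹ * E - (X 0 - X 1) * pderiv 0 (pderiv 1 F) * cinv hc

theorem nf2 (hF : Ok d F) (hc : c ≠ 0) (E : Eq6 0 0 c 0 u v F) : Nf d F := by
  refine Nf.of (α := -v * c⁻¹) (β := u * c⁻¹) hF (.inr (.inl ?_))
  simp only [Eq6, T2, map_mul, map_neg, map_zero] at E ⊢
  linear_combination C c⁻¹ * E - X 0 * pderiv 0 (pderiv 1 F) * cinv hc

theorem nf3 (hF : Ok d F) (hc : c ≠ 0) (hu : u ≠ 0) (E : Eq6 0 0 0 c u 0 F) : Nf d F := by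
  refine Nf.of (α := 0) (β := u * c⁻¹) hF (.inr (.inr ⟨mul_ne_zero hu (inv_ne_zero hc), ?_⟩))
  simp only [Eq6, T3, map_mul, map_zero] at E ⊢
  linear_combination C c⁻¹ * E - X 0 * pderiv 1 (pderiv 1 F) * cinv hc

theorem not_unit {w : Poly} (hw : w.IsHomogeneous (n + 1)) : ¬ IsUnit w := fun h => by
  have h0 : constantCoeff w = 0 := hw.coeff_eq_zero (by simp)
  exact not_isUnit_zero (h0 ▸ h.map (constantCoeff : Poly →+* ℂ))

theorem dvd_of_C {a w : Poly} (hc : c ≠ 0) (h : a ∣ C c * w) : a ∣ w := by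
  have := h.mul_left (C c⁻¹)
  rwa [← mul_assoc, mul_comm (C c⁻¹), cinv hc, one_mul] at this

theorem dvd_of_nat {a w : Poly} (h : a ∣ ((n + 1 : ℕ) : Poly) * w) : a ∣ w :=
  dvd_of_C (c := ((n + 1 : ℕ) : ℂ)) (Nat.cast_ne_zero.2 n.succ_ne_zero) (by rwa [map_natCast])

/-- A first order relation is impossible. -/
theorem no1 (hF : Ok (n + 2) F) (E : Eq6 0 0 0 0 u v F) : u = 0 ∧ v = 0 := by
  simp only [Eq6, map_zero, zero_mul, zero_add] at E
  have r := CI.relPrime hF.2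
  constructor
  · by_contra hu
    refine not_unit (hom_pderiv 1 hF.1) (r (dvd_of_C hu ⟨-C v, ?_⟩) dvd_rfl)
    linear_combination E
  · by_contra hv
    refine not_unit (hom_pderiv 0 hF.1) (r dvd_rfl (dvd_of_C hv ⟨-C u, ?_⟩))
    linear_combination E

/-- The degenerate case of a triple factor is impossible. -/
theorem no3 (hF : Ok (n + 3) F) (hc : c ≠ 0) (E : Eq6 0 0 0 c 0 v F) : False := by
  simp only [Eq6, map_zero, zero_mul, zero_add, add_zero] at E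
  obtain ⟨e1, e2⟩ := eul hF.1
  suffices k : X 0 ∣ pderiv 1 F ∧ X 0 ∣ pderiv 0 (pderiv 1 F) by
    refine not_unit (hx 0) (CI.relPrime hF.2 (dvd_of_nat (n := n + 1) ?_) k.1)
    rw [← e1]
    exact (dvd_mul_right _ _).add (k.2.mul_left _)
  by_cases hv : v = 0
  · have h1 : pderiv 1 (pderiv 1 F) = 0 := by
      rw [hv, map_zero, zero_mul, add_zero] at E
      exact (mul_eq_zero.1 ((mul_eq_zero.1 E).resolve_left (C_ne_zero.2 hc))).resolve_left
        (X_ne_zero 0)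
    have e3 := (eul (hom_pderiv 1 hF.1)).1
    rw [h1, map_zero, mul_zero, add_zero] at e3
    rw [h1, mul_zero, add_zero] at e2
    exact ⟨dvd_of_nat (n := n + 1) ⟨_, e2.symm⟩, dvd_of_nat ⟨_, e3.symm⟩⟩
  · obtain ⟨w, hw⟩ : X 0 ∣ pderiv 1 F :=
      dvd_of_C hv ⟨-(C c * pderiv 1 (pderiv 1 F)), by linear_combination E⟩
    refine ⟨⟨w, hw⟩, dvd_of_C hv ?_⟩
    have h1 : pderiv 1 (pderiv 1 F) = X 0 * pderiv 1 w := by rw [hw]; simp
    have h2 : C v * pderiv 1 F = X 0 * (X 0 * -(C c * pderiv 1 w)) := by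
      rw [h1] at E; linear_combination E
    rw [← pderiv_C_mul, h2, pderiv_mul, pderiv_X_self, one_mul]
    exact (dvd_mul_right _ _).add (dvd_mul_right _ _)

theorem root2 {a : ℂ} (ha : a ≠ 0) (b c : ℂ) : ∃ l, a * l ^ 2 + b * l + c = 0 := by
  obtain ⟨s, hs⟩ := IsAlgClosed.exists_pow_nat_eq (b ^ 2 - 4 * a * c) two_pos
  exact ⟨(s - b) / (2 * a), by field_simp; linear_combination hs⟩

theorem root3 {a : ℂ} (ha : a ≠ 0) (b c e : ℂ) : ∃ l, a * l ^ 3 + b * l ^ 2 + c * l + e = 0 := by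
  obtain ⟨l, hl⟩ := Complex.exists_root (f := Polynomial.C a * Polynomial.X ^ 3 +
    Polynomial.C b * Polynomial.X ^ 2 + Polynomial.C c * Polynomial.X + Polynomial.C e)
    (by rw [Polynomial.degree_cubic ha]; decide)
  exact ⟨l, by simpa using hl⟩

/-- One factor of the symbol is `x`. -/
theorem case0 (h : SubStmt) (hF : Ok (n + 3) F) (E : Eq6 0 c1 c2 c3 u v F)
    (hne : c1 ≠ 0 ∨ c2 ≠ 0 ∨ c3 ≠ 0) : Nf (n + 3) F := by
  by_cases h1 : c1 = 0
  · subst h1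
    by_cases h2 : c2 = 0
    · subst h2
      have h3 : c3 ≠ 0 := by simpa using hne
      by_cases hu : u = 0
      · exact (no3 hF h3 (hu ▸ E)).elim
      · refine shear h (by omega) hF E (v / u) fun G o e => nf3 o h3 hu ?_
        convert e using 1 <;> field_simp <;> ring
    · refine shear h (by omega) hF E (c3 / c2) fun G o e => nf2 o h2 (u := u)
        (v := v - c3 / c2 * u) ?_
      convert e using 1 <;> field_simp <;> ring
  · obtain ⟨l, hl⟩ := root2 h1 c2 (-c3)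
    refine shear h (by omega) hF E l fun G o e => ?_
    obtain ⟨c, u', v', e⟩ : ∃ c u' v', Eq6 0 c1 c 0 u' v' G :=
      ⟨_, _, _, by convert e using 1 <;> first | rfl | linear_combination hl | ring⟩
    by_cases hc : c = 0
    · subst hc
      exact swap h (by omega) o e fun G o e => nf2 o h1 e
    · refine scale h (by omega) o e (t := -c / c1) (div_ne_zero (neg_ne_zero.2 hc) h1)
        fun G o e => nf1 o hc (u := u' * (-c / c1)) (v := v') ?_
      convert e using 1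
      field_simp

end Nfa

open Nfa

theorem nfaS (h : SubStmt) : NfaStmt := by
  intro d F hd hF hS ⟨l, hl, hh, E⟩
  obtain ⟨n, rfl⟩ : ∃ n, d = n + 3 := ⟨d - 3, by omega⟩
  have o : Ok (n + 3) F := ⟨hF, hS⟩
  obtain ⟨p0, q0, e0⟩ : ∃ p q, l 0 = HC.lf p q := ⟨_, _, hom1_eq (hh 0)⟩
  obtain ⟨p1, q1, e1⟩ : ∃ p q, l 1 = HC.lf p q := ⟨_, _, hom1_eq (hh 1)⟩
  obtain ⟨p2, q2, e2⟩ : ∃ p q, l 2 = HC.lf p q := ⟨_, _, hom1_eq (hh 2)⟩
  have hn : ((n + 2 : ℕ) : ℂ) ≠ 0 := Nat.cast_ne_zero.2 (by omega)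
  have e : Eq6 q0 (q1 - p0) (p1 - q2) p2 (p0 * (n + 2 : ℕ)) (q2 * (n + 2 : ℕ)) F := by
    obtain ⟨a, b⟩ := eul hF
    simp only [e0, e1, e2, HC.lf] at E
    simp only [Eq6, map_sub, map_mul, map_natCast]
    linear_combination E - C p0 * a - C q2 * b
  change Nf (n + 3) F
  by_cases h0 : q0 = 0
  · subst h0
    refine case0 h o e ?_
    by_contra hc
    simp only [not_or, not_not] at hc
    obtain ⟨a1, a2, a3⟩ := hc
    rw [a1, a2, a3] at e
    obtain ⟨b1, b2⟩ := no1 (n := n + 1) o e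
    have b3 := (mul_eq_zero.1 b1).resolve_right hn
    have b4 := (mul_eq_zero.1 b2).resolve_right hn
    have b5 : q1 = 0 := by linear_combination a1 + b3
    have b6 : p1 = 0 := by linear_combination a2 + b4
    refine hl (funext fun i => ?_)
    fin_cases i
    · simpa [HC.lf, b3] using e0
    · simpa [HC.lf, b5, b6] using e1
    · simpa [HC.lf, a3, b4] using e2
  · obtain ⟨t, ht⟩ := root3 h0 (-(q1 - p0)) (-(p1 - q2)) p2
    refine shear h (by omega) o e t fun G o e => ?_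
    rw [show q0 * t ^ 3 - (q1 - p0) * t ^ 2 - (p1 - q2) * t + p2 = 0 by linear_combination ht] at e
    exact swap h (by omega) o e fun G o e => case0 h o e (.inr (.inr h0))

end Pool.Agent.MP_05b4bd_ag.CR
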