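import Pool.Agent.MP_05b4bd_ag.cr.Bas2

/-! Normal forms of the third condition on the top form. -/

namespace Pool.Agent.MP_05b4bd_ag.CR

open MvPolynomial HC
open PC3 (sub2)

namespace Nfc

/-- A basis adapted to a linear form and a symmetric tensor. -/
theorem scal {l0 l1 p q r : ℂ} (hl : l0 ≠ 0 ∨ l1 ≠ 0) (hs : (p, q, r) ≠ 0) :
    ∃ A B D E P Q R c : ℂ, c ≠ 0 ∧ A * E - B * D ≠ 0 ∧ l0 * A + l1 * D = 1 ∧ l0 * B + l1 * E = 0 ∧
      p = P * A ^ 2 + 2 * Q * A * B + R * B ^ 2 ∧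
      q = P * A * D + Q * (A * E + B * D) + R * B * E ∧
      r = P * D ^ 2 + 2 * Q * D * E + R * E ^ 2 ∧
      ((P = c ∧ Q = 0 ∧ R = -4 * c) ∨ (P = c ∧ Q = 0 ∧ R = 0) ∨ (P = 0 ∧ Q = c ∧ R = 0) ∨
        (P = 0 ∧ Q = 0 ∧ R = c)) := by
  obtain ⟨A, D, h⟩ : ∃ A D, l0 * A + l1 * D = 1 := by
    rcases hl with h | h
    · exact ⟨l0⁻¹, 0, by field_simp; simp⟩
    · exact ⟨0, l1⁻¹, by field_simp; simp⟩
  obtain ⟨P, Q, R, e1, e2, e3⟩ : ∃ P Q R : ℂ,
      p = P * A ^ 2 + 2 * Q * A * -l1 + R * (-l1) ^ 2 ∧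
      q = P * A * D + Q * (A * l0 + -l1 * D) + R * -l1 * l0 ∧
      r = P * D ^ 2 + 2 * Q * D * l0 + R * l0 ^ 2 :=
    ⟨p * l0 ^ 2 + 2 * q * l0 * l1 + r * l1 ^ 2, -p * l0 * D + q * (l0 * A - l1 * D) + r * l1 * A,
      p * D ^ 2 - 2 * q * A * D + r * A ^ 2,
      by linear_combination (-p * (l0 * A + l1 * D + 1)) * h,
      by linear_combination (-q * (l0 * A + l1 * D + 1)) * h,
      by linear_combination (-r * (l0 * A + l1 * D + 1)) * h⟩
  by_cases hP : P = 0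
  · by_cases hQ : Q = 0
    · refine ⟨A, -l1, D, l0, P, Q, R, R, ?_,
        ne_of_eq_of_ne (by linear_combination h) one_ne_zero, h, by ring, e1, e2, e3,
        by simp [hP, hQ]⟩
      rintro rfl
      exact hs (by simp [e1, e2, e3, hP, hQ])
    · obtain ⟨t, rfl⟩ : ∃ t, R = 2 * Q * t := ⟨R / (2 * Q), by field_simp⟩
      subst hP
      exact ⟨A - t * l1, -l1, D + t * l0, l0, 0, Q, 0, Q, hQ,
        ne_of_eq_of_ne (by linear_combination h) one_ne_zero,
        by linear_combination h, by ring, by rw [e1]; ring, by rw [e2]; ring, by rw [e3]; ring,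
        by simp⟩
  · obtain ⟨t, rfl⟩ : ∃ t, Q = P * t := ⟨Q / P, by field_simp⟩
    obtain ⟨s, hs⟩ : ∃ s : ℂ, s ^ 2 = (P * t ^ 2 - R) / (4 * P) :=
      IsAlgClosed.exists_pow_nat_eq _ two_pos
    obtain rfl : R = P * t ^ 2 - 4 * P * s ^ 2 := by rw [hs]; field_simp; ring
    by_cases h0 : s = 0
    · subst h0
      exact ⟨A - t * l1, -l1, D + t * l0, l0, P, 0, 0, P, hP,
        ne_of_eq_of_ne (by linear_combination h) one_ne_zero,
        by linear_combination h, by ring, by rw [e1]; ring, by rw [e2]; ring, by rw [e3]; ring,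
        by simp⟩
    · exact ⟨A - t * l1, -l1 * s, D + t * l0, l0 * s, P, 0, -4 * P, P, hP,
        ne_of_eq_of_ne (by linear_combination s * h) h0,
        by linear_combination h, by ring, by rw [e1]; ring, by rw [e2]; ring, by rw [e3]; ring,
        by simp⟩

theorem sub_lf (A B D E a b : ℂ) :
    sub2 (HC.lf A B) (HC.lf D E) (HC.lf a b) = HC.lf (a * A + b * D) (a * B + b * E) := by
  simp only [HC.lf, map_add, map_mul, PC3.sub2_C, PC3.sub2_X0, PC3.sub2_X1]; ring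

theorem lf10 : (HC.lf 1 0 : Poly) = X 0 := by simp [HC.lf]
theorem lf01 : (HC.lf 0 1 : Poly) = X 1 := by simp [HC.lf]

theorem inv {A B D E : ℂ} (h : A * E - B * D ≠ 0) : ∃ a b : Poly, a.IsHomogeneous 1 ∧
    b.IsHomogeneous 1 ∧ ∀ F : Poly, F = sub2 a b (sub2 (HC.lf A B) (HC.lf D E) F) := by
  refine ⟨HC.lf (E / (A * E - B * D)) (-B / (A * E - B * D)),
    HC.lf (-D / (A * E - B * D)) (A / (A * E - B * D)), lf_hom _ _, lf_hom _ _, fun F => ?_⟩
  rw [PC3.sub2_sub2, sub_lf, sub_lf,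
    show A * (E / (A * E - B * D)) + B * (-D / (A * E - B * D)) = 1 by field_simp; ring,
    show A * (-B / (A * E - B * D)) + B * (A / (A * E - B * D)) = 0 by ring,
    show D * (E / (A * E - B * D)) + E * (-D / (A * E - B * D)) = 0 by ring,
    show D * (-B / (A * E - B * D)) + E * (A / (A * E - B * D)) = 1 by
      linear_combination div_self h,
    lf10, lf01, PC3.sub2_id]

/-- The equation in the adapted basis. -/
theorem tr {m : ℕ} {l0 l1 A B D E P Q R : ℂ} {F G : Poly} (h1 : l0 * A + l1 * D = 1)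
    (h0 : l0 * B + l1 * E = 0) (hG : G = sub2 (HC.lf A B) (HC.lf D E) F)
    (e : HC.lf l0 l1 * (C (P * A ^ 2 + 2 * Q * A * B + R * B ^ 2) * pderiv 0 (pderiv 0 F) +
      2 * C (P * A * D + Q * (A * E + B * D) + R * B * E) * pderiv 0 (pderiv 1 F) +
      C (P * D ^ 2 + 2 * Q * D * E + R * E ^ 2) * pderiv 1 (pderiv 1 F)) =
    2 * (m : Poly) * (pderiv 0 (HC.lf l0 l1) *
      (C (P * A ^ 2 + 2 * Q * A * B + R * B ^ 2) * pderiv 0 F +
        C (P * A * D + Q * (A * E + B * D) + R * B * E) * pderiv 1 F) +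
      pderiv 1 (HC.lf l0 l1) * (C (P * A * D + Q * (A * E + B * D) + R * B * E) * pderiv 0 F +
        C (P * D ^ 2 + 2 * Q * D * E + R * E ^ 2) * pderiv 1 F))) :
    X 0 * (C P * pderiv 0 (pderiv 0 G) + 2 * C Q * pderiv 0 (pderiv 1 G) +
      C R * pderiv 1 (pderiv 1 G)) = 2 * (m : Poly) * (C P * pderiv 0 G + C Q * pderiv 1 G) := by
  have e' := congrArg (sub2 (HC.lf A B) (HC.lf D E)) e
  rw [map_mul, sub_lf, h1, h0, lf10, lf_x, lf_y] at e'
  have k1 := congrArg (C : ℂ → Poly) h1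
  have k0 := congrArg (C : ℂ → Poly) h0
  simp only [map_add, map_mul, map_pow, map_ofNat, map_natCast, map_one, map_zero,
    PC3.sub2_C] at e' k1 k0
  subst hG
  simp only [PC3.sub2_d, lf_x, lf_y, map_add, pderiv_mul, pderiv_C, mul_zero, add_zero,
    HC.pderiv_comm]
  generalize sub2 (HC.lf A B) (HC.lf D E) (pderiv 0 F) = u at *
  generalize sub2 (HC.lf A B) (HC.lf D E) (pderiv 1 F) = v at *
  linear_combination e' + 2 * (m : Poly) * ((C P * (C A * u + C D * v) + C Q * (C B * u + C E * v))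
    * k1 + (C Q * (C A * u + C D * v) + C R * (C B * u + C E * v)) * k0)

theorem not_sq {n : ℕ} {G : Poly} (hG : G.IsHomogeneous (n + 3))
    (h : pderiv 1 (pderiv 1 G) = 0) : ¬ Sq G := fun s => by
  have key : ∀ (k : ℕ) (u : Poly), u.IsHomogeneous (k + 1) → X 0 ∣ pderiv 1 u → X 0 ∣ u :=
    fun k u hu hd => by
      have hk : IsUnit (((k + 1 : ℕ) : Poly)) := by
        rw [← map_natCast (C : ℂ →+* Poly)]
        exact (IsUnit.mk0 _ (Nat.cast_ne_zero.2 (Nat.succ_ne_zero k))).map C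
      rw [← hk.dvd_mul_left, ← euler hu]
      exact (dvd_mul_right _ _).add (hd.mul_left _)
  have hx := hom_pderiv 0 hG
  have hy := hom_pderiv 1 hG
  have a : X 0 ∣ pderiv 1 G := key _ _ hy (by rw [h]; exact dvd_zero _)
  have b : X 0 ∣ pderiv 0 G := key _ _ hx (key _ _ (hom_pderiv 1 hx)
    (by rw [HC.pderiv_comm, HC.pderiv_comm, h, map_zero]; exact dvd_zero _))
  simpa using (CI.relPrime s b a).map (eval (0 : Fin 2 → ℂ))

end Nfc

theorem nfcS (h : SubStmt) : NfcStmt := by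
  rintro d m F hd hF hS ⟨l, p, q, r, hl, h1, hs, e⟩
  obtain ⟨l0, l1, rfl⟩ : ∃ l0 l1, l = HC.lf l0 l1 := ⟨_, _, hom1_eq h1⟩
  obtain ⟨A, B, D, E, P, Q, R, c, hc, hdet, k1, k0, rfl, rfl, rfl, hcase⟩ :=
    Nfc.scal (l0 := l0) (l1 := l1) (by
      by_contra hh
      push Not at hh
      exact hl (by simp [HC.lf, hh.1, hh.2])) hs
  obtain ⟨a, b, ha, hb, hi⟩ := Nfc.inv hdet
  have hG := sub2_hom (lf_hom A B) (lf_hom D E) hF
  have eq := Nfc.tr k1 k0 rfl e
  have hFG := hi F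
  generalize sub2 (HC.lf A B) (HC.lf D E) F = G at hG eq hFG
  have hc' : (C c : Poly) ≠ 0 := by simpa using hc
  refine ⟨a, b, G, ha, hb, hG, hFG, ?_⟩
  rcases hcase with ⟨rfl, rfl, rfl⟩ | ⟨rfl, rfl, rfl⟩ | ⟨rfl, rfl, rfl⟩ | ⟨rfl, rfl, rfl⟩
  · refine Or.inl (mul_left_cancel₀ hc' ?_)
    simp only [map_mul, map_neg, map_ofNat, map_zero] at eq
    linear_combination eq
  · refine Or.inr (Or.inl (mul_left_cancel₀ hc' ?_))
    simp only [map_zero] at eq
    linear_combination eq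
  · refine Or.inr (Or.inr (mul_left_cancel₀ (mul_ne_zero two_ne_zero hc') ?_))
    simp only [map_zero, map_natCast] at eq ⊢
    linear_combination eq
  · exfalso
    obtain ⟨n, rfl⟩ : ∃ n, d = n + 3 := ⟨d - 3, by omega⟩
    refine Nfc.not_sq hG ?_ ((h ℂ _ a b G ha hb hG).2.2.2 (by omega) (hFG ▸ hS)).2
    refine mul_left_cancel₀ (mul_ne_zero (X_ne_zero 0) hc') ?_
    simp only [map_zero] at eq
    linear_combination eq

end Pool.Agent.MP_05b4bd_ag.CR
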