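import Pool.Agent.MP_05b4bd_ag.cr.Bas2

/-! The second order operator on polynomials of weight `d`. -/

namespace Pool.Agent.MP_05b4bd_ag.CR

open MvPolynomial HC
open ES.U (TM)
open PC3 (Fm fm d1 wg dv rr DF sub2 mapF H2 H3)
open UM (HP)

namespace Op

variable {A : Type} [CommRing A]

theorem x0 : pderiv 0 (X 0 : R2 A) = 1 := pderiv_X_self 0
theorem x1 : pderiv 1 (X 0 : R2 A) = 0 := pderiv_X_of_ne (by decide)
theorem y0 : pderiv 0 (X 1 : R2 A) = 0 := pderiv_X_of_ne (by decide)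
theorem y1 : pderiv 1 (X 1 : R2 A) = 1 := pderiv_X_self 1

theorem sh_x (l : A) (u : R2 A) : pderiv 0 (sub2 (X 0) (X 1 + C l * X 0 ^ 2) u) =
    sub2 (X 0) (X 1 + C l * X 0 ^ 2) (pderiv 0 u) +
      C (2 * l) * (X 0 * sub2 (X 0) (X 1 + C l * X 0 ^ 2) (pderiv 1 u)) := by
  rw [PC3.sub2_d, map_add (pderiv 0), pderiv_C_mul, pderiv_pow, x0, y0, map_mul, map_ofNat]
  push_cast
  ring

theorem sh_y (l : A) (u : R2 A) : pderiv 1 (sub2 (X 0) (X 1 + C l * X 0 ^ 2) u) =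
    sub2 (X 0) (X 1 + C l * X 0 ^ 2) (pderiv 1 u) := by
  rw [PC3.sub2_d, map_add (pderiv 1), pderiv_C_mul, pderiv_pow, x1, y1]
  ring

theorem sc_x (s t : A) (u : R2 A) : pderiv 0 (sub2 (C s * X 0) (C t * X 1) u) =
    C s * sub2 (C s * X 0) (C t * X 1) (pderiv 0 u) := by
  rw [PC3.sub2_d, pderiv_C_mul, pderiv_C_mul, x0, y0]
  ring

theorem sc_y (s t : A) (u : R2 A) : pderiv 1 (sub2 (C s * X 0) (C t * X 1) u) =
    C t * sub2 (C s * X 0) (C t * X 1) (pderiv 1 u) := by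
  rw [PC3.sub2_d, pderiv_C_mul, pderiv_C_mul, x1, y1]
  ring

theorem p1 (H : R2 A) (c1 c2 c3 c4 l : A) :
    op4 c1 (c2 - 2 * l * c1) (c3 - 4 * l * c1) (c4 - 2 * l * c3 + 4 * l ^ 2 * c1)
      (sub2 (X 0) (X 1 + C l * X 0 ^ 2) H) =
    sub2 (X 0) (X 1 + C l * X 0 ^ 2) (op4 c1 c2 c3 c4 H) := by
  rw [op4, op4, sh_x, sh_y, sh_y, map_add (pderiv 0), pderiv_C_mul, pderiv_mul, x0, sh_x, sh_x,
    HC.pderiv_comm]
  simp only [map_add, map_sub, map_mul, map_pow, map_ofNat, PC3.sub2_C, PC3.sub2_X0]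
  ring

theorem p2 (H : R2 A) (c1 c2 c3 c4 s t : A) :
    op4 (c1 * t ^ 2) (c2 * s ^ 2 * t) (c3 * s ^ 2 * t) (c4 * s ^ 4)
      (sub2 (C s * X 0) (C t * X 1) H) =
    C (s ^ 2 * t ^ 2) * sub2 (C s * X 0) (C t * X 1) (op4 c1 c2 c3 c4 H) := by
  rw [op4, op4, sc_x, sc_y, pderiv_C_mul, pderiv_C_mul, pderiv_C_mul, sc_x, sc_x, sc_y]
  simp only [map_add, map_mul, map_pow, PC3.sub2_C, PC3.sub2_X0]
  ring

theorem co_ws (d : ℕ) (h : ℕ → A) (i j : ℕ) :
    HC.co i j (∑ j ∈ Finset.range (d / 2 + 1), C (h j) * X 0 ^ (d - 2 * j) * X 1 ^ j) =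
      if i + 2 * j = d then h j else 0 := by
  simp only [co_sum, mul_assoc, co_C_mul, co_mon]
  split_ifs with e
  · rw [Finset.sum_eq_single j]
    · rw [if_pos ⟨by omega, rfl⟩, mul_one]
    · intro k _ hk
      rw [if_neg fun h => hk h.2, mul_zero]
    · intro hb
      exact absurd (Finset.mem_range.2 (by omega)) hb
  · refine Finset.sum_eq_zero fun k hk => ?_
    have := Finset.mem_range.1 hk
    rw [if_neg (by omega), mul_zero]

theorem wh_sum {a b : R2 A} (ha : WH 1 a) (hb : WH 2 b) (d : ℕ) (h : ℕ → A) :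
    WH d (∑ j ∈ Finset.range (d / 2 + 1), C (h j) * a ^ (d - 2 * j) * b ^ j) := by
  refine IsWeightedHomogeneous.sum _ _ _ fun j hj => ?_
  have := ((IsWeightedHomogeneous.pow ha (d - 2 * j)).mul (IsWeightedHomogeneous.pow hb j)).C_mul
    (h j)
  have e := Finset.mem_range.1 hj
  rwa [smul_eq_mul, smul_eq_mul, show (d - 2 * j) * 1 + j * 2 = d by omega, ← mul_assoc] at this

theorem wx : WH 1 (X 0 : R2 A) := isWeightedHomogeneous_X A _ 0
theorem wy : WH 2 (X 1 : R2 A) := isWeightedHomogeneous_X A _ 1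

theorem p4 (d : ℕ) (H : R2 A) : WH d H ↔ ∃ h : ℕ → A,
    H = ∑ j ∈ Finset.range (d / 2 + 1), C (h j) * X 0 ^ (d - 2 * j) * X 1 ^ j := by
  refine ⟨fun w => ⟨fun j => HC.co (d - 2 * j) j H, co_ext fun i j => ?_⟩, ?_⟩
  · rw [co_ws]
    split_ifs with e
    · rw [← e, Nat.add_sub_cancel]
    · by_contra h
      have := w h
      simp [Finsupp.weight_single] at this
      omega
  · rintro ⟨h, rfl⟩
    exact wh_sum wx wy d h

theorem wh_sub {a b H : R2 A} (ha : WH 1 a) (hb : WH 2 b) {d : ℕ} (w : WH d H) :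
    WH d (sub2 a b H) := by
  obtain ⟨h, rfl⟩ := (p4 d H).1 w
  simp only [map_sum, map_mul, map_pow, PC3.sub2_C, PC3.sub2_X0, PC3.sub2_X1]
  exact wh_sum ha hb d h

theorem co_op (H : R2 A) (c1 c2 c3 : A) (i j : ℕ) : HC.co i j (op4 c1 c2 c3 0 H) =
    c1 * ((i : A) + 2) * (i + 1) * HC.co (i + 2) j H +
      ((j : A) + 1) * (c2 + c3 * i) * HC.co i (j + 1) H := by
  rw [op4, map_zero, zero_mul, zero_mul, add_zero, mul_assoc, co_add, co_add, co_C_mul, co_C_mul,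
    co_C_mul, co_X0_x, co_x, co_x, co_y]
  push_cast
  ring

end Op

open Op in
theorem opS : OpStmt := by
  intro A _ d H c1 c2 c3 c4 s t l
  refine ⟨p1 .., p2 .., fun w => ⟨wh_sub wx (wy.add ((IsWeightedHomogeneous.pow wx 2).C_mul l)) w,
    wh_sub (IsWeightedHomogeneous.C_mul wx s) (IsWeightedHomogeneous.C_mul wy t) w⟩, p4 d H, ?_⟩
  rintro h rfl
  constructor
  · intro e j hj
    obtain ⟨i, rfl⟩ : ∃ i, d = i + 2 + 2 * j := ⟨d - 2 - 2 * j, by omega⟩
    have := congrArg (HC.co i j) e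
    rw [co_op, co_ws, co_ws, if_pos rfl, if_pos (by omega), co_zero] at this
    push_cast
    linear_combination this
  · intro e
    refine co_ext fun i j => ?_
    rw [co_op, co_ws, co_ws, co_zero]
    by_cases k : i + 2 + 2 * j = d
    · have := e j (by omega)
      rw [if_pos k, if_pos (by omega)]
      subst k
      push_cast at this
      linear_combination this
    · rw [if_neg k, if_neg (by omega)]
      ring

end Pool.Agent.MP_05b4bd_ag.CR
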