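import Pool.Agent.MP_05b4bd_ag.cr.Bas2

/-! The equation of the top form of the parabolic family. -/

namespace Pool.Agent.MP_05b4bd_ag.CR

open MvPolynomial HC
open ES.U (TM)
open PC3 (Fm fm d1 wg dv rr DF sub2 mapF H2 H3)
open UM (HP)

namespace Pde

variable {A : Type} [CommRing A]

theorem d_two (i : Fin 2) : pderiv i (2 : R2 A) = 0 := by
  rw [show (2 : R2 A) = C 2 from rfl, pderiv_C]

theorem d_nat (i : Fin 2) (k : ℕ) : pderiv i (k : R2 A) = 0 := by
  rw [← map_natCast (C : A →+* R2 A) k, pderiv_C]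

theorem x_x : pderiv 0 (X 0 : R2 A) = 1 := pderiv_X_self 0
theorem y_y : pderiv 1 (X 1 : R2 A) = 1 := pderiv_X_self 1
theorem x_y : pderiv 0 (X 1 : R2 A) = 0 := pderiv_X_of_ne (by decide)
theorem y_x : pderiv 1 (X 0 : R2 A) = 0 := pderiv_X_of_ne (by decide)

/-- The two first order equations give the second order equation. -/
theorem key {n m : ℕ} {c : A} {G P : R2 A} (hG : G.IsHomogeneous (n + m + 1))
    (hA : pderiv 0 P = 2 * X 0 * pderiv 1 G)
    (hC : 2 * C c * pderiv 1 P + 2 * X 1 * pderiv 1 G + X 0 * pderiv 0 G =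
      (2 * (n : R2 A) + 1) * G) :
    X 0 * (pderiv 0 (pderiv 0 G) - 4 * C c * pderiv 1 (pderiv 1 G)) =
      2 * (m : R2 A) * pderiv 0 G := by
  have h1 := congrArg (pderiv 1) hA
  have h2 := congrArg (pderiv 0) hC
  have h3 := euler (hom_pderiv 0 hG)
  simp only [map_add, pderiv_mul, d_two, d_nat, pderiv_C, x_x, x_y, y_x, pderiv_one,
    HC.pderiv_comm] at h1 h2 h3
  push_cast at h3
  linear_combination -h2 + 2 * C c * h1 + 2 * h3

theorem eqs (u v : R2 A) (ux : pderiv 0 u = 1) (uy : pderiv 1 u = 0) (vy : pderiv 1 v = 1)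
    (vx : pderiv 0 v = 2 * X 0 - 2 * u) (n : ℕ) :
    pderiv 0 (E u v n) - 2 * X 0 * pderiv 1 (E u v n) =
        ((2 * n + 1).doubleFactorial : R2 A) * v ^ n ∧
      2 * (u ^ 2 + v) * pderiv 1 (E u v n) - (2 * n + 1) * E u v n =
        -(((2 * n + 1).doubleFactorial : R2 A) * u * v ^ n) := by
  induction n with
  | zero => simp [E, ux, uy]
  | succ n ih =>
    obtain ⟨h1, h2⟩ := ih
    have e : ((2 * (n + 1) + 1).doubleFactorial : R2 A) =
        (2 * n + 3) * ((2 * n + 1).doubleFactorial : R2 A) := by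
      rw [show 2 * (n + 1) + 1 = 2 * n + 1 + 2 by ring, Nat.doubleFactorial_add_two]
      push_cast; ring
    rw [e]
    simp only [E, map_add, pderiv_mul, pderiv_pow, d_two, d_nat, ux, uy, vx, vy,
      Nat.add_sub_cancel]
    push_cast
    constructor
    · linear_combination (2 * n + 2) * (u ^ 2 + v) * h1
    · linear_combination (2 * n + 2) * (u ^ 2 + v) * h2

theorem hc_X (k : ℕ) (i : Fin 2) (w : R2 A) : hc (k + 1) (X i * w) = X i * hc k w := by
  rw [mul_comm, hc_mul_hom k w (isHomogeneous_X A i), mul_comm]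

theorem part1 (n m : ℕ) (u0 c0 : A) {G : R2 A}
    (hG : G = hc (n + m + 1) (E (C u0 + X 0) (C (c0 - u0 ^ 2) + X 1 - 2 * C u0 * X 0) n)) :
    X 0 * (pderiv 0 (pderiv 0 G) - 4 * C c0 * pderiv 1 (pderiv 1 G)) =
      2 * (m : R2 A) * pderiv 0 G := by
  set v : R2 A := C (c0 - u0 ^ 2) + X 1 - 2 * C u0 * X 0 with hv
  set W := E (C u0 + X 0) v n with hW
  obtain ⟨h1, h2⟩ := eqs (C u0 + X 0) v (by simp) (by simp)
    (by simp only [hv, map_add, map_sub, pderiv_mul, d_two, pderiv_C, y_y, y_x]; ring)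
    (by simp only [hv, map_add, map_sub, pderiv_mul, d_two, pderiv_C, x_x, x_y]; ring) n
  rw [← hW] at h1 h2
  have dv : DL 2 v := by
    refine (((DL_C _).mono (by omega)).add (DL_X 1)).sub ?_
    rw [show (2 * C u0 * X 0 : R2 A) = C (2 * u0) * X 0 by rw [map_mul]; rfl]
    exact (DL_X 0).C_mul _
  have z : hc (n + m + 1) (v ^ n) = 0 := (dv.pow n).hc_eq (by omega)
  have a1 : pderiv 0 W = C 2 * (X 0 * pderiv 1 W) +
      C ((2 * n + 1).doubleFactorial : A) * v ^ n := by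
    rw [map_natCast, show (C 2 : R2 A) = 2 from rfl]
    linear_combination h1
  have a2 : C (2 * c0) * pderiv 1 W + C 2 * (X 1 * pderiv 1 W) + X 0 * pderiv 0 W =
      C (2 * n + 1 : A) * W - C (((2 * n + 1).doubleFactorial : A) * u0) * v ^ n := by
    have e : (C u0 + X 0) ^ 2 + v = C c0 + X 1 + X 0 ^ 2 := by
      rw [hv, map_sub, map_pow]; ring
    rw [e] at h2
    simp only [map_mul, map_add, map_natCast, map_one, show (C 2 : R2 A) = 2 from rfl]
    linear_combination h2 + X 0 * h1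
  have b1 := congrArg (hc (n + m + 1)) a1
  have b2 := congrArg (hc (n + m + 1)) a2
  simp only [hc_add, hc_sub, hc_C_mul, hc_X, z, hc_pderiv, ← hG] at b1 b2
  simp only [map_mul, map_add, map_natCast, map_one, show (C 2 : R2 A) = 2 from rfl] at b1 b2
  exact key (P := hc (n + m + 1 + 1) W) (hG ▸ hc_hom _ _) (by linear_combination b1)
    (by linear_combination b2)

theorem part2 {K : Type} [Field K] [CharZero K] (h : SgStmt) (n m : ℕ) {c0 : K} (h0 : c0 ≠ 0)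
    {G : R2 K} (hG : G = GF ((n : K) + 1 / 2) (n + m + 1) (C c0⁻¹ * X 1) (C c0⁻¹ * X 0 ^ 2)) :
    G.IsHomogeneous (n + m + 1) ∧
      X 0 * (pderiv 0 (pderiv 0 G) - 4 * C c0 * pderiv 1 (pderiv 1 G)) =
        2 * (m : R2 K) * pderiv 0 G := by
  obtain ⟨S, -⟩ := h K ((n : K) + 1 / 2) (C c0⁻¹ * X 1) (C c0⁻¹ * X 0 ^ 2)
    ((isHomogeneous_X K 1).C_mul _) ((isHomogeneous_X_pow 0 2).C_mul _)
  set Φ : ℕ → R2 K := fun k => GF ((n : K) + 1 / 2) k (C c0⁻¹ * X 1) (C c0⁻¹ * X 0 ^ 2) with hΦ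
  have hc0 : (C c0 : R2 K) * C c0⁻¹ = 1 := by rw [← map_mul, mul_inv_cancel₀ h0, map_one]
  have hα : (2 : R2 K) * C ((n : K) + 1 / 2) = 2 * (n : R2 K) + 1 := by
    rw [show (2 : R2 K) = C 2 from rfl, ← map_mul, show 2 * ((n : K) + 1 / 2) = 2 * n + 1 by ring,
      map_add, map_mul, map_natCast, map_one]
  generalize (C ((n : K) + 1 / 2) : R2 K) = al at S hα
  have e1 : ∀ k, pderiv 1 (Φ (k + 2)) + C c0⁻¹ * X 1 * pderiv 1 (Φ (k + 1)) +
      C c0⁻¹ * X 0 ^ 2 * pderiv 1 (Φ k) = al * C c0⁻¹ * Φ (k + 1) := fun k => by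
    have := congrArg Prod.fst (S.eq k)
    simp only [d1, fm, Prod.fst_add, Prod.smul_fst, smul_eq_mul, pderiv_mul, pderiv_pow, pderiv_C,
      y_y, y_x] at this
    linear_combination this
  have e2 : ∀ k, pderiv 0 (Φ (k + 2)) + C c0⁻¹ * X 1 * pderiv 0 (Φ (k + 1)) +
      C c0⁻¹ * X 0 ^ 2 * pderiv 0 (Φ k) = al * C c0⁻¹ * (2 * X 0) * Φ k := fun k => by
    have := congrArg Prod.snd (S.eq k)
    simp only [d1, fm, Prod.snd_add, Prod.smul_snd, smul_eq_mul, pderiv_mul, pderiv_pow, pderiv_C,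
      x_x, x_y] at this
    push_cast at this
    linear_combination -this
  have al0 : pderiv 0 al = 0 ∧ pderiv 1 al = 0 := by
    have t : ∀ i : Fin 2, pderiv i al = 0 := fun i => by
      have := congrArg (pderiv i) hα
      simp only [map_add, pderiv_mul, d_two, d_nat, pderiv_one] at this
      exact mul_left_cancel₀ (two_ne_zero : (2 : R2 K) ≠ 0) (by linear_combination this)
    exact ⟨t 0, t 1⟩
  have eA : ∀ k, pderiv 0 (Φ (k + 1)) = 2 * X 0 * pderiv 1 (Φ k) := fun k => by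
    have a := congrArg (pderiv 0) (e1 k)
    have b := congrArg (pderiv 1) (e2 k)
    simp only [map_add, pderiv_mul, pderiv_pow, pderiv_C, d_two, x_x, x_y, y_x, y_y, al0.1, al0.2,
      HC.pderiv_comm] at a b
    push_cast at a b
    have n3 : (2 * n + 3 : R2 K) ≠ 0 := by exact_mod_cast (by omega : 2 * n + 3 ≠ 0)
    refine mul_left_cancel₀ n3 ?_
    linear_combination 2 * C c0 * (b - a) -
      (C c0 * C c0⁻¹) * (pderiv 0 (Φ (k + 1)) - 2 * X 0 * pderiv 1 (Φ k)) * hα -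
      (2 * (n : R2 K) + 3) * (pderiv 0 (Φ (k + 1)) - 2 * X 0 * pderiv 1 (Φ k)) * hc0
  have hG' : G = Φ (n + m + 1) := hG
  have hh : G.IsHomogeneous (n + m + 1) := hG' ▸ S.hom _
  refine ⟨hh, key (P := Φ (n + m + 2)) hh (hG' ▸ eA _) ?_⟩
  rw [hG']
  linear_combination 2 * C c0 * e1 (n + m) + X 0 * eA (n + m) +
    (C c0 * C c0⁻¹) * Φ (n + m + 1) * hα + ((2 * (n : R2 K) + 1) * Φ (n + m + 1) -
      2 * X 1 * pderiv 1 (Φ (n + m + 1)) - 2 * X 0 ^ 2 * pderiv 1 (Φ (n + m))) * hc0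

end Pde

theorem pdeS (h : SgStmt) : PdeStmt := by
  intro K _ _ d n a r u0 c0 G hnd h0 hG
  obtain ⟨m, rfl⟩ : ∃ m, d = n + m + 1 := ⟨d - 1 - n, by omega⟩
  have e : ((C u0 + X 0) ^ 2 + (C (c0 - u0 ^ 2) + X 1 - 2 * C u0 * X 0) : R2 K) =
      C c0 + X 1 + X 0 ^ 2 := by
    rw [map_sub, map_pow]; ring
  have c1 := isHomogeneous_C (Fin 2) c0
  have c2 := isHomogeneous_X K (1 : Fin 2)
  have c3 := isHomogeneous_X_pow (R := K) (0 : Fin 2) 2
  have e0 : coeff 0 (C c0 + X 1 + X 0 ^ 2 : R2 K) = c0 := by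
    rw [coeff_add, coeff_add, c2.coeff_eq_zero (by simp), c3.coeff_eq_zero (by simp)]
    simp
  have e1 : hc 1 (C c0 + X 1 + X 0 ^ 2 : R2 K) = X 1 := by
    rw [hc_add, hc_add, hc_ne c1 (by omega), hc_self c2, hc_ne c3 (by omega)]
    ring
  have e2 : hc 2 (C c0 + X 1 + X 0 ^ 2 : R2 K) = X 0 ^ 2 := by
    rw [hc_add, hc_add, hc_ne c1 (by omega), hc_ne c2 (by omega), hc_self c3]
    ring
  rw [PT, e, e0, e1, e2] at hG
  have p1 := Pde.part1 n m u0 c0 rfl
  obtain ⟨p2, p3⟩ := Pde.part2 h n m h0 rfl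
  rw [show n + m + 1 - 1 - n = m by omega, hG]
  refine ⟨((hc_hom _ _).C_mul a).add (p2.C_mul r), ?_⟩
  simp only [map_add, pderiv_C_mul]
  linear_combination C a * p1 + C r * p3

end Pool.Agent.MP_05b4bd_ag.CR
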