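import Pool.Agent.MP_05b4bd_ag.cr.Bas2

/-! The difference with the series solution reduces to `f` degree by degree. -/

namespace Pool.Agent.MP_05b4bd_ag.CR

open MvPolynomial HC
open ES.U (TM)
open PC3 (Fm fm d1 wg dv rr DF sub2 mapF H2 H3)
open UM (HP)

namespace Rec

section Ring
variable {A : Type} [CommRing A] {s1 s2 a0 a1 : R2 A}

theorem low {e n : ℕ} (u : R2 A) {v : R2 A} (hv : v.IsHomogeneous e) (h : n < e) :
    hc n (u * v) = 0 :=
  hc_of_mm (Ideal.mul_mem_left _ _ (mm_hom hv)) h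

theorem split (i : Fin 2) (R : R2 A) : (1 + s1 + s2) * pderiv i R - R * (a0 + a1) =
    pderiv i R + pderiv i R * s1 + pderiv i R * s2 - (R * a0 + R * a1) := by ring

theorem part0 (h1 : s1.IsHomogeneous 1) (h2 : s2.IsHomogeneous 2) (g0 : a0.IsHomogeneous 0)
    (g1 : a1.IsHomogeneous 1) (i : Fin 2) (R : R2 A) :
    hc 0 ((1 + s1 + s2) * pderiv i R - R * (a0 + a1)) = pderiv i (hc 1 R) - hc 0 R * a0 := by
  rw [split, hc_sub, hc_add, hc_add, hc_add, low _ h1 one_pos, low _ h2 two_pos,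
    low _ g1 one_pos, hc_pderiv, ← hc_mul_hom 0 R g0]
  simp only [add_zero, zero_add]

theorem part (h1 : s1.IsHomogeneous 1) (h2 : s2.IsHomogeneous 2) (g0 : a0.IsHomogeneous 0)
    (g1 : a1.IsHomogeneous 1) (i : Fin 2) (R : R2 A) (k : ℕ) :
    hc (k + 1) ((1 + s1 + s2) * pderiv i R - R * (a0 + a1)) =
      pderiv i (hc (k + 2) R) + s1 * pderiv i (hc (k + 1) R) + s2 * pderiv i (hc k R) -
        (hc (k + 1) R * a0 + hc k R * a1) := by
  have e : hc (k + 1) (pderiv i R * s2) = s2 * pderiv i (hc k R) := by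
    cases k with
    | zero => rw [low _ h2 (by omega), hc, homogeneousComponent_zero, pderiv_C, mul_zero]
    | succ k => rw [show k + 1 + 1 = k + 2 from rfl, hc_mul_hom k _ h2, hc_pderiv, mul_comm]
  rw [split, hc_sub, hc_add, hc_add, hc_add, e, hc_mul_hom k _ h1, hc_mul_hom k _ g1,
    hc_pderiv, hc_pderiv, ← hc_mul_hom (k + 1) R g0, mul_comm s1]

end Ring

variable {V K κ : Type} [CommRing V] [Field K] [Field κ] [CharZero K] [CharZero κ]
  {ι : V →+* K} {ρ : V →+* κ}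

theorem rec_eq {F : Type} [Field F] [CharZero F] {n : ℕ} {u : R2 F}
    (hu : u.IsHomogeneous (n + 1)) :
    C ((n + 1 : ℕ) : F)⁻¹ * (X 0 * pderiv 0 u + X 1 * pderiv 1 u) = u := by
  rw [euler hu, ← mul_assoc, ← map_natCast (C : F →+* R2 F), ← map_mul,
    inv_mul_cancel₀ (Nat.cast_ne_zero.2 n.succ_ne_zero), map_one, one_mul]

/-- A form of positive degree reduces as its derivatives do. -/
theorem up (P : Pl ι ρ) {n : ℕ} {u : R2 K} {v : R2 κ} (hu : u.IsHomogeneous (n + 1))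
    (hv : v.IsHomogeneous (n + 1)) (h : ∀ i, Rd ι ρ (pderiv i u) (pderiv i v)) : Rd ι ρ u v := by
  have := ((Rs.nat (n + 1)).inv P (Nat.cast_ne_zero.2 n.succ_ne_zero)).toC.mul
    (((Rd.X 0).mul (h 0)).add ((Rd.X 1).mul (h 1)))
  rwa [rec_eq hu, rec_eq hv] at this

theorem core (P : Pl ι ρ) {s1 s2 R : R2 K} {a0 a1 : Fin 2 → R2 K} {E : ℕ → R2 K} {f : R2 κ}
    (h1 : s1.IsHomogeneous 1) (h2 : s2.IsHomogeneous 2) (g0 : ∀ i, (a0 i).IsHomogeneous 0)
    (g1 : ∀ i, (a1 i).IsHomogeneous 1) (hom : ∀ k, (E k).IsHomogeneous k) (e0 : E 0 = 1)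
    (e1 : ∀ i, pderiv i (E 1) = a0 i)
    (eq : ∀ k i, pderiv i (E (k + 2)) + s1 * pderiv i (E (k + 1)) + s2 * pderiv i (E k) =
      E (k + 1) * a0 i + E k * a1 i)
    (r1 : Rd ι ρ s1 0) (r2 : Rd ι ρ s2 0) (t0 : ∀ i, Rd ι ρ (a0 i) 0) (t1 : ∀ i, Rd ι ρ (a1 i) 0)
    (hw : ∀ i, Rd ι ρ ((1 + s1 + s2) * pderiv i R - R * (a0 i + a1 i)) (pderiv i f)) (k : ℕ) :
    (∃ v, Rd ι ρ (hc k R - C (coeff 0 R) * E k) v) ∧
      Rd ι ρ (hc (k + 1) R - C (coeff 0 R) * E (k + 1)) (hc (k + 1) f) := by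
  have hS : ∀ k, (hc k R - C (coeff 0 R) * E k).IsHomogeneous k := fun k =>
    (hc_hom k R).sub ((hom k).C_mul _)
  have z : hc 0 R = C (coeff 0 R) := homogeneousComponent_zero R
  induction k with
  | zero =>
    refine ⟨⟨0, by rw [z, e0, mul_one, sub_self]; exact Rd.zero⟩,
      up P (hS _) (hc_hom _ f) fun i => ?_⟩
    have := (hw i).hc 0
    rw [part0 h1 h2 (g0 i) (g1 i), hc_pderiv, z, ← e1 i] at this
    rwa [map_sub, pderiv_C_mul]
  | succ k ih =>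
    obtain ⟨⟨v, hv⟩, hu⟩ := ih
    refine ⟨⟨_, hu⟩, up P (hS _) (hc_hom _ f) fun i => ?_⟩
    have := ((((hw i).hc (k + 1)).sub (r1.mul (hu.pderiv i))).sub (r2.mul (hv.pderiv i))).add
      ((hu.mul (t0 i)).add (hv.mul (t1 i)))
    rw [part h1 h2 (g0 i) (g1 i), hc_pderiv] at this
    simp only [zero_mul, mul_zero, sub_zero, add_zero] at this
    convert this using 1
    simp only [map_sub, pderiv_C_mul]
    linear_combination (-C (coeff 0 R)) * eq k i

end Rec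

theorem recS : RecStmt := by
  intro V K κ _ _ _ _ _ ι ρ s1 s2 R η0 η1 E f P S r1 r2 t0 t1 hw k hk
  obtain ⟨k, rfl⟩ : ∃ j, k = j + 1 := ⟨k - 1, by omega⟩
  refine (Rec.core P (a0 := ![-η0.2, η0.1]) (a1 := ![-η1.2, η1.1]) S.h1 S.h2 ?_ ?_ S.hom S.e0 ?_
    (fun j => ?_) r1 r2 ?_ ?_ ?_ k).2
  all_goals refine Fin.forall_fin_two.2 ⟨?_, ?_⟩
  · exact S.g0.2.neg
  · exact S.g0.1
  · exact S.g1.2.neg
  · exact S.g1.1
  · exact (neg_eq_iff_eq_neg.1 (congrArg Prod.snd S.e1))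
  · exact congrArg Prod.fst S.e1
  · have := congrArg Prod.snd (S.eq j)
    simp only [d1, Prod.snd_add, Prod.smul_snd, smul_eq_mul] at this
    show _ = E (j + 1) * -η0.2 + E j * -η1.2
    linear_combination -this
  · exact congrArg Prod.fst (S.eq j)
  · simpa using t0.2.neg
  · exact t0.1
  · simpa using t1.2.neg
  · exact t1.1
  · have := hw.2.neg
    simp only [d1, Prod.snd_add, Prod.snd_sub, Prod.smul_snd, smul_eq_mul, neg_neg] at this
    convert this using 1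
    show _ - R * (-η0.2 + -η1.2) = _
    ring
  · exact hw.1

end Pool.Agent.MP_05b4bd_ag.CR
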