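import Pool.Agent.MP_05b4bd_ag.cr.Bas2

/-! The homogeneous parts of a power of `1 + a + q`. -/

namespace Pool.Agent.MP_05b4bd_ag.CR

open MvPolynomial HC
open PC3 (Fm fm d1 wg dv rr DF sub2 mapF)

namespace Sg
variable {K : Type} [Field K]

/-- The coefficient of `x ^ i * y ^ j` in `(1 + x + y) ^ α`. -/
noncomputable def cf (α : K) (i j : ℕ) : K := ff α (i + j) / (j.factorial * i.factorial)

theorem co_GF (α : K) (k i j : ℕ) :
    HC.co i j (GF α k (X 0) (X 1)) = if i + 2 * j = k then cf α i j else 0 := by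
  simp only [GF, co_sum, mul_assoc, co_C_mul, co_mon]
  split_ifs with h
  · rw [Finset.sum_eq_single j]
    · rw [if_pos ⟨by omega, rfl⟩, mul_one, cf, show k - j = i + j by omega,
        show k - 2 * j = i by omega]
    · intro l _ hl; rw [if_neg (fun h => hl h.2), mul_zero]
    · intro hb; exact absurd (Finset.mem_range.2 (by omega)) hb
  · refine Finset.sum_eq_zero fun l hl => ?_
    have := Finset.mem_range.1 hl
    rw [if_neg (by omega), mul_zero]

theorem GF_sub (α : K) (k : ℕ) (a q : R2 K) : GF α k a q = sub2 a q (GF α k (X 0) (X 1)) := by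
  simp only [GF, map_sum, map_mul, map_pow, PC3.sub2_C, PC3.sub2_X0, PC3.sub2_X1]

theorem GF_hom (α : K) (k : ℕ) {a q : R2 K} (ha : a.IsHomogeneous 1) (hq : q.IsHomogeneous 2) :
    (GF α k a q).IsHomogeneous k := by
  refine IsHomogeneous.sum _ _ _ fun j hj => ?_
  have := (ha.pow (k - 2 * j)).mul (hq.pow j)
  rw [show 1 * (k - 2 * j) + 2 * j = k by have := Finset.mem_range.1 hj; omega] at this
  rw [mul_assoc]; exact this.C_mul _

variable [CharZero K]

theorem cf_x (α : K) (i j : ℕ) : cf α (i + 1) j * (i + 1) = (α - i - j) * cf α i j := by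
  have h1 : ((i : K) + 1) ≠ 0 := Nat.cast_add_one_ne_zero i
  have h2 : (i.factorial : K) ≠ 0 := Nat.cast_ne_zero.2 i.factorial_ne_zero
  have h3 : (j.factorial : K) ≠ 0 := Nat.cast_ne_zero.2 j.factorial_ne_zero
  rw [cf, cf, add_right_comm, ff, Nat.factorial_succ]
  push_cast; field_simp; ring

theorem cf_y (α : K) (i j : ℕ) : cf α i (j + 1) * (j + 1) = (α - i - j) * cf α i j := by
  have h1 : ((j : K) + 1) ≠ 0 := Nat.cast_add_one_ne_zero j
  have h2 : (i.factorial : K) ≠ 0 := Nat.cast_ne_zero.2 i.factorial_ne_zero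
  have h3 : (j.factorial : K) ≠ 0 := Nat.cast_ne_zero.2 j.factorial_ne_zero
  rw [cf, cf, ← add_assoc, ff, Nat.factorial_succ]
  push_cast; field_simp; ring

theorem eq_x (α : K) (k : ℕ) : pderiv 0 (GF α (k + 2) (X 0) (X 1)) +
    X 0 * pderiv 0 (GF α (k + 1) (X 0) (X 1)) + X 1 * pderiv 0 (GF α k (X 0) (X 1)) =
      C α * GF α (k + 1) (X 0) (X 1) := co_ext fun i j => by
  rw [co_add, co_add, co_X0_x, co_x, co_C_mul, co_GF, co_GF]
  rcases j with _ | j
  · rw [co_X1']
    by_cases h : i + 2 * 0 = k + 1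
    · rw [if_pos h, if_pos (by omega), cf_x]; push_cast; ring
    · rw [if_neg h, if_neg (by omega)]; ring
  · rw [co_X1, co_x, co_GF]
    by_cases h : i + 2 * (j + 1) = k + 1
    · rw [if_pos h, if_pos (by omega), if_pos (by omega), cf_x, cf_x, ← cf_y α i j]
      push_cast; ring
    · rw [if_neg h, if_neg (by omega), if_neg (by omega)]; ring

theorem eq_y (α : K) (k : ℕ) : pderiv 1 (GF α (k + 2) (X 0) (X 1)) +
    X 0 * pderiv 1 (GF α (k + 1) (X 0) (X 1)) + X 1 * pderiv 1 (GF α k (X 0) (X 1)) =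
      C α * GF α k (X 0) (X 1) := co_ext fun i j => by
  rw [co_add, co_add, co_X1_y, co_y, co_C_mul, co_GF, co_GF]
  rcases i with _ | i
  · rw [co_X0']
    by_cases h : 0 + 2 * j = k
    · rw [if_pos h, if_pos (by omega), cf_y]; push_cast; ring
    · rw [if_neg h, if_neg (by omega)]; ring
  · rw [co_X0, co_y, co_GF]
    by_cases h : i + 1 + 2 * j = k
    · rw [if_pos h, if_pos (by omega), if_pos (by omega), cf_y, cf_y, ← cf_x α i j]
      push_cast; ring
    · rw [if_neg h, if_neg (by omega), if_neg (by omega)]; ring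

theorem eq_d (α : K) (k : ℕ) (a q : R2 K) (i : Fin 2) : pderiv i (GF α (k + 2) a q) +
    a * pderiv i (GF α (k + 1) a q) + q * pderiv i (GF α k a q) =
      GF α (k + 1) a q * (C α * pderiv i a) + GF α k a q * (C α * pderiv i q) := by
  have h1 := congrArg (sub2 a q) (eq_x α k)
  have h2 := congrArg (sub2 a q) (eq_y α k)
  simp only [map_add, map_mul, PC3.sub2_C, PC3.sub2_X0, PC3.sub2_X1] at h1 h2
  rw [GF_sub α (k + 2), GF_sub α (k + 1), GF_sub α k, PC3.sub2_d, PC3.sub2_d, PC3.sub2_d]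
  linear_combination pderiv i a * h1 + pderiv i q * h2

theorem geg (α : K) {a q : R2 K} (ha : a.IsHomogeneous 1) (hq : q.IsHomogeneous 2) (d : ℕ)
    (c : K) : Geg d (C c * GF α d a q) := by
  refine ⟨a, q, fun j => c * (ff α (d - j) / (j.factorial * (d - 2 * j).factorial)), 1,
    α - d + 1, 1, ha, hq, fun h => one_ne_zero (congrArg Prod.fst h), ?_, fun j hj => ?_⟩
  · simp only [GF, Finset.mul_sum, map_mul, mul_assoc]
  · obtain ⟨i, rfl⟩ : ∃ i, d = i + 2 * j + 2 := ⟨d - 2 * j - 2, by omega⟩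
    have e1 := cf_x α (i + 1) j
    have e2 := cf_x α i j
    have e3 := cf_y α i j
    beta_reduce
    rw [show i + 2 * j + 2 - j = i + 1 + 1 + j by omega,
      show i + 2 * j + 2 - 2 * j = i + 1 + 1 by omega,
      show i + 2 * j + 2 - (j + 1) = i + (j + 1) by omega,
      show i + 2 * j + 2 - 2 * (j + 1) = i by omega]
    change _ * (c * cf α (i + 1 + 1) j) = _ * (c * cf α i (j + 1))
    push_cast at e1 ⊢
    linear_combination c * (i + 1) * e1 + c * (α - (i + 1) - j) * e2 - c * (α - (i + 1) - j) * e3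

end Sg

theorem sgS : SgStmt := fun K _ _ α a q ha hq => by
  refine ⟨⟨ha, hq, ⟨(hom_pderiv 1 ha).C_mul α, ((hom_pderiv 0 ha).C_mul α).neg⟩,
    ⟨(hom_pderiv 1 hq).C_mul α, ((hom_pderiv 0 hq).C_mul α).neg⟩,
    fun k => Sg.GF_hom α k ha hq, ?_, ?_, fun k => Prod.ext ?_ ?_⟩, Sg.geg α ha hq⟩
  · simp [GF, ff]
  · have : GF α 1 a q = C α * a := by simp [GF, ff]
    rw [this, PC3.d1_C_mul, PC3.fm_eq]
  · exact Sg.eq_d α k a q 1
  · have := Sg.eq_d α k a q 0
    simp only [d1, fm, Prod.snd_add, Prod.smul_snd, smul_eq_mul]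
    linear_combination -this

end Pool.Agent.MP_05b4bd_ag.CR
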