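import Pool.Agent.MP_05b4bd_ag.cr.Bas2

/-! The homogeneous parts of `(1 + a) ^ α (1 + b) ^ β`. -/

namespace Pool.Agent.MP_05b4bd_ag.CR

open MvPolynomial HC
open PC3 (Fm fm d1 wg dv rr DF sub2 mapF H2 H3)

namespace Sj

variable {K : Type} [Field K] [CharZero K] (α β : K)

omit [CharZero K] in
theorem co_J (k i j : ℕ) : HC.co i j (JF α β k) =
    if i + j = k then ff α i / i.factorial * (ff β j / j.factorial) else 0 := by
  rw [JF_eq, co_hs]
  split_ifs with h
  · rw [← h, Nat.add_sub_cancel_left]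
  · rfl

theorem step (γ : K) (i : ℕ) :
    ff γ (i + 1) / ((i + 1).factorial : K) * (i + 1) = ff γ i / i.factorial * (γ - i) := by
  have h1 : ((i.factorial : ℕ) : K) ≠ 0 := Nat.cast_ne_zero.2 i.factorial_ne_zero
  have h2 : (i : K) + 1 ≠ 0 := by exact_mod_cast Nat.succ_ne_zero i
  rw [Nat.factorial_succ, ff]
  push_cast
  field_simp

theorem eqx (k : ℕ) :
    pderiv 0 (JF α β (k + 1)) + X 0 * pderiv 0 (JF α β k) = C α * JF α β k := by
  refine co_ext fun i j => ?_
  rw [co_add, co_x, co_X0_x, co_C_mul, co_J, co_J]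
  by_cases h : i + j = k
  · rw [if_pos h, if_pos (by omega)]
    linear_combination (ff β j / j.factorial) * step α i
  · rw [if_neg h, if_neg (by omega)]; ring

theorem eqy (k : ℕ) :
    pderiv 1 (JF α β (k + 1)) + X 1 * pderiv 1 (JF α β k) = C β * JF α β k := by
  refine co_ext fun i j => ?_
  rw [co_add, co_y, co_X1_y, co_C_mul, co_J, co_J]
  by_cases h : i + j = k
  · rw [if_pos h, if_pos (by omega)]
    linear_combination (ff α i / i.factorial) * step β j
  · rw [if_neg h, if_neg (by omega)]; ring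

theorem J0 : JF α β 0 = 1 := by simp [JF, ff]

theorem t1 (k : ℕ) : T1 α β (JF α β k) := by
  have h1 := congrArg (pderiv 1) (eqx α β k)
  have h2 := congrArg (pderiv 0) (eqy α β k)
  simp only [map_add, Derivation.leibniz, pderiv_X, pderiv_C, smul_eq_mul, HC.pderiv_comm,
    mul_zero, add_zero] at h1 h2
  rw [Pi.single_eq_of_ne (by decide), mul_zero, add_zero] at h1 h2
  unfold T1
  linear_combination h1 - h2

variable (a b : R2 K)

theorem sx (k : ℕ) : sub2 a b (pderiv 0 (JF α β (k + 1))) + a * sub2 a b (pderiv 0 (JF α β k)) =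
    C α * sub2 a b (JF α β k) := by
  have := congrArg (sub2 a b) (eqx α β k)
  rwa [map_add, map_mul, map_mul, PC3.sub2_X0, PC3.sub2_C] at this

theorem sy (k : ℕ) : sub2 a b (pderiv 1 (JF α β (k + 1))) + b * sub2 a b (pderiv 1 (JF α β k)) =
    C β * sub2 a b (JF α β k) := by
  have := congrArg (sub2 a b) (eqy α β k)
  rwa [map_add, map_mul, map_mul, PC3.sub2_X1, PC3.sub2_C] at this

end Sj

open Sj in
theorem sjS : SjStmt := by
  intro K _ _ α β
  refine ⟨fun a b ha hb => ?_, t1 α β⟩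
  have da : ∀ i : Fin 2, (pderiv i a).IsHomogeneous 0 := fun i => hom_pderiv i ha
  have db : ∀ i : Fin 2, (pderiv i b).IsHomogeneous 0 := fun i => hom_pderiv i hb
  refine ⟨ha.add hb, ha.mul hb, ⟨?_, ?_⟩, ⟨?_, ?_⟩, fun k => ?_, ?_, ?_, fun k => ?_⟩
  · exact ((da 1).C_mul α).add ((db 1).C_mul β)
  · exact ((da 0).C_mul α).neg.add ((db 0).C_mul β).neg
  · exact ((hb.C_mul α).mul (da 1)).add ((ha.C_mul β).mul (db 1))
  · exact ((hb.C_mul α).mul (da 0)).neg.add ((ha.C_mul β).mul (db 0)).neg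
  · exact sub2_hom ha hb (by rw [JF_eq]; exact hs_hom _ _)
  · rw [J0, map_one]
  · have h1 := sx α β a b 0
    have h2 := sy α β a b 0
    rw [J0] at h1 h2
    simp only [Derivation.map_one_eq_zero, map_zero, map_one, mul_zero, add_zero, mul_one,
      zero_add] at h1 h2
    refine Prod.ext ?_ ?_
    · simp only [d1, fm, Prod.fst_add, PC3.sub2_d, h1, h2]
    · simp only [d1, fm, Prod.snd_add, PC3.sub2_d, h1, h2]; ring
  · have h1 := sx α β a b k
    have h2 := sy α β a b k
    have h3 := sx α β a b (k + 1)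
    have h4 := sy α β a b (k + 1)
    refine Prod.ext ?_ ?_
    · simp only [d1, fm, Prod.fst_add, Prod.smul_fst, smul_eq_mul, PC3.sub2_d]
      linear_combination (h3 + b * h1) * pderiv 1 a + (h4 + a * h2) * pderiv 1 b
    · simp only [d1, fm, Prod.snd_add, Prod.smul_snd, smul_eq_mul, PC3.sub2_d]
      linear_combination -(h3 + b * h1) * pderiv 0 a - (h4 + a * h2) * pderiv 0 b

end Pool.Agent.MP_05b4bd_ag.CR
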