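import Pool.Agent.MP_05b4bd_ag.cr.Bas2

/-! The conditions on the top form under linear substitutions. -/

namespace Pool.Agent.MP_05b4bd_ag.CR

open MvPolynomial HC
open ES.U (TM)
open PC3 (Fm fm d1 wg dv rr DF sub2 mapF H2 H3)
open UM (HP)

namespace Sub

variable {K : Type} [Field K] {p q r s : K}

theorem lin_xx (G : R2 K) : pderiv 0 (pderiv 0 (lin p q r s G)) =
    C p ^ 2 * lin p q r s (pderiv 0 (pderiv 0 G)) +
      2 * C p * C r * lin p q r s (pderiv 0 (pderiv 1 G)) +
      C r ^ 2 * lin p q r s (pderiv 1 (pderiv 1 G)) := by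
  rw [lin_x, map_add, pderiv_C_mul, pderiv_C_mul, lin_x, lin_x, HC.pderiv_comm]
  ring

theorem lin_xy (G : R2 K) : pderiv 0 (pderiv 1 (lin p q r s G)) =
    C p * C q * lin p q r s (pderiv 0 (pderiv 0 G)) +
      (C p * C s + C q * C r) * lin p q r s (pderiv 0 (pderiv 1 G)) +
      C r * C s * lin p q r s (pderiv 1 (pderiv 1 G)) := by
  rw [lin_y, map_add, pderiv_C_mul, pderiv_C_mul, lin_x, lin_x, HC.pderiv_comm]
  ring

theorem lin_yy (G : R2 K) : pderiv 1 (pderiv 1 (lin p q r s G)) =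
    C q ^ 2 * lin p q r s (pderiv 0 (pderiv 0 G)) +
      2 * C q * C s * lin p q r s (pderiv 0 (pderiv 1 G)) +
      C s ^ 2 * lin p q r s (pderiv 1 (pderiv 1 G)) := by
  rw [lin_y, map_add, pderiv_C_mul, pderiv_C_mul, lin_y, lin_y, HC.pderiv_comm]
  ring

theorem inv_lin' (h : p * s - q * r ≠ 0) (u : R2 K) :
    lin (s / (p * s - q * r)) (-q / (p * s - q * r)) (-r / (p * s - q * r)) (p / (p * s - q * r))
      (lin p q r s u) = u := by
  rw [lin_lin]
  have e0 := mul_inv_cancel₀ h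
  have e1 : p * (s / (p * s - q * r)) + q * (-r / (p * s - q * r)) = 1 := by
    linear_combination e0
  have e2 : p * (-q / (p * s - q * r)) + q * (p / (p * s - q * r)) = 0 := by ring
  have e3 : r * (s / (p * s - q * r)) + s * (-r / (p * s - q * r)) = 0 := by ring
  have e4 : r * (-q / (p * s - q * r)) + s * (p / (p * s - q * r)) = 1 := by
    linear_combination e0
  rw [e1, e2, e3, e4, lin_id]

theorem lin_eq_zero (h : p * s - q * r ≠ 0) {u : R2 K} (hu : lin p q r s u = 0) : u = 0 := by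
  rw [← inv_lin' h u, hu, map_zero]

theorem det_ne (h : p * s - q * r ≠ 0) : (C p * C s - C q * C r : R2 K) ≠ 0 := by
  rw [← map_mul, ← map_mul, ← map_sub]
  exact fun h0 => h (C_eq_zero.1 h0)

theorem ci_lin (h : p * s - q * r ≠ 0) {F : R2 K} (H : Sq F) : Sq (lin p q r s F) := by
  obtain ⟨z, hz⟩ : ∃ z, z * (p * s - q * r) = 1 := ⟨_, inv_mul_cancel₀ h⟩
  have h' : (C z * (C p * C s - C q * C r) : R2 K) = 1 := by
    rw [← map_mul, ← map_mul, ← map_sub, ← map_mul, hz, map_one]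
  obtain ⟨M, h0, h1⟩ := H
  set J := Ideal.span {pderiv 0 (lin p q r s F), pderiv 1 (lin p q r s F)} with hJ
  have key : ∀ u ∈ Ideal.span {pderiv 0 F, pderiv 1 F}, lin p q r s u ∈ J := fun u hu => by
    obtain ⟨a, b, rfl⟩ := Ideal.mem_span_pair.1 hu
    refine Ideal.mem_span_pair.2 ⟨C z * (lin p q r s a * C s - lin p q r s b * C q),
      C z * (lin p q r s b * C p - lin p q r s a * C r), ?_⟩
    rw [lin_x, lin_y, map_add, map_mul, map_mul]
    linear_combination (lin p q r s a * lin p q r s (pderiv 0 F) +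
      lin p q r s b * lin p q r s (pderiv 1 F)) * h'
  have k0 := key _ h0
  have k1 := key _ h1
  rw [map_pow, lin_X0] at k0
  rw [map_pow, lin_X1] at k1
  have comb : ∀ a b : R2 K, (a * HC.lf p q + b * HC.lf r s) ^ (M + M) ∈ J := fun a b =>
    Ideal.add_pow_mem_of_pow_mem_of_le J (m := M) (n := M)
      (by rw [mul_pow]; exact J.mul_mem_left _ k0) (by rw [mul_pow]; exact J.mul_mem_left _ k1)
      (by omega)
  refine ⟨M + M, ?_, ?_⟩
  · have := comb (C z * C s) (-(C z * C q))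
    rwa [show C z * C s * HC.lf p q + -(C z * C q) * HC.lf r s = X 0 by
      simp only [HC.lf]; linear_combination (X 0 : R2 K) * h'] at this
  · have := comb (-(C z * C r)) (C z * C p)
    rwa [show -(C z * C r) * HC.lf p q + C z * C p * HC.lf r s = X 1 by
      simp only [HC.lf]; linear_combination (X 1 : R2 K) * h'] at this

/-- A singular substitution gives a form killed by a constant field. -/
theorem sing (h : p * s - q * r = 0) (G : R2 K) : ∃ v w : K, (v ≠ 0 ∨ w ≠ 0) ∧
    C v * pderiv 0 (lin p q r s G) + C w * pderiv 1 (lin p q r s G) = 0 := by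
  have key : ∀ v w : K, v * p + w * q = 0 → v * r + w * s = 0 →
      C v * pderiv 0 (lin p q r s G) + C w * pderiv 1 (lin p q r s G) = 0 := by
    intro v w h1 h2
    have h3 : (C v * C p + C w * C q : R2 K) = 0 := by
      rw [← map_mul, ← map_mul, ← map_add, h1, map_zero]
    have h4 : (C v * C r + C w * C s : R2 K) = 0 := by
      rw [← map_mul, ← map_mul, ← map_add, h2, map_zero]
    rw [lin_x, lin_y]
    linear_combination lin p q r s (pderiv 0 G) * h3 + lin p q r s (pderiv 1 G) * h4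
  by_cases h1 : q ≠ 0 ∨ -p ≠ 0
  · exact ⟨q, -p, h1, key _ _ (by ring) (by linear_combination -h)⟩
  by_cases h2 : s ≠ 0 ∨ -r ≠ 0
  · exact ⟨s, -r, h2, key _ _ (by linear_combination h) (by ring)⟩
  push Not at h1 h2
  exact ⟨1, 0, Or.inl one_ne_zero, key _ _ (by linear_combination -h1.2)
    (by linear_combination -h2.2)⟩

section Const

variable {v w : K} {F : R2 K}

theorem d0 (h : C v * pderiv 0 F + C w * pderiv 1 F = 0) :
    C v * pderiv 0 (pderiv 0 F) + C w * pderiv 0 (pderiv 1 F) = 0 := by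
  have := congrArg (pderiv 0) h
  rwa [map_add, pderiv_C_mul, pderiv_C_mul, map_zero] at this

theorem d1' (h : C v * pderiv 0 F + C w * pderiv 1 F = 0) :
    C v * pderiv 0 (pderiv 1 F) + C w * pderiv 1 (pderiv 1 F) = 0 := by
  have := congrArg (pderiv 1) h
  rwa [map_add, pderiv_C_mul, pderiv_C_mul, map_zero, HC.pderiv_comm] at this

theorem syz_const (hv : v ≠ 0 ∨ w ≠ 0) (h : C v * pderiv 0 F + C w * pderiv 1 F = 0) : Syz F := by
  refine ⟨![C v * X 0, C w * X 0, 0], fun h0 => ?_, fun i => ?_, ?_⟩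
  · have e0 : (C v * X 0 : R2 K) = 0 := congrFun h0 0
    have e1 : (C w * X 0 : R2 K) = 0 := congrFun h0 1
    rcases hv with hv | hv
    · exact mul_ne_zero (fun h => hv (C_eq_zero.1 h)) (X_ne_zero _) e0
    · exact mul_ne_zero (fun h => hv (C_eq_zero.1 h)) (X_ne_zero _) e1
  · fin_cases i
    exacts [isHomogeneous_C_mul_X _ _, isHomogeneous_C_mul_X _ _, isHomogeneous_zero _ _ _]
  · change C v * X 0 * _ + C w * X 0 * _ + 0 * _ = (0 : R2 K)
    linear_combination X 0 * d0 h

theorem epd_const (hv : v ≠ 0 ∨ w ≠ 0) (h : C v * pderiv 0 F + C w * pderiv 1 F = 0) (m : ℕ) :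
    Epd m F := by
  refine ⟨X 0, v ^ 2, v * w, w ^ 2, X_ne_zero _, isHomogeneous_X _ _, fun h0 => ?_, ?_⟩
  · simp only [Prod.mk_eq_zero, pow_eq_zero_iff two_ne_zero] at h0
    exact hv.elim (fun h => h h0.1) fun h => h h0.2.2
  · rw [pderiv_X_self, pderiv_X_of_ne (by decide), map_pow, map_pow, map_mul]
    linear_combination X 0 * C v * d0 h + X 0 * C w * d1' h - 2 * (m : R2 K) * C v * h

theorem not_sq {e : ℕ} (hF : F.IsHomogeneous (e + 2)) (hv : v ≠ 0 ∨ w ≠ 0)
    (h : C v * pderiv 0 F + C w * pderiv 1 F = 0) : ¬ Sq F := by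
  intro H
  by_cases hw : w = 0
  · have hv' : v ≠ 0 := hv.resolve_right (not_not.2 hw)
    rw [hw, map_zero, zero_mul, add_zero] at h
    exact mul_ne_zero (fun h => hv' (C_eq_zero.1 h)) (CI.ne_zero H (hom_pderiv 1 hF)) h
  · have h1 : (C w⁻¹ * C w : R2 K) = 1 := by rw [← map_mul, inv_mul_cancel₀ hw, map_one]
    have hu : IsUnit (pderiv 0 F) := CI.relPrime H dvd_rfl
      ⟨-(C w⁻¹ * C v), by linear_combination C w⁻¹ * h - pderiv 1 F * h1⟩
    have h0 : coeff 0 (pderiv 0 F) = 0 := (hom_pderiv 0 hF).coeff_eq_zero (by simp)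
    have := hu.map (constantCoeff (σ := Fin 2) (R := K))
    rw [constantCoeff_eq, h0] at this
    exact not_isUnit_zero this

end Const

theorem syz_lin (h : p * s - q * r ≠ 0) {G : R2 K} (H : Syz G) : Syz (lin p q r s G) := by
  obtain ⟨l, l0, hl, he⟩ := H
  have hm : ∀ i, (lin p q r s (l i)).IsHomogeneous 1 := fun i => lin_hom (hl i)
  have hc : ∀ x y z : K, (C x * lin p q r s (l 0) + C y * lin p q r s (l 1) +
      C z * lin p q r s (l 2)).IsHomogeneous 1 := fun x y z =>
    (((hm 0).C_mul x).add ((hm 1).C_mul y)).add ((hm 2).C_mul z)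
  refine ⟨![C (s ^ 2) * lin p q r s (l 0) + C (-(q * s)) * lin p q r s (l 1) +
      C (q ^ 2) * lin p q r s (l 2),
    C (-(2 * r * s)) * lin p q r s (l 0) + C (p * s + q * r) * lin p q r s (l 1) +
      C (-(2 * p * q)) * lin p q r s (l 2),
    C (r ^ 2) * lin p q r s (l 0) + C (-(p * r)) * lin p q r s (l 1) +
      C (p ^ 2) * lin p q r s (l 2)], fun h0 => l0 ?_, fun i => ?_, ?_⟩
  · have e0 := congrFun h0 0
    have e1 := congrFun h0 1
    have e2 := congrFun h0 2
    simp only [Matrix.cons_val_zero, Matrix.cons_val_one, Matrix.cons_val, Pi.zero_apply, map_pow,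
      map_neg, map_mul, map_add, map_ofNat] at e0 e1 e2
    have hD := pow_ne_zero 2 (det_ne h)
    funext i
    refine lin_eq_zero h ((mul_eq_zero.1 (?_ : (C p * C s - C q * C r) ^ 2 * _ = 0)).resolve_left hD)
    fin_cases i
    · change _ * lin p q r s (l 0) = 0
      linear_combination C p ^ 2 * e0 + C p * C q * e1 + C q ^ 2 * e2
    · change _ * lin p q r s (l 1) = 0
      linear_combination 2 * C p * C r * e0 + (C p * C s + C q * C r) * e1 + 2 * C q * C s * e2
    · change _ * lin p q r s (l 2) = 0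
      linear_combination C r ^ 2 * e0 + C r * C s * e1 + C s ^ 2 * e2
  · fin_cases i
    exacts [hc _ _ _, hc _ _ _, hc _ _ _]
  · have h1 := congrArg (lin p q r s) he
    simp only [map_add, map_mul, map_zero] at h1
    simp only [Matrix.cons_val_zero, Matrix.cons_val_one, Matrix.cons_val, map_pow,
      map_neg, map_mul, map_add, map_ofNat, lin_xx, lin_xy, lin_yy]
    linear_combination (C p * C s - C q * C r) ^ 2 * h1

theorem epd_lin (h : p * s - q * r ≠ 0) {m : ℕ} {G : R2 K} (H : Epd m G) :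
    Epd m (lin p q r s G) := by
  obtain ⟨l, a, b, c, l0, hl, h0, he⟩ := H
  refine ⟨lin p q r s l, s ^ 2 * a - 2 * q * s * b + q ^ 2 * c,
    -(r * s * a) + (p * s + q * r) * b - p * q * c, r ^ 2 * a - 2 * p * r * b + p ^ 2 * c,
    fun h1 => l0 (lin_eq_zero h h1), lin_hom hl, fun h1 => h0 ?_, ?_⟩
  · simp only [Prod.mk_eq_zero] at h1 ⊢
    obtain ⟨e0, e1, e2⟩ := h1
    have hD := pow_ne_zero 2 h
    refine ⟨(mul_eq_zero.1 ?_).resolve_left hD, (mul_eq_zero.1 ?_).resolve_left hD,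
      (mul_eq_zero.1 ?_).resolve_left hD⟩
    · linear_combination p ^ 2 * e0 + 2 * p * q * e1 + q ^ 2 * e2
    · linear_combination p * r * e0 + (p * s + q * r) * e1 + q * s * e2
    · linear_combination r ^ 2 * e0 + 2 * r * s * e1 + s ^ 2 * e2
  · have h1 := congrArg (lin p q r s) he
    simp only [map_add, map_mul, lin_C, map_ofNat, map_natCast] at h1
    rw [lin_xx, lin_xy, lin_yy, lin_x, lin_x, lin_y, lin_y]
    simp only [map_pow, map_neg, map_mul, map_add, map_sub, map_ofNat]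
    linear_combination (C p * C s - C q * C r) ^ 2 * h1

theorem syz_T1 [CharZero K] {d : ℕ} {α β : K} {G : R2 K} (hG : G.IsHomogeneous d)
    (h : T1 α β G) : Syz G := by
  rcases le_or_gt d 1 with hd | hd
  · have h2 : pderiv 0 (pderiv 0 G) = 0 :=
      DL.eq_zero (DL.pderiv 0 (DL.pderiv 0 ((DL.of_hom hG).mono (by omega))))
    refine ⟨![X 0, 0, 0], fun h0 => X_ne_zero (R := K) (0 : Fin 2) (congrFun h0 0), fun i => ?_, ?_⟩
    · fin_cases i
      exacts [isHomogeneous_X _ _, isHomogeneous_zero _ _ _, isHomogeneous_zero _ _ _]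
    · change X 0 * _ + 0 * _ + 0 * _ = (0 : R2 K)
      rw [h2]
      ring
  · obtain ⟨e, rfl⟩ : ∃ e, d = e + 1 + 1 := ⟨d - 2, by omega⟩
    have e0 := euler (hom_pderiv 0 hG)
    have e1 := euler (hom_pderiv 1 hG)
    rw [HC.pderiv_comm] at e0
    refine ⟨![HC.lf β 0, HC.lf (((e + 1 : ℕ) : K) - α) (β - (e + 1 : ℕ)), HC.lf 0 (-α)], fun h0 => ?_,
      fun i => ?_, ?_⟩
    · have a0 := (lf_eq_zero (congrFun h0 0)).1
      have a1 := (lf_eq_zero (congrFun h0 1)).2
      rw [a0, zero_sub, neg_eq_zero] at a1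
      exact Nat.cast_ne_zero.2 (Nat.succ_ne_zero e) a1
    · fin_cases i
      exacts [lf_hom _ _, lf_hom _ _, lf_hom _ _]
    · change HC.lf β 0 * _ + HC.lf (((e + 1 : ℕ) : K) - α) (β - (e + 1 : ℕ)) * _ + HC.lf 0 (-α) * _ = (0 : R2 K)
      rw [T1] at h
      simp only [HC.lf, map_sub, map_neg, map_zero, map_natCast]
      linear_combination ((e + 1 : ℕ) : R2 K) * h + C β * e0 - C α * e1

end Sub

theorem subS : SubStmt := by
  intro K _ _ d a b G ha hb hG
  obtain ⟨p, q, r, s, rfl, rfl, e⟩ := sub2_lin ha hb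
  rw [e]
  by_cases h : p * s - q * r = 0
  · obtain ⟨v, w, hv, h1⟩ := Sub.sing h G
    refine ⟨fun _ => Sub.syz_const hv h1, fun m _ => Sub.epd_const hv h1 m,
      fun _ _ => Sub.syz_T1 hG, fun hd H => ?_⟩
    obtain ⟨e, rfl⟩ : ∃ e, d = e + 2 := ⟨d - 2, by omega⟩
    exact absurd H (Sub.not_sq (lin_hom hG) hv h1)
  · refine ⟨Sub.syz_lin h, fun _ => Sub.epd_lin h, fun _ _ => Sub.syz_T1 hG, fun _ H => ⟨?_, ?_⟩⟩
    · rw [br, lf_x, lf_y, lf_x, lf_y]
      exact Sub.det_ne h
    · rw [← Sub.inv_lin' h G]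
      refine Sub.ci_lin ?_ H
      have : s / (p * s - q * r) * (p / (p * s - q * r)) -
          -q / (p * s - q * r) * (-r / (p * s - q * r)) = (p * s - q * r)⁻¹ := by
        field_simp
      rw [this]
      exact inv_ne_zero h

end Pool.Agent.MP_05b4bd_ag.CR
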