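import Pool.Agent.MP_05b4bd_ag.cr.Bas2

/-! Telescoping: a truncated series gives a curve of forms through the exact form. -/

namespace Pool.Agent.MP_05b4bd_ag.CR

open MvPolynomial HC
open ES.U (TM)
open PC3 (Fm fm d1 wg dv rr DF sub2 mapF H2 H3)
open UM (HP)

namespace Tel

section Ring
variable {A : Type} [CommRing A]

theorem sum_hc {N : ℕ} {u : R2 A} (hu : DL N u) : u = ∑ k ∈ Finset.range N, hc k u := by
  ext m
  rw [coeff_sum]
  simp only [coeff_hc]
  rw [Finset.sum_ite_eq]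
  split_ifs with h
  · rfl
  · exact hu m (by simpa using h)

theorem scale_sum (e : A) {N : ℕ} {u : R2 A} (hu : DL N u) :
    sub2 (C e * X 0) (C e * X 1) u = ∑ k ∈ Finset.range N, C e ^ k * hc k u := by
  conv_lhs => rw [sum_hc hu]
  rw [map_sum]
  exact Finset.sum_congr rfl fun k _ => sub2_scale e (hc_hom k u)

theorem DL_sum (e : A) (d : ℕ) {E : ℕ → R2 A} (hE : ∀ k, (E k).IsHomogeneous k) :
    DL d (∑ k ∈ Finset.range d, C e ^ k * E k) :=
  DL.sum _ fun k hk => by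
    rw [← map_pow]
    exact ((DL.of_hom (hE k)).mono (Finset.mem_range.1 hk)).C_mul _

theorem tele {s1 s2 : R2 A} {η0 η1 : Fm A} {E : ℕ → R2 A} (hS : Ser s1 s2 η0 η1 E) (e : A)
    (n : ℕ) :
    (1 + C e * s1 + C e ^ 2 * s2) • d1 (∑ k ∈ Finset.range (n + 1), C e ^ k * E k) -
      (∑ k ∈ Finset.range (n + 1), C e ^ k * E k) •
        ((C e : R2 A) • η0 + (C e ^ 2 : R2 A) • η1) =
      (C e ^ (n + 2) : R2 A) • (s2 • d1 (E n) - E n • η1) -
        (C e ^ (n + 1) : R2 A) • d1 (E (n + 1)) := by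
  have h1 : d1 (1 : R2 A) = 0 := by rw [← C_1, PC3.d1_C]
  induction n with
  | zero =>
    simp only [zero_add, Finset.sum_range_one, pow_zero, one_mul, hS.e0, hS.e1, h1]
    module
  | succ n ih =>
    rw [Finset.sum_range_succ _ (n + 1), PC3.d1_add, ← map_pow C e (n + 1), PC3.d1_C_mul, map_pow]
    linear_combination (norm := module) ih + (C e ^ (n + 2) : R2 A) • hS.eq n

end Ring

end Tel

open Tel in
theorem telS : TelStmt := by
  intro d W s1 s2 Φ η0 η1 E c hd hS hW h hh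
  obtain ⟨n, rfl⟩ : ∃ n, d = n + 1 := ⟨d - 1, by omega⟩
  obtain ⟨N, hN⟩ := exists_DL Φ
  have hN' : DL (n + 1 + (N + 1)) Φ := hN.mono (by omega)
  let U : ℂ → Poly := fun ε => h + ∑ i ∈ Finset.range (N + 1), C ε ^ i * hc (n + 1 + i) Φ
  let γ : ℂ → Form := fun ε =>
    (1 + C ε * s1 + C ε ^ 2 * s2) • dform (U ε) -
      U ε • ((C ε : Poly) • η0 + (C ε ^ 2 : Poly) • η1) -
      ((C c * C ε : Poly) • (s2 • d1 (E n) - E n • η1) - (C c : Poly) • d1 (E (n + 1)))
  have pe : PC fun ε => (C ε : Poly) := PS.id.toC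
  have pU : PC U :=
    (PC.const h).add (PC.sum _ fun i _ => (pe.pow i).mul (PC.const _))
  have pγ : PF γ :=
    ((PF.psmul (((PC.const 1).add (pe.mul (PC.const s1))).add ((pe.pow 2).mul (PC.const s2)))
      pU.dform).sub
      (PF.psmul pU ((PF.psmul pe (PF.const η0)).add (PF.psmul (pe.pow 2) (PF.const η1))))).sub
      ((PF.psmul ((PC.const _).mul pe) (PF.const _)).sub (PF.const _))
  have h0 : γ 0 = dform (hc (n + 1) Φ + C c * E (n + 1) + h) := by
    have hU : U 0 = h + hc (n + 1) Φ := by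
      simp [U, Finset.sum_range_succ']
    have e : dform (hc (n + 1) Φ + C c * E (n + 1) + h) =
        dform (h + hc (n + 1) Φ) + (C c : Poly) • d1 (E (n + 1)) := by
      rw [← PC3.d1_C_mul]
      change d1 _ = d1 _ + d1 _
      rw [← PC3.d1_add]
      congr 1
      ring
    rw [e]
    simp only [γ, hU, C_0]
    module
  rw [← h0]
  refine pγ.mem_zcl_of_ne fun ε hε => subset_zcl _ ?_
  have hb : (C (ε ^ (n + 1))⁻¹ : Poly) * C ε ^ (n + 1) = 1 := by
    rw [← map_pow, ← map_mul, inv_mul_cancel₀ (pow_ne_zero _ hε), C_1]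
  have key := hW ε (ε ^ (n + 1))⁻¹
    (h - C (ε ^ (n + 1))⁻¹ * (∑ k ∈ Finset.range (n + 1), C ε ^ k * hc k Φ) -
      C ((ε ^ (n + 1))⁻¹ * c) * ∑ k ∈ Finset.range (n + 1), C ε ^ k * E k) hε
    ((hh.sub ((DL_sum ε _ fun k => hc_hom k Φ).C_mul _)).sub ((DL_sum ε _ hS.hom).C_mul _))
  have hR : C (ε ^ (n + 1))⁻¹ * sub2 (C ε * X 0) (C ε * X 1) Φ +
      (h - C (ε ^ (n + 1))⁻¹ * (∑ k ∈ Finset.range (n + 1), C ε ^ k * hc k Φ) -
        C ((ε ^ (n + 1))⁻¹ * c) * ∑ k ∈ Finset.range (n + 1), C ε ^ k * E k) =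
      U ε - C ((ε ^ (n + 1))⁻¹ * c) * ∑ k ∈ Finset.range (n + 1), C ε ^ k * E k := by
    have e : ∑ i ∈ Finset.range (N + 1), (C ε : Poly) ^ (n + 1 + i) * hc (n + 1 + i) Φ =
        C ε ^ (n + 1) * ∑ i ∈ Finset.range (N + 1), C ε ^ i * hc (n + 1 + i) Φ := by
      rw [Finset.mul_sum]
      exact Finset.sum_congr rfl fun i _ => by ring
    rw [scale_sum ε hN', Finset.sum_range_add, e]
    simp only [U]
    linear_combination (∑ i ∈ Finset.range (N + 1), C ε ^ i * hc (n + 1 + i) Φ) * hb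
  rw [hR, PC3.d1_sub, PC3.d1_C_mul, map_mul] at key
  convert key using 1
  change _ = _ • (dform (U ε) - _) - _
  simp only [γ]
  linear_combination (norm := module)
    (C (ε ^ (n + 1))⁻¹ * C c : Poly) • tele hS ε n +
      hb • ((C c * C ε : Poly) • (s2 • d1 (E n) - E n • η1) - (C c : Poly) • d1 (E (n + 1)))

end Pool.Agent.MP_05b4bd_ag.CR
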