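import Pool.Agent.MP_05b4bd_ag.cr.Bas2
import Mathlib.RingTheory.Valuation.LocalSubring
import Mathlib.FieldTheory.IsAlgClosed.AlgebraicClosure

/-! A point of the closure of a parametrised family is the reduction of the generic member. -/

namespace Pool.Agent.MP_05b4bd_ag.CR

open MvPolynomial HC
open PC3 (Fm fm d1 wg dv rr DF sub2 mapF H2 H3)

namespace Val

theorem place {R K : Type} [CommRing R] [Field K] (θ : R →+* K) (e : R →+* ℂ)
    (h : ∀ r, θ r = 0 → e r = 0) :
    ∃ V : ValuationSubring K, (∀ r, θ r ∈ V) ∧ ∀ r, e r = 0 → θ r ∈ V.nonunits := by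
  have hI : Ideal.map θ.rangeRestrict (RingHom.ker e) ≠ ⊤ := fun ht => by
    obtain ⟨r, h1, h2⟩ := (Ideal.mem_map_iff_of_surjective _ θ.rangeRestrict_surjective).1
      ((Ideal.eq_top_iff_one _).1 ht)
    have h3 : θ r = 1 := congrArg Subtype.val h2
    have h4 := h (r - 1) (by rw [map_sub, h3, map_one, sub_self])
    rw [map_sub, RingHom.mem_ker.1 h1, map_one, zero_sub, neg_eq_zero] at h4
    exact one_ne_zero h4
  obtain ⟨V, v1, v2⟩ := Ideal.image_subset_nonunits_valuationSubring _ hI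
  exact ⟨V, fun r => v1 ⟨r, rfl⟩, fun r hr =>
    v2 ⟨θ.rangeRestrict r, Ideal.mem_map_of_mem _ hr, rfl⟩⟩

theorem pl {K κ : Type} [Field K] [Field κ] (V : ValuationSubring K) (ρ : V →+* κ)
    (h : ∀ a : V, ρ a = 0 ↔ (a : K) ∈ V.nonunits) : Pl V.subtype ρ := by
  refine ⟨Subtype.val_injective, fun x => ?_, fun a ha => ?_⟩
  · by_cases hx : x ∈ V
    · exact Or.inl ⟨⟨x, hx⟩, rfl⟩
    · have h0 : x ≠ 0 := fun e => hx (e ▸ V.zero_mem)
      exact Or.inr ⟨⟨x⁻¹, (V.mem_or_inv_mem x).resolve_left hx⟩,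
        (h _).2 (V.inv_mem_nonunits_iff.2 (Or.inr hx)), inv_mul_cancel₀ h0⟩
  · by_contra hu
    exact ha ((h a).2 (V.coe_mem_nonunits_iff.2 hu))

end Val

theorem valS : ValStmt := by
  intro σ U W ω hW hω
  let K := FractionRing (MvPolynomial σ ℂ)
  let φ : MvPolynomial σ ℂ →+* K := algebraMap _ _
  have hφ : Function.Injective φ := IsFractionRing.injective _ _
  let ψ : Co →+* MvPolynomial σ ℂ := eval₂Hom C fun k => coeff k.2 (cond k.1 U.1 U.2)
  let e : Co →+* ℂ := (aeval (co ω) : Co →ₐ[ℂ] ℂ).toRingHom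
  have hx : ∀ (x : σ → ℂ) (R : Co), ev R (mapF (eval x) U) = eval x (ψ R) := fun x R => by
    have : ((aeval (co (mapF (eval x) U)) : Co →ₐ[ℂ] ℂ).toRingHom) = (eval x).comp ψ := by
      refine ringHom_ext (fun c => by simp [ψ]) fun k => ?_
      obtain ⟨b, m⟩ := k
      cases b <;> simp [ψ, co, mapF, coeff_map]
    exact RingHom.congr_fun this R
  obtain ⟨V, v1, v2⟩ := Val.place (φ.comp ψ) e fun R hR => mem_zcl.1 hω R fun η hη => by
    obtain ⟨x, rfl⟩ := hW η hη
    have h0 : ψ R = 0 := hφ (hR.trans (map_zero φ).symm)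
    rw [hx, h0, map_zero]
  let κ := AlgebraicClosure (IsLocalRing.ResidueField V)
  let ρ : V →+* κ := (algebraMap (IsLocalRing.ResidueField V) κ).comp (IsLocalRing.residue V)
  have hρ : ∀ a : V, ρ a = 0 ↔ (a : K) ∈ V.nonunits := fun a => by
    rw [V.coe_mem_nonunits_iff, ← IsLocalRing.residue_eq_zero_iff]
    exact map_eq_zero_iff _ (algebraMap (IsLocalRing.ResidueField V) κ).injective
  let θ : Co →+* V := (φ.comp ψ).codRestrict V.toSubring v1
  let j : ℂ →+* κ := ρ.comp (θ.comp C)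
  have P := Val.pl V ρ hρ
  have key : ∀ k, Rs V.subtype ρ (φ (coeff k.2 (cond k.1 U.1 U.2))) (j (co ω k)) := fun k => by
    refine ⟨θ (X k), ?_, ?_⟩
    · change φ (ψ (X k)) = _
      simp [ψ]
    · have h := (hρ (θ (X k - C (co ω k)))).2 (v2 _ (by simp [e]))
      rw [map_sub, map_sub, sub_eq_zero] at h
      exact h
  refine ⟨V, K, κ, inferInstance, inferInstance, inferInstance,
    charZero_of_injective_ringHom (φ.comp C).injective, charZero_of_injective_ringHom j.injective,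
    inferInstance, V.subtype, ρ, φ, j, P, Rd.of_coeff P fun m => ?_, Rd.of_coeff P fun m => ?_⟩
  · have h := key (true, m)
    simp only [mapF, coeff_map]
    exact h
  · have h := key (false, m)
    simp only [mapF, coeff_map]
    exact h

end Pool.Agent.MP_05b4bd_ag.CR
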