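import Pool.Agent.MP_05b4bd_ag.ex.Final
import Pool.Agent.MP_05b4bd_ag.cr.Cg
import Pool.Agent.MP_05b4bd_ag.cr.Ka1
import Pool.Agent.MP_05b4bd_ag.cr.Nfa
import Pool.Agent.MP_05b4bd_ag.cr.Sub
import Pool.Agent.MP_05b4bd_ag.cr.Pde
import Pool.Agent.MP_05b4bd_ag.cr.Op
import Pool.Agent.MP_05b4bd_ag.cr.Kc1
import Pool.Agent.MP_05b4bd_ag.cr.Tel
import Pool.Agent.MP_05b4bd_ag.cr.Dsc
import Pool.Agent.MP_05b4bd_ag.cr.Val
import Pool.Agent.MP_05b4bd_ag.cr.Uni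
import Pool.Agent.MP_05b4bd_ag.cr.Dom
import Pool.Agent.MP_05b4bd_ag.cr.Nfc
import Pool.Agent.MP_05b4bd_ag.cr.Kb1
import Pool.Agent.MP_05b4bd_ag.cr.Kb
import Pool.Agent.MP_05b4bd_ag.cr.Ka2
import Pool.Agent.MP_05b4bd_ag.cr.Kc3
import Pool.Agent.MP_05b4bd_ag.cr.Sg
import Pool.Agent.MP_05b4bd_ag.cr.Sj
import Pool.Agent.MP_05b4bd_ag.cr.Rec
import Pool.Agent.MP_05b4bd_ag.cr.Na
import Pool.Agent.MP_05b4bd_ag.cr.Nb
import Pool.Agent.MP_05b4bd_ag.cr.Eqb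
import Pool.Agent.MP_05b4bd_ag.cr.Ba
import Pool.Agent.MP_05b4bd_ag.cr.Ka3
import Pool.Agent.MP_05b4bd_ag.cr.Kc2
import Pool.Agent.MP_05b4bd_ag.cr.Al
import Pool.Agent.MP_05b4bd_ag.cr.Cl
import Pool.Agent.MP_05b4bd_ag.cr.Inv
import Pool.Agent.MP_05b4bd_ag.cr.Main

/-! The components through `df`, with explicit conditions on `f`. -/

namespace Pool.Agent.MP_05b4bd_ag.CR

open MvPolynomial HC

theorem baA : BaStmt := baS telS sjS sgS uniS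
theorem naA : NaStmt := naS (invS UM.icdS) domS recS sjS
theorem nbA : NbStmt := nbS (invS UM.icdS) domS recS sgS
theorem ka1A : Ka1Stmt := ka1S baA sjS
theorem kc1A : Kc1Stmt := kc1S baA (pdeS sgS)

/-- The three criteria. -/
theorem critA (d : ℕ) (hd : 3 ≤ d) (f : Poly) (hf : f.totalDegree = d)
    (hs : Squarefree (homogeneousComponent d f)) (hM : Morse f) :
    (dform f ∈ zcl (L ![1, 1, d - 1]) ↔ Syz (homogeneousComponent d f)) ∧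
    (dform f ∈ zcl (L ![2, d - 1]) ↔ Geg d (homogeneousComponent d f)) ∧
    ∀ n, d ≤ 2 * n + 1 → n < d →
      (dform f ∈ zcl (PN d n) ↔ Epd (d - 1 - n) (homogeneousComponent d f)) :=
  have t := UM.morS d f hd (DL_iff.2 hf.le) (UM.sqfS ℂ d _ (by omega) (hc_hom d f) hs) hM
  ⟨crit1 uniS valS naA sjS subS clS dscS (nfaS subS) ka1A (ka2S ka1A) (ka3S (ka2S ka1A)) hd t,
    crit2 uniS valS nbA sgS (eqbS opS) (cgS opS) dscS (kbS (kb1S baA)) hd t,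
    fun _ => crit3 uniS valS nbA (alS (pdeS sgS) subS) clS dscS (nfcS subS) kc1A (kc2S kc1A)
      (kc3S kc1A) hd t⟩

theorem main_cr (d : ℕ) (hd : 3 ≤ d) (f : Poly) (hf : f.totalDegree = d)
    (hs : Squarefree (homogeneousComponent d f)) (hM : Morse f) (Z : Set Form) :
    IsComponent (M d) Z ∧ dform f ∈ Z ↔ Z = zcl (L ![d + 1]) ∨ Z = zcl (L ![1, d]) ∨
      Syz (homogeneousComponent d f) ∧ Z = zcl (L ![1, 1, d - 1]) ∨
      Geg d (homogeneousComponent d f) ∧ Z = zcl (L ![2, d - 1]) ∨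
      (∃ n, d ≤ 2 * n + 1 ∧ n < d ∧ Epd (d - 1 - n) (homogeneousComponent d f) ∧
        Z = zcl (PN d n)) ∨
      (∃ a b, 1 ≤ a ∧ 1 ≤ b ∧ a.Coprime b ∧ Rad d (a + b) f ∧ Z = zcl (RR d a b)) ∨
      d = 3 ∧ Exo f ∧ (Z = zcl (EX 1) ∨ Z = zcl (EX 3)) := by
  obtain ⟨c1, c2, c3⟩ := critA d hd f hf hs hM
  rw [XO.main_ex d hd f hf hs hM Z]
  constructor
  · rintro (e | e | e | e | ⟨hZ, rfl | rfl | ⟨n, h1, h2, rfl⟩⟩)
    exacts [.inl e, .inr (.inl e), .inr (.inr (.inr (.inr (.inr (.inl e))))),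
      .inr (.inr (.inr (.inr (.inr (.inr e))))), .inr (.inr (.inl ⟨c1.1 hZ, rfl⟩)),
      .inr (.inr (.inr (.inl ⟨c2.1 hZ, rfl⟩))),
      .inr (.inr (.inr (.inr (.inl ⟨n, h1, h2, (c3 n h1 h2).1 hZ, rfl⟩))))]
  · rintro (e | e | ⟨h, rfl⟩ | ⟨h, rfl⟩ | ⟨n, h1, h2, h, rfl⟩ | e | e)
    exacts [.inl e, .inr (.inl e), .inr (.inr (.inr (.inr ⟨c1.2 h, .inl rfl⟩))),
      .inr (.inr (.inr (.inr ⟨c2.2 h, .inr (.inl rfl)⟩))),
      .inr (.inr (.inr (.inr ⟨(c3 n h1 h2).2 h, .inr (.inr ⟨n, h1, h2, rfl⟩)⟩))),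
      .inr (.inr (.inl e)), .inr (.inr (.inr (.inl e)))]

end Pool.Agent.MP_05b4bd_ag.CR
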