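import Pool.Agent.MP_05b4bd_ag.cr.Defs
import Pool.Agent.MP_05b4bd_ag.um.Cfl

/-! Which exact forms lie in the three special families: definitions and block statements. -/

namespace Pool.Agent.MP_05b4bd_ag.CR

open MvPolynomial HC
open ES.U (TM)
open PC3 (Fm fm d1 wg dv rr DF sub2 mapF H2 H3)
open UM (HP)

noncomputable section

section Rings
variable {A : Type} [CommRing A]

/-- The homogeneous parts `E k` of the solution of `(1 + s1 + s2) dE = E (η0 + η1)`. -/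
structure Ser (s1 s2 : R2 A) (η0 η1 : Fm A) (E : ℕ → R2 A) : Prop where
  h1 : s1.IsHomogeneous 1
  h2 : s2.IsHomogeneous 2
  g0 : η0.1.IsHomogeneous 0 ∧ η0.2.IsHomogeneous 0
  g1 : η1.1.IsHomogeneous 1 ∧ η1.2.IsHomogeneous 1
  hom : ∀ k, (E k).IsHomogeneous k
  e0 : E 0 = 1
  e1 : d1 (E 1) = η0
  eq : ∀ k, d1 (E (k + 2)) + s1 • d1 (E (k + 1)) + s2 • d1 (E k) = E (k + 1) • η0 + E k • η1

/-- The operators that preserve the parity. -/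
def op4 (c1 c2 c3 c4 : A) (H : R2 A) : R2 A :=
  C c1 * pderiv 0 (pderiv 0 H) + C c2 * pderiv 1 H + C c3 * X 0 * pderiv 0 (pderiv 1 H) +
    C c4 * X 0 ^ 2 * pderiv 1 (pderiv 1 H)

/-- Weight `d` for the weights `1`, `2`. -/
def WH (d : ℕ) (H : R2 A) : Prop := H.IsWeightedHomogeneous ![1, 2] d

def G4 (d : ℕ) (F : R2 A) : Prop := ∃ (a q H : R2 A) (c1 c2 c3 c4 : A), a.IsHomogeneous 1 ∧
  q.IsHomogeneous 2 ∧ WH d H ∧ (c1, c2, c3, c4) ≠ 0 ∧ F = sub2 a q H ∧ op4 c1 c2 c3 c4 H = 0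

/-- The three normal forms of a linear relation between second derivatives. -/
def T1 (α β : A) (G : R2 A) : Prop :=
  (X 0 - X 1) * pderiv 0 (pderiv 1 G) = C α * pderiv 1 G - C β * pderiv 0 G

def T2 (α β : A) (G : R2 A) : Prop :=
  X 0 * pderiv 0 (pderiv 1 G) = C α * pderiv 1 G - C β * pderiv 0 G

def T3 (β : A) (G : R2 A) : Prop := X 0 * pderiv 1 (pderiv 1 G) + C β * pderiv 0 G = 0

def T4 (m : ℕ) (G : R2 A) : Prop := X 0 * pderiv 0 (pderiv 0 G) = 2 * (m : R2 A) * pderiv 0 G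

def T5 (m : ℕ) (G : R2 A) : Prop :=
  X 0 * (pderiv 0 (pderiv 0 G) - 4 * pderiv 1 (pderiv 1 G)) = 2 * (m : R2 A) * pderiv 0 G

/-- No multiple factor. -/
def Sq (F : R2 A) : Prop := CI (pderiv 0 F) (pderiv 1 F)

end Rings

section Fields
variable {K : Type} [Field K]

/-- Falling factorial. -/
def ff (α : K) : ℕ → K
  | 0 => 1
  | k + 1 => ff α k * (α - k)

/-- The part of degree `k` of `(1 + x) ^ α (1 + y) ^ β`. -/
def JF (α β : K) (k : ℕ) : R2 K := ∑ i ∈ Finset.range (k + 1),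
  C (ff α i / i.factorial * (ff β (k - i) / (k - i).factorial)) * X 0 ^ i * X 1 ^ (k - i)

/-- The part of degree `k` of `(1 + a + q) ^ α`. -/
def GF (α : K) (k : ℕ) (a q : R2 K) : R2 K := ∑ j ∈ Finset.range (k / 2 + 1),
  C (ff α (k - j) / (j.factorial * (k - 2 * j).factorial)) * a ^ (k - 2 * j) * q ^ j

/-- The top form of the parabolic family. -/
def PT (d n : ℕ) (a r : K) (u v : R2 K) : R2 K :=
  C a * hc d (E u v n) + C r * GF ((n : K) + 1 / 2) d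
    (C (coeff 0 (u ^ 2 + v))⁻¹ * hc 1 (u ^ 2 + v)) (C (coeff 0 (u ^ 2 + v))⁻¹ * hc 2 (u ^ 2 + v))

end Fields

section Place
variable {V K κ : Type} [CommRing V] [Field K] [Field κ]

/-- A valuation ring with its field of fractions and a residue map. -/
structure Pl (ι : V →+* K) (ρ : V →+* κ) : Prop where
  inj : Function.Injective ι
  tot : ∀ x : K, (∃ a, ι a = x) ∨ ∃ a, ρ a = 0 ∧ ι a * x = 1
  unit : ∀ a, ρ a ≠ 0 → IsUnit a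

/-- `u` is integral and reduces to `v`. -/
def Rd (ι : V →+* K) (ρ : V →+* κ) (u : R2 K) (v : R2 κ) : Prop :=
  ∃ u0 : R2 V, map ι u0 = u ∧ map ρ u0 = v

def RdF (ι : V →+* K) (ρ : V →+* κ) (u : Fm K) (v : Fm κ) : Prop :=
  Rd ι ρ u.1 v.1 ∧ Rd ι ρ u.2 v.2

end Place

/-- Every polynomial with top form `F` gives a point of the closure of `W`. -/
def Top (d : ℕ) (W : Set Form) (F : Poly) : Prop := ∀ h : Poly, DL d h → dform (F + h) ∈ zcl W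

/-- The same in all linear coordinates. -/
def Tp (d : ℕ) (W : Set Form) (G : Poly) : Prop :=
  ∀ a b : Poly, a.IsHomogeneous 1 → b.IsHomogeneous 1 → Top d W (sub2 a b G)

end

/-! ### Statements: series -/

def SjStmt : Prop := ∀ (K : Type) [Field K] [CharZero K] (α β : K),
  (∀ a b : R2 K, a.IsHomogeneous 1 → b.IsHomogeneous 1 →
    Ser (a + b) (a * b) (fm (C α) a + fm (C β) b) (fm (C α * b) a + fm (C β * a) b)
      fun k => sub2 a b (JF α β k)) ∧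
  ∀ k, T1 α β (JF α β k)

def SgStmt : Prop := ∀ (K : Type) [Field K] [CharZero K] (α : K) (a q : R2 K),
  a.IsHomogeneous 1 → q.IsHomogeneous 2 →
  Ser a q (fm (C α) a) (fm (C α) q) (fun k => GF α k a q) ∧
    ∀ (d : ℕ) (c : K), Geg d (C c * GF α d a q)

/-! ### Statements: from the closure to a place -/

def ValStmt : Prop := ∀ (σ : Type) (U : Fm (MvPolynomial σ ℂ)) (W : Set Form) (ω : Form),
  (∀ η ∈ W, ∃ x : σ → ℂ, η = mapF (eval x) U) → ω ∈ zcl W →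
  ∃ (V K κ : Type) (_ : CommRing V) (_ : Field K) (_ : Field κ) (_ : CharZero K) (_ : CharZero κ)
    (_ : IsAlgClosed κ) (ι : V →+* K) (ρ : V →+* κ) (φ : MvPolynomial σ ℂ →+* K) (j : ℂ →+* κ),
    Pl ι ρ ∧ RdF ι ρ (mapF φ U) (mapF j ω)

/-- Universal members. -/
def UniStmt : Prop := ∀ d, 1 ≤ d →
  ((∀ ω : Form, H3 d ω → ω ∈ L ![1, 1, d - 1]) ∧ ∃ (σ : Type) (U : Fm (MvPolynomial σ ℂ)),
    (∀ η ∈ L ![1, 1, d - 1], ∃ x : σ → ℂ, η = mapF (eval x) U) ∧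
    ∀ (K : Type) [Field K] (φ : MvPolynomial σ ℂ →+* K), H3 d (mapF φ U)) ∧
  ((∀ ω : Form, H2 2 (d - 1) ω → ω ∈ L ![2, d - 1]) ∧ ∃ (σ : Type) (U : Fm (MvPolynomial σ ℂ)),
    (∀ η ∈ L ![2, d - 1], ∃ x : σ → ℂ, η = mapF (eval x) U) ∧
    ∀ (K : Type) [Field K] (φ : MvPolynomial σ ℂ →+* K), H2 2 (d - 1) (mapF φ U)) ∧
  ∀ n, (∀ ω : Form, HP d n ω → ω ∈ PN d n) ∧ ∃ (σ : Type) (U : Fm (MvPolynomial σ ℂ)),
    (∀ η ∈ PN d n, ∃ x : σ → ℂ, η = mapF (eval x) U) ∧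
    ∀ (K : Type) [Field K] (φ : MvPolynomial σ ℂ →+* K), HP d n (mapF φ U)

def RecStmt : Prop := ∀ (V K κ : Type) [CommRing V] [Field K] [Field κ] [CharZero K] [CharZero κ]
  (ι : V →+* K) (ρ : V →+* κ) (s1 s2 R : R2 K) (η0 η1 : Fm K) (E : ℕ → R2 K) (f : R2 κ),
  Pl ι ρ → Ser s1 s2 η0 η1 E → Rd ι ρ s1 0 → Rd ι ρ s2 0 → RdF ι ρ η0 0 → RdF ι ρ η1 0 →
  RdF ι ρ ((1 + s1 + s2) • d1 R - R • (η0 + η1)) (d1 f) →
  ∀ k, 1 ≤ k → Rd ι ρ (hc k R - C (coeff 0 R) * E k) (hc k f)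

/-- Invariant lines and conics go to infinity. -/
def InvStmt : Prop := ∀ (V K κ : Type) [CommRing V] [Field K] [Field κ] [CharZero κ]
  [IsAlgClosed κ] (ι : V →+* K) (ρ : V →+* κ) (d : ℕ) (w : Fm K) (f : R2 κ) (c h : R2 K),
  Pl ι ρ → 3 ≤ d → TM d f → RdF ι ρ w (d1 f) → c ≠ 0 → DL 3 c → wg (d1 c) w = h * c →
  coeff 0 c ≠ 0 ∧ Rd ι ρ (C (coeff 0 c)⁻¹ * hc 1 c) 0 ∧ Rd ι ρ (C (coeff 0 c)⁻¹ * hc 2 c) 0 ∧
    c = C (coeff 0 c) * (1 + C (coeff 0 c)⁻¹ * hc 1 c + C (coeff 0 c)⁻¹ * hc 2 c)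

/-- The residues do not dominate. -/
def DomStmt : Prop := ∀ (V K κ : Type) [CommRing V] [Field K] [Field κ] [CharZero κ]
  (ι : V →+* K) (ρ : V →+* κ) (d : ℕ) (η : Fm K) (f : R2 κ) (q g : R2 K) (l : K),
  Pl ι ρ → 3 ≤ d → TM d f → Rd ι ρ q 1 → DF 2 η → rr q η = 0 →
  RdF ι ρ (fm (C l * q) g - g • η) (d1 f) → l ≠ 0 ∧ RdF ι ρ ((C l⁻¹ : R2 K) • η) 0

def NaStmt : Prop := ∀ (V K κ : Type) [CommRing V] [Field K] [Field κ] [CharZero K] [CharZero κ]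
  [IsAlgClosed κ] (ι : V →+* K) (ρ : V →+* κ) (d : ℕ) (w : Fm K) (f : R2 κ),
  Pl ι ρ → 3 ≤ d → TM d f → RdF ι ρ w (d1 f) → H3 d w → ∃ (a b : R2 K) (α β c : K),
    a.IsHomogeneous 1 ∧ b.IsHomogeneous 1 ∧ Rd ι ρ (sub2 a b (C c * JF α β d)) (hc d f)

def NbStmt : Prop := ∀ (V K κ : Type) [CommRing V] [Field K] [Field κ] [CharZero K] [CharZero κ]
  [IsAlgClosed κ] (ι : V →+* K) (ρ : V →+* κ) (d : ℕ) (w : Fm K) (f : R2 κ),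
  Pl ι ρ → 3 ≤ d → TM d f → RdF ι ρ w (d1 f) →
  (H2 2 (d - 1) w → ∃ (a q : R2 K) (α c : K),
    a.IsHomogeneous 1 ∧ q.IsHomogeneous 2 ∧ Rd ι ρ (C c * GF α d a q) (hc d f)) ∧
  ∀ n, HP d n w → ∃ (a r : K) (u v : R2 K), DL 2 u ∧ DL 2 v ∧ coeff 0 (u ^ 2 + v) ≠ 0 ∧
    Rd ι ρ (PT d n a r u v) (hc d f)

/-! ### Statements: the conditions on the top form -/

/-- Linear substitutions. -/
def SubStmt : Prop := ∀ (K : Type) [Field K] [CharZero K] (d : ℕ) (a b G : R2 K),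
  a.IsHomogeneous 1 → b.IsHomogeneous 1 → G.IsHomogeneous d →
  (Syz G → Syz (sub2 a b G)) ∧ (∀ m, Epd m G → Epd m (sub2 a b G)) ∧
  (∀ α β, T1 α β G → Syz G) ∧ (2 ≤ d → Sq (sub2 a b G) → br a b ≠ 0 ∧ Sq G)

/-- The equation in adapted coordinates. -/
def PdeStmt : Prop := ∀ (K : Type) [Field K] [CharZero K] (d n : ℕ) (a r u0 c0 : K) (G : R2 K),
  n < d → c0 ≠ 0 → G = PT d n a r (C u0 + X 0) (C (c0 - u0 ^ 2) + X 1 - 2 * C u0 * X 0) →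
  G.IsHomogeneous d ∧ X 0 * (pderiv 0 (pderiv 0 G) - 4 * C c0 * pderiv 1 (pderiv 1 G)) =
    2 * ((d - 1 - n : ℕ) : R2 K) * pderiv 0 G

def AlStmt : Prop := ∀ (K : Type) [Field K] [CharZero K] (d n : ℕ) (a r : K) (u v : R2 K), n < d →
  DL 2 u → DL 2 v → coeff 0 (u ^ 2 + v) ≠ 0 → Epd (d - 1 - n) (PT d n a r u v)

/-- The first and the third condition pass to the reduction. -/
def ClStmt : Prop := ∀ (V K κ : Type) [CommRing V] [Field K] [Field κ] (ι : V →+* K)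
  (ρ : V →+* κ) (F : R2 K) (G : R2 κ), Pl ι ρ → Rd ι ρ F G →
  (Syz F → Syz G) ∧ ∀ m, Epd m F → Epd m G

def OpStmt : Prop := ∀ (A : Type) [CommRing A] (d : ℕ) (H : R2 A) (c1 c2 c3 c4 s t l : A),
  op4 c1 (c2 - 2 * l * c1) (c3 - 4 * l * c1) (c4 - 2 * l * c3 + 4 * l ^ 2 * c1)
      (sub2 (X 0) (X 1 + C l * X 0 ^ 2) H) =
    sub2 (X 0) (X 1 + C l * X 0 ^ 2) (op4 c1 c2 c3 c4 H) ∧
  op4 (c1 * t ^ 2) (c2 * s ^ 2 * t) (c3 * s ^ 2 * t) (c4 * s ^ 4) (sub2 (C s * X 0) (C t * X 1) H) =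
    C (s ^ 2 * t ^ 2) * sub2 (C s * X 0) (C t * X 1) (op4 c1 c2 c3 c4 H) ∧
  (WH d H → WH d (sub2 (X 0) (X 1 + C l * X 0 ^ 2) H) ∧ WH d (sub2 (C s * X 0) (C t * X 1) H)) ∧
  (WH d H ↔ ∃ h : ℕ → A,
    H = ∑ j ∈ Finset.range (d / 2 + 1), C (h j) * X 0 ^ (d - 2 * j) * X 1 ^ j) ∧
  ∀ h : ℕ → A, H = ∑ j ∈ Finset.range (d / 2 + 1), C (h j) * X 0 ^ (d - 2 * j) * X 1 ^ j →
    (op4 c1 c2 c3 0 H = 0 ↔ ∀ j < d / 2, c1 * ((d : A) - 2 * j) * ((d : A) - 2 * j - 1) * h j +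
      ((j : A) + 1) * (c2 + c3 * ((d : A) - 2 * j - 2)) * h (j + 1) = 0)

def EqbStmt : Prop := ∀ (K : Type) [Field K] [CharZero K] (d : ℕ) (F : R2 K),
  (Geg d F → G4 d F) ∧ (IsAlgClosed K → 3 ≤ d → Sq F → G4 d F → Geg d F)

/-- The second condition passes to a reduction without multiple factor. -/
def CgStmt : Prop := ∀ (V K κ : Type) [CommRing V] [Field K] [Field κ] [CharZero K] [CharZero κ]
  (ι : V →+* K) (ρ : V →+* κ) (d : ℕ) (F : R2 K) (G : R2 κ), Pl ι ρ → 3 ≤ d → Rd ι ρ F G → Sq G →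
  G4 d F → G4 d G

/-- Descent to the complex numbers. -/
def DscStmt : Prop := ∀ (κ : Type) [Field κ] (j : ℂ →+* κ) (F : Poly),
  (Syz (map j F) → Syz F) ∧ (∀ d, Geg d (map j F) → Geg d F) ∧ ∀ m, Epd m (map j F) → Epd m F

/-! ### Statements: from the top form to the closure -/

def TelStmt : Prop := ∀ (d : ℕ) (W : Set Form) (s1 s2 Φ : Poly) (η0 η1 : Form) (E : ℕ → Poly)
  (c : ℂ), 1 ≤ d → Ser s1 s2 η0 η1 E →
  (∀ (ε b : ℂ) (g : Poly), ε ≠ 0 → DL d g →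
    (1 + C ε * s1 + C ε ^ 2 * s2) • d1 (C b * sub2 (C ε * X 0) (C ε * X 1) Φ + g) -
      (C b * sub2 (C ε * X 0) (C ε * X 1) Φ + g) • ((C ε : Poly) • η0 + (C ε ^ 2 : Poly) • η1) ∈ W) →
  Top d W (hc d Φ + C c * E d)

def BaStmt : Prop := ∀ d, 1 ≤ d →
  (∀ α β c : ℂ, Tp d (L ![1, 1, d - 1]) (C c * JF α β d)) ∧
  (∀ (α c : ℂ) (a q : Poly), a.IsHomogeneous 1 → q.IsHomogeneous 2 →
    Top d (L ![2, d - 1]) (C c * GF α d a q)) ∧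
  ∀ (n : ℕ) (a r : ℂ), Tp d (PN d n)
    (C a * hc d (E (X 0) (1 + X 1) n) + C r * GF ((n : ℂ) + 1 / 2) d (X 1) (X 0 ^ 2))

def NfaStmt : Prop := ∀ (d : ℕ) (F : Poly), 3 ≤ d → F.IsHomogeneous d → Sq F → Syz F →
  ∃ a b G : Poly, a.IsHomogeneous 1 ∧ b.IsHomogeneous 1 ∧ G.IsHomogeneous d ∧ F = sub2 a b G ∧
    ∃ α β, T1 α β G ∨ T2 α β G ∨ β ≠ 0 ∧ T3 β G

def Ka1Stmt : Prop := ∀ (d : ℕ) (α β : ℂ) (G : Poly), 1 ≤ d → G.IsHomogeneous d → T1 α β G →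
  Tp d (L ![1, 1, d - 1]) G

def Ka2Stmt : Prop := ∀ (d : ℕ) (α β : ℂ) (G : Poly), 1 ≤ d → G.IsHomogeneous d → T2 α β G →
  Tp d (L ![1, 1, d - 1]) G

def Ka3Stmt : Prop := ∀ (d : ℕ) (β : ℂ) (G : Poly), 1 ≤ d → G.IsHomogeneous d → β ≠ 0 → T3 β G →
  Tp d (L ![1, 1, d - 1]) G

def Kb1Stmt : Prop := ∀ (d : ℕ) (a q : Poly) (h : ℕ → ℂ) (s t : ℂ), 1 ≤ d → a.IsHomogeneous 1 →
  q.IsHomogeneous 2 → (∀ j < d / 2, ((d : ℂ) - 2 * j) * ((d : ℂ) - 2 * j - 1) * h j =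
    ((j : ℂ) + 1) * (s + t * j) * h (j + 1)) →
  Top d (L ![2, d - 1]) (∑ j ∈ Finset.range (d / 2 + 1), C (h j) * a ^ (d - 2 * j) * q ^ j)

def KbStmt : Prop := ∀ (d : ℕ) (F : Poly), 3 ≤ d → Sq F → Geg d F → Top d (L ![2, d - 1]) F

def NfcStmt : Prop := ∀ (d m : ℕ) (F : Poly), 3 ≤ d → F.IsHomogeneous d → Sq F → Epd m F →
  ∃ a b G : Poly, a.IsHomogeneous 1 ∧ b.IsHomogeneous 1 ∧ G.IsHomogeneous d ∧ F = sub2 a b G ∧
    (T5 m G ∨ T4 m G ∨ T2 (m : ℂ) 0 G)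

def Kc1Stmt : Prop := ∀ (d n : ℕ) (G : Poly), d ≤ 2 * n + 1 → n < d → G.IsHomogeneous d →
  T5 (d - 1 - n) G → Tp d (PN d n) G

def Kc2Stmt : Prop := ∀ (d n : ℕ) (G : Poly), d ≤ 2 * n + 1 → n < d → G.IsHomogeneous d →
  T4 (d - 1 - n) G → Tp d (PN d n) G

def Kc3Stmt : Prop := ∀ (d n : ℕ) (G : Poly), d ≤ 2 * n + 1 → n < d → G.IsHomogeneous d →
  T2 ((d - 1 - n : ℕ) : ℂ) 0 G → Tp d (PN d n) G

end Pool.Agent.MP_05b4bd_ag.CR
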