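import Pool.Agent.MP_05b4bd_ag.cr.Bas2

/-! Universal members of the three special families. -/

namespace Pool.Agent.MP_05b4bd_ag.CR

open MvPolynomial HC
open PC3 (Fm fm d1 mapF H2 H3)
open UM (HP)

namespace Uni

/-- The polynomial of degree less than `n` with given coefficients. -/
noncomputable def up {A : Type} [CommRing A] (n : ℕ) (x : (Fin 2 →₀ ℕ) → A) : R2 A :=
  ∑ m ∈ (Finsupp.finite_of_degree_lt (σ := Fin 2) n).toFinset, monomial m (x m)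

theorem coeff_up {A : Type} [CommRing A] (n : ℕ) (x : (Fin 2 →₀ ℕ) → A) (m : Fin 2 →₀ ℕ) :
    coeff m (up n x) = if m.degree < n then x m else 0 := by
  simp [up, coeff_sum, coeff_monomial]

theorem gen {W : Set Form} (H : ∀ (A : Type) [CommRing A], Fm A → Prop)
    (hW : ∀ η ∈ W, H ℂ η) (n : Fin 3 → ℕ)
    (Φ : ∀ (A : Type) [CommRing A], (Fin 3 → R2 A) → (Fin 3 → A) → Fm A)
    (nat : ∀ (A B : Type) [CommRing A] [CommRing B] (φ : A →+* B) P l,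
      mapF φ (Φ A P l) = Φ B (fun i => map φ (P i)) fun i => φ (l i))
    (hH : ∀ (A : Type) [CommRing A] w, H A w ↔ ∃ P l, (∀ i, DL (n i) (P i)) ∧ w = Φ A P l) :
    ∃ (σ : Type) (U : Fm (MvPolynomial σ ℂ)), (∀ η ∈ W, ∃ x : σ → ℂ, η = mapF (eval x) U) ∧
      ∀ (K : Type) [Field K] (φ : MvPolynomial σ ℂ →+* K), H K (mapF φ U) := by
  refine ⟨(Fin 3 × (Fin 2 →₀ ℕ)) ⊕ Fin 3, Φ _ (fun i => up (n i) fun m => X (.inl (i, m)))
    fun i => X (.inr i), fun η hη => ?_, fun K _ φ => (hH _ _).2 ⟨_, _, fun i => ?_, nat _ _ φ _ _⟩⟩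
  · obtain ⟨P, l, h, rfl⟩ := (hH _ _).1 (hW η hη)
    refine ⟨Sum.elim (fun q => coeff q.2 (P q.1)) l, ?_⟩
    rw [nat]
    congr 1
    · funext i
      ext m
      rw [coeff_map, coeff_up]
      split_ifs with e
      · simp
      · rw [h i m (not_lt.1 e), map_zero]
    · funext i
      simp
  · exact DL.map φ fun m hm => by rw [coeff_up, if_neg (not_lt.2 hm)]

theorem fm_df (g h : Poly) : fm g h = g • dform h := PC3.fm_eq g h

theorem sum3 (f : Fin 3 → Poly) (l : Fin 3 → ℂ) :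
    ∑ i, (C (l i) * ∏ j ∈ Finset.univ.erase i, f j) • dform (f i) =
      fm (C (l 0) * f 1 * f 2) (f 0) + fm (C (l 1) * f 0 * f 2) (f 1) +
        fm (C (l 2) * f 0 * f 1) (f 2) := by
  rw [Fin.sum_univ_three, show (Finset.univ : Finset (Fin 3)).erase 0 = {1, 2} by decide,
    show (Finset.univ : Finset (Fin 3)).erase 1 = {0, 2} by decide,
    show (Finset.univ : Finset (Fin 3)).erase 2 = {0, 1} by decide,
    Finset.prod_pair (by decide), Finset.prod_pair (by decide), Finset.prod_pair (by decide)]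
  simp only [fm_df, mul_assoc]

theorem sum2 (f : Fin 2 → Poly) (l : Fin 2 → ℂ) :
    ∑ i, (C (l i) * ∏ j ∈ Finset.univ.erase i, f j) • dform (f i) =
      fm (C (l 1) * f 0) (f 1) + fm (C (l 0) * f 1) (f 0) := by
  rw [Fin.sum_univ_two, show (Finset.univ : Finset (Fin 2)).erase 0 = {1} by decide,
    show (Finset.univ : Finset (Fin 2)).erase 1 = {0} by decide, Finset.prod_singleton,
    Finset.prod_singleton, add_comm, fm_df, fm_df]

end Uni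

open Uni

theorem uniS : UniStmt := by
  intro d hd
  obtain ⟨e, rfl⟩ : ∃ e, d = e + 1 := ⟨d - 1, by omega⟩
  simp only [Nat.add_sub_cancel]
  refine ⟨⟨?_, gen (fun A _ => H3 (e + 1)) ?_ ![2, 2, e + 1] (fun A _ P l =>
      fm (C (l 0) * P 1 * P 2) (P 0) + fm (C (l 1) * P 0 * P 2) (P 1) +
        fm (C (l 2) * P 0 * P 1) (P 2)) (fun A B _ _ φ P l => ?_) fun A _ w => ⟨?_, ?_⟩⟩,
    ⟨?_, gen (fun A _ => H2 2 e) ?_ ![3, e + 1, 0] (fun A _ P l =>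
      fm (C (l 0) * P 0) (P 1) + fm (C (l 1) * P 1) (P 0)) (fun A B _ _ φ P l => ?_)
      fun A _ w => ⟨?_, ?_⟩⟩, fun n =>
    ⟨?_, gen (fun A _ => HP (e + 1) n) ?_ ![2, 2, e + 1] (fun A _ P l =>
      fm (2 * (P 0 ^ 2 + P 1)) (C (l 0) * E (P 0) (P 1) n + P 2) -
        fm ((2 * (n : R2 A) + 1) * (C (l 0) * E (P 0) (P 1) n + P 2)) (P 0 ^ 2 + P 1))
      (fun A B _ _ φ P l => ?_) fun A _ w => ⟨?_, ?_⟩⟩⟩
  · rintro _ ⟨s, t, G, l1, l2, l3, hs, ht, hG, rfl⟩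
    refine ⟨![s, t, G], ![l1, l2, l3], fun i => ?_, (sum3 ![s, t, G] ![l1, l2, l3]).symm⟩
    fin_cases i
    exacts [DL_iff.1 hs, DL_iff.1 ht, DL_iff.1 hG]
  · rintro _ ⟨f, l, h, rfl⟩
    exact ⟨f 0, f 1, f 2, l 0, l 1, l 2, DL_iff.2 (h 0), DL_iff.2 (h 1), DL_iff.2 (h 2), sum3 f l⟩
  · simp only [PC3.mapF_add, PC3.mapF_fm, map_mul, map_C]
  · rintro ⟨s, t, G, l1, l2, l3, hs, ht, hG, rfl⟩
    refine ⟨![s, t, G], ![l1, l2, l3], fun i => ?_, rfl⟩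
    fin_cases i
    exacts [hs, ht, hG]
  · rintro ⟨P, l, h, rfl⟩
    exact ⟨P 0, P 1, P 2, l 0, l 1, l 2, h 0, h 1, h 2, rfl⟩
  · rintro _ ⟨F, G, β, α, hF, hG, rfl⟩
    refine ⟨![F, G], ![α, β], fun i => ?_, (sum2 ![F, G] ![α, β]).symm⟩
    fin_cases i
    exacts [DL_iff.1 hF, DL_iff.1 hG]
  · rintro _ ⟨f, l, h, rfl⟩
    exact ⟨f 0, f 1, l 1, l 0, DL_iff.2 (h 0), DL_iff.2 (h 1), sum2 f l⟩
  · simp only [PC3.mapF_add, PC3.mapF_fm, map_mul, map_C]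
  · rintro ⟨F, G, β, α, hF, hG, rfl⟩
    refine ⟨![F, G, 0], ![β, α, 0], fun i => ?_, rfl⟩
    fin_cases i
    exacts [hF, hG, DL.zero _]
  · rintro ⟨P, l, h, rfl⟩
    exact ⟨P 0, P 1, l 0, l 1, h 0, h 1, rfl⟩
  · rintro _ ⟨a, u, v, g, R, hu, hv, hg, hR, rfl⟩
    exact ⟨a, u, v, g, R, DL_iff.1 hu, DL_iff.1 hv, DL_iff.1 hg, hR, by rw [fm_df, fm_df]⟩
  · rintro _ ⟨a, u, v, g, R, hu, hv, hg, hR, rfl⟩
    exact ⟨a, u, v, g, R, DL_iff.2 hu, DL_iff.2 hv, DL_iff.2 hg, hR, by rw [fm_df, fm_df]⟩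
  · simp only [PC3.mapF_sub, PC3.mapF_fm, map_mul, map_add, map_pow, map_C, map_ofNat, map_natCast,
      map_one, UM.map_E]
  · rintro ⟨a, u, v, g, _, hu, hv, hg, rfl, rfl⟩
    refine ⟨![u, v, g], fun _ => a, fun i => ?_, rfl⟩
    fin_cases i
    exacts [hu, hv, hg]
  · rintro ⟨P, l, h, rfl⟩
    exact ⟨l 0, P 0, P 1, P 2, _, h 0, h 1, h 2, rfl, rfl⟩

end Pool.Agent.MP_05b4bd_ag.CR
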